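import Pool.Agent.H1.EW.D0
import Pool.Agent.H1.ED.P0

/-!
# EX: ellipses and disks together: definitions

The inclusion with the parameters `c`, `r > 0`, `‖μ‖ < 1` is the open ellipse `Dp c r μ 1` (half axes `r (1 ± ‖μ‖)`, a disk if `μ = 0`).
-/

set_option autoImplicit false

namespace EX1

open Complex Set Filter Topology MeasureTheory MD12 ED1 EW1
open scoped ComplexConjugate ContDiff Real

/-- the closed ellipse -/
def Kp (c : ℂ) (r : ℝ) (μ : ℂ) : Set ℂ := {z | ‖vv c r μ z‖ ≤ 1}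

/-- the transform of the field in the inclusion -/
noncomputable def Ct (Ω : Set ℂ) (k : ℝ) (D : Set ℂ) (G : ℂ → ℂ) (z : ℂ) : ℂ :=
  ∫ w in Ω, ((MD12.cond k D w - 1 : ℝ) : ℂ) * G w / (z - w) ^ 2

/-- what is used about a solution with one inclusion; `M` is the background field -/
structure Fld (Ω : Set ℂ) (k ρ : ℝ) (c : ℂ) (r : ℝ) (μ : ℂ) (G M : ℂ → ℂ) : Prop where
  hol : DifferentiableOn ℂ M Ω
  out : ∀ᵐ z ∂volume.restrict (Ω \ Kp c r μ), conj (G z) = M z + Ct Ω k (Dp c r μ 1) G z / (2 * π)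
  id : ∀ (N : Set ℂ) (A : ℂ → ℂ), IsOpen N → Kp c r μ ⊆ N → DifferentiableOn ℂ A N →
    ((k + 1 : ℝ) : ℂ) / 2 * ∫ z in Dp c r μ 1, G z * A z =
      (∫ z in Dp c r μ 1, conj (M z) * A z) + RR c r μ ((k - 1) / (k + 1)) A M ρ
  zero : (∀ z ∈ Dp c r μ 1, M z = 0) → ∀ᵐ z ∂volume.restrict (Dp c r μ 1), G z = 0
  mom : (∀ (N : Set ℂ) (A : ℂ → ℂ), IsOpen N → Kp c r μ ⊆ N → DifferentiableOn ℂ A N →
    ∫ z in Dp c r μ 1, G z * A z = 0) → ∀ᵐ z ∂volume.restrict (Dp c r μ 1), G z = 0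

end EX1
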