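import Pool.Agent.H1.EW.Ga

/-!
ROW EX/Xg. Behaviour under `z = c₀ + s w`, `s > 0`: `vv c r μ (c₀ + s w) = vv ((c - c₀)/s) (r/s) μ w` (direct), change of variables in the plane (`s²`: `MeasureTheory.Measure.addHaar` scaling or
`integral_comp_smul`-type lemma in dimension 2, indicator functions), `fc c r μ (A) ρ n = s * fc ((c-c₀)/s) (r/s) μ (A ∘ (c₀ + s ·)) ρ n` (directly from the definition), `rt l μ (s A) (s M) n = s² rt l μ A M n`, `tsum_mul_left`.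
-/

set_option autoImplicit false

namespace EX1

open Complex Set Filter Topology MeasureTheory EW1
open scoped ComplexConjugate ContDiff Real

theorem vv_aff (c₀ c : ℂ) (r : ℝ) (μ : ℂ) {s : ℝ} (hs : 0 < s) (w : ℂ) :
    vv c r μ (c₀ + s * w) = vv ((c - c₀) / s) (r / s) μ w := by
  have hs0 : (s : ℂ) ≠ 0 := by
    rw [Ne, Complex.ofReal_eq_zero]
    exact hs.ne'
  have h1 : ((r / s * (1 - ‖μ‖ ^ 2) : ℝ) : ℂ) = ((r * (1 - ‖μ‖ ^ 2) : ℝ) : ℂ) / (s : ℂ) := by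
    rw [← Complex.ofReal_div]
    congr 1
    ring
  have h2 : w - (c - c₀) / s = (c₀ + s * w - c) / s := by
    field_simp
    ring
  unfold vv
  rw [h1, div_div_eq_mul_div, h2, map_div₀, Complex.conj_ofReal]
  congr 1
  field_simp

private theorem Xg_mem (c₀ c : ℂ) (r : ℝ) (μ : ℂ) {s : ℝ} (hs : 0 < s) (w : ℂ) :
    c₀ + s • w ∈ Dp c r μ 1 ↔ w ∈ Dp ((c - c₀) / s) (r / s) μ 1 := by
  show ‖vv c r μ (c₀ + s • w)‖ < 1 ↔ ‖vv ((c - c₀) / s) (r / s) μ w‖ < 1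
  rw [Complex.real_smul, vv_aff c₀ c r μ hs w]

theorem int_aff (c₀ c : ℂ) (r : ℝ) (μ : ℂ) {s : ℝ} (hs : 0 < s) (f : ℂ → ℂ) :
    ∫ z in Dp c r μ 1, f z = (s : ℂ) ^ 2 * ∫ w in Dp ((c - c₀) / s) (r / s) μ 1, f (c₀ + s * w) := by
  have hm1 : MeasurableSet (Dp c r μ 1) := (Dp_open c r μ 1).measurableSet
  have hm2 : MeasurableSet (Dp ((c - c₀) / s) (r / s) μ 1) := (Dp_open _ _ μ 1).measurableSet
  rw [← integral_indicator hm1, ← integral_indicator hm2]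
  have h1 : ∀ w : ℂ, (Dp ((c - c₀) / s) (r / s) μ 1).indicator (fun w => f (c₀ + s * w)) w =
      (fun z => (Dp c r μ 1).indicator f (c₀ + z)) (s • w) := by
    intro w
    by_cases hw : w ∈ Dp ((c - c₀) / s) (r / s) μ 1
    · have hw' : c₀ + s • w ∈ Dp c r μ 1 := (Xg_mem c₀ c r μ hs w).2 hw
      show _ = (Dp c r μ 1).indicator f (c₀ + s • w)
      rw [Set.indicator_of_mem hw, Set.indicator_of_mem hw', Complex.real_smul]
    · have hw' : c₀ + s • w ∉ Dp c r μ 1 := fun h => hw ((Xg_mem c₀ c r μ hs w).1 h)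
      show _ = (Dp c r μ 1).indicator f (c₀ + s • w)
      rw [Set.indicator_of_notMem hw, Set.indicator_of_notMem hw']
  have h2 := MeasureTheory.Measure.integral_comp_smul (volume : Measure ℂ) (fun z => (Dp c r μ 1).indicator f (c₀ + z)) s
  rw [integral_congr_ae (Filter.Eventually.of_forall h1), h2,
    integral_add_left_eq_self (fun z => (Dp c r μ 1).indicator f z) c₀]
  rw [Complex.finrank_real_complex, abs_of_pos (inv_pos.2 (pow_pos hs 2)), Complex.real_smul, ← mul_assoc]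
  have hs0 : (s : ℂ) ≠ 0 := by
    rw [Ne, Complex.ofReal_eq_zero]
    exact hs.ne'
  push_cast
  rw [mul_inv_cancel₀ (pow_ne_zero 2 hs0), one_mul]

private theorem Xg_fc (c₀ c : ℂ) (r : ℝ) (μ : ℂ) {s : ℝ} (hs : 0 < s) (A : ℂ → ℂ) (ρ : ℝ) (n : ℕ) :
    fc c r μ A ρ n = s * fc ((c - c₀) / s) (r / s) μ (fun w => A (c₀ + s * w)) ρ n := by
  have hs0 : (s : ℂ) ≠ 0 := by
    rw [Ne, Complex.ofReal_eq_zero]
    exact hs.ne'
  unfold fc
  rw [← mul_div_assoc, ← intervalIntegral.integral_const_mul]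
  congr 1
  apply intervalIntegral.integral_congr
  intro t _
  show A (c + r * (ρ * exp (t * I) + μ * (ρ * exp (t * I))⁻¹)) *
      (r * (ρ * exp (t * I) - μ * (ρ * exp (t * I))⁻¹)) * (ρ * exp (t * I))⁻¹ ^ n =
    s * (A (c₀ + s * ((c - c₀) / s + ((r / s : ℝ) : ℂ) * (ρ * exp (t * I) + μ * (ρ * exp (t * I))⁻¹))) *
      (((r / s : ℝ) : ℂ) * (ρ * exp (t * I) - μ * (ρ * exp (t * I))⁻¹)) * (ρ * exp (t * I))⁻¹ ^ n)
  have h1 : c₀ + s * ((c - c₀) / s + ((r / s : ℝ) : ℂ) * (ρ * exp (t * I) + μ * (ρ * exp (t * I))⁻¹)) =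
      c + r * (ρ * exp (t * I) + μ * (ρ * exp (t * I))⁻¹) := by
    rw [Complex.ofReal_div]
    generalize (ρ * exp (t * I) + μ * (ρ * exp (t * I))⁻¹) = q
    field_simp
    ring
  rw [h1, Complex.ofReal_div]
  generalize A (c + r * (ρ * exp (t * I) + μ * (ρ * exp (t * I))⁻¹)) = a
  generalize (ρ * exp (t * I) - μ * (ρ * exp (t * I))⁻¹) = q
  generalize (ρ * exp (t * I))⁻¹ ^ n = p
  field_simp

private theorem Xg_rt (l : ℝ) (μ A M : ℂ) (s : ℝ) (n : ℕ) :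
    rt l μ (s * A) (s * M) n = (s : ℂ) ^ 2 * rt l μ A M n := by
  unfold rt
  rw [map_mul, Complex.conj_ofReal]
  ring

theorem RR_aff (c₀ c : ℂ) (r : ℝ) (μ : ℂ) {s : ℝ} (hs : 0 < s) (l : ℝ) (A M : ℂ → ℂ) (ρ : ℝ) :
    RR c r μ l A M ρ = (s : ℂ) ^ 2 * RR ((c - c₀) / s) (r / s) μ l (fun w => A (c₀ + s * w)) (fun w => M (c₀ + s * w)) ρ := by
  have h1 : ∀ n : ℕ, rt l μ (fc c r μ A ρ (n + 1)) (fc c r μ M ρ (n + 1)) (n + 1) =
      (s : ℂ) ^ 2 * rt l μ (fc ((c - c₀) / s) (r / s) μ (fun w => A (c₀ + s * w)) ρ (n + 1))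
        (fc ((c - c₀) / s) (r / s) μ (fun w => M (c₀ + s * w)) ρ (n + 1)) (n + 1) := by
    intro n
    rw [Xg_fc c₀ c r μ hs A ρ (n + 1), Xg_fc c₀ c r μ hs M ρ (n + 1), Xg_rt]
  unfold RR
  rw [tsum_congr h1, tsum_mul_left, mul_left_comm]

end EX1
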