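import Pool.Agent.H1.EW.Gm
import Pool.Agent.H1.EW.Gn

/-!
ROW EX/Xh. `F3` (`EW/Gm.lean`) without the hypothesis `μ₁ ≠ 0`. If `μ₁ = 0`: apply `F3` (with `μ₀' = (1 + μ₀)/2`, `σ' = (1+σ)/2`, and `R + 1` etc. if convenient) to the parameters `c₁ r₁ ε` with `ε = 1/(n+2) → 0`, `ε ≠ 0`. `N` contains the closed ellipse `{‖vv c₁ r₁ ε z‖ ≤ 1}` for small `ε` (compactness;
`vv c₁ r₁ ε z → vv c₁ r₁ 0 z` uniformly on bounded sets), `z ∈ Dp c₁ r₁ ε σ'` for `z ∈ Dp c₁ r₁ 0 σ` and small `ε`, `dd` and `NN` are continuous: `NN c₁ r₁ ε c₂ r₂ μ₂ m → NN c₁ r₁ 0 c₂ r₂ μ₂ m` (dominated convergence: all sets are in a fixed compact subset `K'` of `N`, `m` is bounded there,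
the integrand converges for every `z` not on the circle `‖z - c₁‖ = r₁` (null set), `QQ` is continuous in the parameters). `dd > 0` for small `ε`.
-/

set_option autoImplicit false

namespace EX1

open Complex Set Filter Topology MeasureTheory EW1
open scoped ComplexConjugate ContDiff Real

private theorem Xh_vv0 (c : ℂ) (r : ℝ) (z : ℂ) : vv c r 0 z = (z - c) / (r : ℂ) := by
  unfold vv
  simp

private theorem Xh_norm0 {c : ℂ} {r : ℝ} (hr : 0 < r) (z : ℂ) : ‖vv c r 0 z‖ = ‖z - c‖ / r := by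
  rw [Xh_vv0, norm_div, Complex.norm_real, Real.norm_of_nonneg hr.le]

/-- the sequence of eccentricities -/
private noncomputable def ep (n : ℕ) : ℂ := ((1 / ((n : ℝ) + 2) : ℝ) : ℂ)

private theorem ep_norm (n : ℕ) : ‖ep n‖ = 1 / ((n : ℝ) + 2) := by
  unfold ep
  rw [Complex.norm_real, Real.norm_of_nonneg (by positivity)]

private theorem ep_ne (n : ℕ) : ep n ≠ 0 := by
  rw [← norm_ne_zero_iff, ep_norm]
  positivity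

private theorem ep_le (n : ℕ) : ‖ep n‖ ≤ 1 / 2 := by
  rw [ep_norm]
  apply one_div_le_one_div_of_le (by norm_num)
  have : (0 : ℝ) ≤ n := Nat.cast_nonneg n
  linarith

private theorem ep_lim : Tendsto ep atTop (𝓝 0) := by
  rw [tendsto_zero_iff_norm_tendsto_zero]
  simp only [ep_norm]
  have h1 : Tendsto (fun n : ℕ => (n : ℝ) + 2) atTop atTop :=
    tendsto_atTop_add_const_right _ _ tendsto_natCast_atTop_atTop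
  simp only [one_div]
  exact h1.inv_tendsto_atTop

private theorem Xh_vvlim {c : ℂ} {r : ℝ} (hr : 0 < r) (z : ℂ) :
    Tendsto (fun n => ‖vv c r (ep n) z‖) atTop (𝓝 ‖vv c r 0 z‖) := by
  have hc : ContinuousAt (fun μ : ℂ => ‖vv c r μ z‖) 0 := by
    unfold vv
    refine ContinuousAt.norm (ContinuousAt.div ?_ ?_ ?_)
    · fun_prop
    · fun_prop
    · simp [hr.ne']
  exact hc.tendsto.comp ep_lim

/-- points of the closed ellipse -/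
private theorem Xh_ball {c : ℂ} {r : ℝ} (hr : 0 < r) (n : ℕ) {z : ℂ} (hz : ‖vv c r (ep n) z‖ ≤ 1) :
    ‖z - c‖ ≤ r + r * (1 / ((n : ℝ) + 2)) := by
  have hμ : ‖ep n‖ < 1 := (ep_le n).trans_lt (by norm_num)
  have h2 := zz_vv (c := c) hr hμ z
  rw [← h2]
  unfold zz
  set v := vv c r (ep n) z with hv
  rw [add_sub_cancel_left, norm_mul, Complex.norm_real, Real.norm_of_nonneg hr.le]
  have h3 : ‖v + ep n * conj v‖ ≤ 1 + 1 / ((n : ℝ) + 2) := by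
    calc ‖v + ep n * conj v‖ ≤ ‖v‖ + ‖ep n * conj v‖ := norm_add_le _ _
      _ = ‖v‖ + 1 / ((n : ℝ) + 2) * ‖v‖ := by rw [norm_mul, RCLike.norm_conj, ep_norm]
      _ ≤ 1 + 1 / ((n : ℝ) + 2) * 1 := by gcongr
      _ = 1 + 1 / ((n : ℝ) + 2) := by ring
  calc r * ‖v + ep n * conj v‖ ≤ r * (1 + 1 / ((n : ℝ) + 2)) := mul_le_mul_of_nonneg_left h3 hr.le
    _ = r + r * (1 / ((n : ℝ) + 2)) := by ring

private theorem Xh_ep_lim' {r : ℝ} : Tendsto (fun n : ℕ => r * (1 / ((n : ℝ) + 2))) atTop (𝓝 0) := by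
  have h : Tendsto (fun n => r * ‖ep n‖) atTop (𝓝 (r * 0)) :=
    Tendsto.const_mul r (tendsto_zero_iff_norm_tendsto_zero.1 ep_lim)
  rw [mul_zero] at h
  simpa only [ep_norm] using h

private theorem Xh_dd {c₁ : ℂ} {r₁ : ℝ} {c₂ : ℂ} {r₂ : ℝ} {μ₂ : ℂ} :
    Tendsto (fun n => dd c₁ r₁ (ep n) c₂ r₂ μ₂) atTop (𝓝 (dd c₁ r₁ 0 c₂ r₂ μ₂)) := by
  unfold dd
  exact tendsto_const_nhds.add ((ep_lim.sub_const μ₂).norm)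

/-- convergence of the quadratic polynomials -/
private theorem Xh_QQ {r₀ R μ₀ C : ℝ} (hr₀ : 0 < r₀) (h1 : μ₀ < 1) (hμ : 1 / 2 ≤ μ₀)
    (hC : ∀ (c₁ : ℂ) (r₁ : ℝ) (μ₁ c₂ : ℂ) (r₂ : ℝ) (μ₂ : ℂ), PS r₀ R μ₀ c₁ r₁ μ₁ → PS r₀ R μ₀ c₂ r₂ μ₂ →
      ∀ z : ℂ, ‖z‖ ≤ 3 * R → ‖aa c₁ r₁ μ₁ c₂ r₂ μ₂ z‖ ≤ C * dd c₁ r₁ μ₁ c₂ r₂ μ₂)
    {c : ℂ} {r : ℝ} (p0 : PS r₀ R μ₀ c r 0) {z : ℂ} (hz : ‖z‖ ≤ 3 * R) :
    Tendsto (fun n => QQ c r (ep n) z) atTop (𝓝 (QQ c r 0 z)) := by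
  have pn : ∀ n, PS r₀ R μ₀ c r (ep n) := fun n => ⟨p0.1, p0.2.1, p0.2.2.1, (ep_le n).trans hμ⟩
  rw [tendsto_iff_dist_tendsto_zero]
  have hb : Tendsto (fun n => C * ‖ep n‖) atTop (𝓝 0) := by
    have h : Tendsto (fun n => C * ‖ep n‖) atTop (𝓝 (C * 0)) :=
      Tendsto.const_mul C (tendsto_zero_iff_norm_tendsto_zero.1 ep_lim)
    rwa [mul_zero] at h
  refine squeeze_zero (fun n => dist_nonneg) (fun n => ?_) hb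
  have h2 := Gm_hU hr₀ h1 hC p0 (pn n) z hz
  rw [Real.dist_eq]
  refine h2.trans (le_of_eq ?_)
  unfold dd
  simp

private theorem Xh_NN {r₀ R μ₀ : ℝ} (hr₀ : 0 < r₀) (hR : r₀ ≤ R) (h0 : 0 ≤ μ₀) (h1 : μ₀ < 1) (hμ : 1 / 2 ≤ μ₀)
    {c₁ : ℂ} {r₁ : ℝ} {c₂ : ℂ} {r₂ : ℝ} {μ₂ : ℂ} (p0 : PS r₀ R μ₀ c₁ r₁ 0) (p2 : PS r₀ R μ₀ c₂ r₂ μ₂)
    {N K : Set ℂ} {m : ℂ → ℂ} (hK : IsCompact K) (hKN : K ⊆ N)
    (hN2 : {z | ‖vv c₂ r₂ μ₂ z‖ ≤ 1} ⊆ K)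
    (hNn : ∀ᶠ n in atTop, {z | ‖vv c₁ r₁ (ep n) z‖ ≤ 1} ⊆ K) (hm : ContinuousOn m N) :
    Tendsto (fun n => NN c₁ r₁ (ep n) c₂ r₂ μ₂ m) atTop (𝓝 (NN c₁ r₁ 0 c₂ r₂ μ₂ m)) := by
  obtain ⟨Ca, hCa, haa⟩ := aa_le hr₀ hR h0 h1
  have pn : ∀ n, PS r₀ R μ₀ c₁ r₁ (ep n) := fun n => ⟨p0.1, p0.2.1, p0.2.2.1, (ep_le n).trans hμ⟩
  have hr₁ : 0 < r₁ := hr₀.trans_le p0.2.1
  have hr₂ : 0 < r₂ := hr₀.trans_le p2.2.1
  obtain ⟨B, hB⟩ := hK.exists_bound_of_continuousOn (hm.mono hKN)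
  have hmeas : ∀ μ : ℂ, MeasurableSet ((Dp c₁ r₁ μ 1 \ Dp c₂ r₂ μ₂ 1) ∪ (Dp c₂ r₂ μ₂ 1 \ Dp c₁ r₁ μ 1)) := fun μ =>
    ((Dp_open _ _ _ _).measurableSet.diff (Dp_open _ _ _ _).measurableSet).union
      ((Dp_open _ _ _ _).measurableSet.diff (Dp_open _ _ _ _).measurableSet)
  have hrew : ∀ μ : ℂ, NN c₁ r₁ μ c₂ r₂ μ₂ m = ∫ z, ((Dp c₁ r₁ μ 1 \ Dp c₂ r₂ μ₂ 1) ∪ (Dp c₂ r₂ μ₂ 1 \ Dp c₁ r₁ μ 1)).indicator
      (fun z => |QQ c₂ r₂ μ₂ z - QQ c₁ r₁ μ z| * ‖m z‖ ^ 2) z := fun μ => by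
    rw [integral_indicator (hmeas μ)]
    rfl
  simp only [hrew]
  have hsub : ∀ μ : ℂ, {z | ‖vv c₁ r₁ μ z‖ ≤ 1} ⊆ K →
      ((Dp c₁ r₁ μ 1 \ Dp c₂ r₂ μ₂ 1) ∪ (Dp c₂ r₂ μ₂ 1 \ Dp c₁ r₁ μ 1)) ⊆ K := by
    rintro μ h z (hz | hz)
    · exact h (le_of_lt (show ‖vv c₁ r₁ μ z‖ < 1 from hz.1))
    · exact hN2 (le_of_lt (show ‖vv c₂ r₂ μ₂ z‖ < 1 from hz.1))
  have h3R : ∀ μ : ℂ, PS r₀ R μ₀ c₁ r₁ μ → ∀ z ∈ ((Dp c₁ r₁ μ 1 \ Dp c₂ r₂ μ₂ 1) ∪ (Dp c₂ r₂ μ₂ 1 \ Dp c₁ r₁ μ 1)),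
      ‖z‖ ≤ 3 * R := by
    rintro μ p z (hz | hz)
    · exact Dp_sub hr₀ h1 p (le_of_lt (show ‖vv c₁ r₁ μ z‖ < 1 from hz.1))
    · exact Dp_sub hr₀ h1 p2 (le_of_lt (show ‖vv c₂ r₂ μ₂ z‖ < 1 from hz.1))
  refine tendsto_integral_filter_of_dominated_convergence
    (K.indicator (fun _ => Ca * (3 * R + 2) * B ^ 2)) ?_ ?_ ?_ ?_
  · filter_upwards [hNn] with n hn
    rw [aestronglyMeasurable_indicator_iff (hmeas _)]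
    refine ContinuousOn.aestronglyMeasurable ?_ (hmeas _)
    exact ((((QQ_contDiff c₂ r₂ μ₂).continuous.sub (QQ_contDiff c₁ r₁ (ep n)).continuous).abs.continuousOn).mul
      (hm.norm.pow 2)).mono ((hsub _ hn).trans hKN)
  · filter_upwards [hNn] with n hn
    refine ae_of_all _ fun z => ?_
    by_cases hz : z ∈ ((Dp c₁ r₁ (ep n) 1 \ Dp c₂ r₂ μ₂ 1) ∪ (Dp c₂ r₂ μ₂ 1 \ Dp c₁ r₁ (ep n) 1))
    · have hzK : z ∈ K := hsub _ hn hz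
      rw [indicator_of_mem hz, indicator_of_mem hzK, Real.norm_of_nonneg (by positivity)]
      have h2 := Gm_hU hr₀ h1 haa (pn n) p2 z (h3R _ (pn n) z hz)
      have h3 := Gs_dd_le hr₀ h1 (pn n) p2
      have h4 : ‖m z‖ ^ 2 ≤ B ^ 2 := pow_le_pow_left₀ (norm_nonneg _) (hB z hzK) 2
      have h5 : |QQ c₂ r₂ μ₂ z - QQ c₁ r₁ (ep n) z| ≤ Ca * (3 * R + 2) :=
        h2.trans (mul_le_mul_of_nonneg_left h3 hCa.le)
      exact mul_le_mul h5 h4 (by positivity) ((abs_nonneg _).trans h5)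
    · rw [indicator_of_notMem hz, norm_zero]
      refine indicator_nonneg (fun w hw => ?_) z
      have hRp : 0 < R := hr₀.trans_le hR
      positivity
  · rw [integrable_indicator_iff hK.measurableSet]
    exact integrableOn_const hK.measure_lt_top.ne
  · have hnull : ∀ᵐ z : ℂ, z ∉ Metric.sphere c₁ r₁ := by
      rw [← measure_eq_zero_iff_ae_notMem]
      exact Measure.addHaar_sphere _ _ _
    filter_upwards [hnull] with z hz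
    have hlim := Xh_vvlim (c := c₁) hr₁ z
    have hev : ∀ᶠ n in atTop, (z ∈ Dp c₁ r₁ (ep n) 1 ↔ z ∈ Dp c₁ r₁ 0 1) := by
      rcases lt_trichotomy ‖vv c₁ r₁ 0 z‖ 1 with h | h | h
      · filter_upwards [hlim.eventually_lt_const h] with n hn
        exact ⟨fun _ => h, fun _ => hn⟩
      · exfalso
        rw [Xh_norm0 hr₁, div_eq_one_iff_eq hr₁.ne'] at h
        exact hz (mem_sphere_iff_norm.2 h)
      · filter_upwards [hlim.eventually_const_lt h] with n hn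
        exact ⟨fun h' => absurd (show ‖vv c₁ r₁ (ep n) z‖ < 1 from h') (not_lt.2 hn.le),
          fun h' => absurd (show ‖vv c₁ r₁ 0 z‖ < 1 from h') (not_lt.2 h.le)⟩
    by_cases hzE : z ∈ ((Dp c₁ r₁ 0 1 \ Dp c₂ r₂ μ₂ 1) ∪ (Dp c₂ r₂ μ₂ 1 \ Dp c₁ r₁ 0 1))
    · rw [indicator_of_mem hzE]
      have hq := Xh_QQ hr₀ h1 hμ haa p0 (h3R _ p0 z hzE)
      have hlim2 : Tendsto (fun n => |QQ c₂ r₂ μ₂ z - QQ c₁ r₁ (ep n) z| * ‖m z‖ ^ 2) atTop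
          (𝓝 (|QQ c₂ r₂ μ₂ z - QQ c₁ r₁ 0 z| * ‖m z‖ ^ 2)) :=
        ((hq.const_sub _).abs).mul_const _
      refine hlim2.congr' ?_
      filter_upwards [hev] with n hn
      rw [indicator_of_mem]
      rcases hzE with h | h
      · exact Or.inl ⟨hn.2 h.1, h.2⟩
      · exact Or.inr ⟨h.1, fun h' => h.2 (hn.1 h')⟩
    · rw [indicator_of_notMem hzE]
      refine tendsto_const_nhds.congr' ?_
      filter_upwards [hev] with n hn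
      rw [indicator_of_notMem]
      rintro (h | h)
      · exact hzE (Or.inl ⟨hn.1 h.1, h.2⟩)
      · exact hzE (Or.inr ⟨h.1, fun h' => h.2 (hn.2 h')⟩)

theorem F3n {r₀ R μ₀ σ : ℝ} (hr₀ : 0 < r₀) (hR : r₀ ≤ R) (h0 : 0 ≤ μ₀) (h1 : μ₀ < 1) (hσ : 0 < σ) (hσ1 : σ < 1) :
    ∃ C : ℝ, 0 < C ∧ ∀ (c₁ : ℂ) (r₁ : ℝ) (μ₁ c₂ : ℂ) (r₂ : ℝ) (μ₂ : ℂ), PS r₀ R μ₀ c₁ r₁ μ₁ → PS r₀ R μ₀ c₂ r₂ μ₂ →
      0 < dd c₁ r₁ μ₁ c₂ r₂ μ₂ →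
      ∀ (N : Set ℂ) (m : ℂ → ℂ), IsOpen N → {z | ‖vv c₁ r₁ μ₁ z‖ ≤ 1} ⊆ N → {z | ‖vv c₂ r₂ μ₂ z‖ ≤ 1} ⊆ N →
      DifferentiableOn ℂ m N → ∀ z ∈ Dp c₁ r₁ μ₁ σ,
        dd c₁ r₁ μ₁ c₂ r₂ μ₂ * ‖m z‖ ≤ C * Real.sqrt (NN c₁ r₁ μ₁ c₂ r₂ μ₂ m) := by
  obtain ⟨C, hC, hF⟩ := F3 (r₀ := r₀) (R := R) (μ₀ := (1 + μ₀) / 2) (σ := (1 + σ) / 2) hr₀ hR (by linarith) (by linarith)
    (by linarith) (by linarith)
  refine ⟨C, hC, ?_⟩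
  intro c₁ r₁ μ₁ c₂ r₂ μ₂ p1 p2 hδ N m hN hN1 hN2 hm z hz
  have p1' : PS r₀ R ((1 + μ₀) / 2) c₁ r₁ μ₁ := ⟨p1.1, p1.2.1, p1.2.2.1, p1.2.2.2.trans (by linarith)⟩
  have p2' : PS r₀ R ((1 + μ₀) / 2) c₂ r₂ μ₂ := ⟨p2.1, p2.2.1, p2.2.2.1, p2.2.2.2.trans (by linarith)⟩
  have hr₁ : 0 < r₁ := hr₀.trans_le p1.2.1
  have hr₂ : 0 < r₂ := hr₀.trans_le p2.2.1
  by_cases hμ : μ₁ ≠ 0
  · exact hF c₁ r₁ μ₁ c₂ r₂ μ₂ p1' p2' hδ hμ N m hN hN1 hN2 hm z (Dp_mono _ _ _ (by linarith) hz)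
  · rw [not_not] at hμ
    subst hμ
    have hball : Metric.closedBall c₁ r₁ ⊆ N := by
      intro w hw
      apply hN1
      show ‖vv c₁ r₁ 0 w‖ ≤ 1
      rw [Xh_norm0 hr₁, div_le_one hr₁]
      exact mem_closedBall_iff_norm.1 hw
    obtain ⟨δ, hδ0, hδN⟩ := (isCompact_closedBall c₁ r₁).exists_cthickening_subset_open hN hball
    have hcl : Metric.closedBall c₁ (r₁ + δ) ⊆ N := by
      rw [add_comm, ← cthickening_closedBall hδ0.le hr₁.le c₁]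
      exact hδN
    have hev1 : ∀ᶠ n : ℕ in atTop, r₁ * (1 / ((n : ℝ) + 2)) < δ := Xh_ep_lim'.eventually_lt_const hδ0
    have hNn' : ∀ᶠ n in atTop, {z | ‖vv c₁ r₁ (ep n) z‖ ≤ 1} ⊆ Metric.closedBall c₁ (r₁ + δ) := by
      filter_upwards [hev1] with n hn
      intro w hw
      rw [mem_closedBall_iff_norm]
      exact (Xh_ball hr₁ n hw).trans (by linarith)
    have hKc : IsCompact (Metric.closedBall c₁ (r₁ + δ) ∪ {z | ‖vv c₂ r₂ μ₂ z‖ ≤ 1}) :=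
      (isCompact_closedBall _ _).union (cDp_compact hr₂ (p2.2.2.2.trans_lt h1) 1)
    have hNlim := Xh_NN (r₀ := r₀) (R := R) (μ₀ := (1 + μ₀) / 2) hr₀ hR (by linarith) (by linarith) (by linarith)
      p1' p2' hKc (union_subset hcl hN2) subset_union_right
      (hNn'.mono fun n hn => hn.trans subset_union_left) hm.continuousOn
    have hlhs : Tendsto (fun n => dd c₁ r₁ (ep n) c₂ r₂ μ₂ * ‖m z‖) atTop
        (𝓝 (dd c₁ r₁ 0 c₂ r₂ μ₂ * ‖m z‖)) := Xh_dd.mul_const _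
    have hrhs : Tendsto (fun n => C * Real.sqrt (NN c₁ r₁ (ep n) c₂ r₂ μ₂ m)) atTop
        (𝓝 (C * Real.sqrt (NN c₁ r₁ 0 c₂ r₂ μ₂ m))) := hNlim.sqrt.const_mul C
    refine le_of_tendsto_of_tendsto hlhs hrhs ?_
    have hz' : ‖vv c₁ r₁ 0 z‖ < (1 + σ) / 2 := by
      have : ‖vv c₁ r₁ 0 z‖ < σ := hz
      linarith
    filter_upwards [hNn', Xh_dd.eventually_const_lt hδ, (Xh_vvlim (c := c₁) hr₁ z).eventually_lt_const hz'] with n hn1 hn2 hn3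
    exact hF c₁ r₁ (ep n) c₂ r₂ μ₂ ⟨p1.1, p1.2.1, p1.2.2.1, (ep_le n).trans (by linarith)⟩ p2' hn2 (ep_ne n) N m hN
      (hn1.trans hcl) hN2 hm z hn3

end EX1
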