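import Pool.Agent.H1.EW.T
import Pool.Agent.H1.EX.D
import Pool.Agent.H1.EX.Xg
import Pool.Agent.H1.EX.Xh
import Pool.Agent.H1.EY.Yb
import Pool.Agent.H1.EY.Yc
import Pool.Agent.H1.EY.Zi

/-!
# EX: the analytic core: two ellipses (disks included) with bounded axis ratio, of any size
-/

set_option autoImplicit false

namespace EX1

open Complex Set Filter Topology MeasureTheory EW1 EY1
open scoped ComplexConjugate ContDiff Real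

theorem core_n {r₀ R μ₀ ρ : ℝ} (hr₀ : 0 < r₀) (hR : r₀ ≤ R) (h0 : 0 ≤ μ₀) (h1 : μ₀ < ρ ^ 2) (hρ : 0 < ρ) (hρ1 : ρ < 1) :
    ∃ ε : ℝ, 0 < ε ∧ ∀ (c₁ : ℂ) (r₁ : ℝ) (μ₁ c₂ : ℂ) (r₂ : ℝ) (μ₂ : ℂ), PS r₀ R μ₀ c₁ r₁ μ₁ → PS r₀ R μ₀ c₂ r₂ μ₂ →
      0 < dd c₁ r₁ μ₁ c₂ r₂ μ₂ → ∀ l : ℝ, |l| < ε →
      ∀ (N : Set ℂ) (m : ℂ → ℂ), IsOpen N → {z | ‖vv c₁ r₁ μ₁ z‖ ≤ 1} ⊆ N → {z | ‖vv c₂ r₂ μ₂ z‖ ≤ 1} ⊆ N →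
      DifferentiableOn ℂ m N →
      Idn c₁ r₁ μ₁ c₂ r₂ μ₂ l ρ (fun z => aa c₁ r₁ μ₁ c₂ r₂ μ₂ z * m z) m →
      ∀ z ∈ Dp c₁ r₁ μ₁ 1, m z = 0 := by
  have hμ1 : μ₀ < 1 := h1.trans (by nlinarith)
  set σ₀ : ℝ := (ρ ^ 2 + μ₀) / (ρ * (1 + μ₀)) with hσ₀
  have hden : 0 < ρ * (1 + μ₀) := by positivity
  have hσ₀1 : σ₀ < 1 := by
    rw [hσ₀, div_lt_one hden]
    nlinarith [mul_pos (sub_pos.2 hρ1) (show 0 < ρ - μ₀ by nlinarith)]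
  have hσ₀0 : 0 < σ₀ := by rw [hσ₀]; positivity
  set σ : ℝ := (σ₀ + 1) / 2 with hσ
  have hσ1 : σ < 1 := by rw [hσ]; linarith
  have hσ0 : 0 < σ := by rw [hσ]; linarith
  have hσσ : σ₀ < σ := by rw [hσ]; linarith
  obtain ⟨Ca, hCa, haa⟩ := aa_le hr₀ hR h0 hμ1
  obtain ⟨C3, hC3, h3⟩ := F3n hr₀ hR h0 hμ1 hσ0 hσ1
  obtain ⟨Cr, hCr, hr⟩ := RR_le (R := R) hr₀ h0 h1 hρ hρ1 hσσ
  obtain ⟨Cl, δ₁, hCl, hδ₁, hl⟩ := RR_lip hr₀ hR h0 h1 hρ hρ1 hσσ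
  set K : ℝ := Cl * Ca * C3 ^ 2 + 2 * (Cr * Ca * C3 ^ 2) / δ₁ with hK
  have hKp : 0 < K := by rw [hK]; positivity
  refine ⟨min (1 / 2) (1 / (2 * K)), by positivity, ?_⟩
  intro c₁ r₁ μ₁ c₂ r₂ μ₂ hp₁ hp₂ hd l hlε N m hN hN₁ hN₂ hm hid
  have hl2 : l ^ 2 ≤ 1 / 4 := by
    have : |l| ≤ 1 / 2 := (hlε.trans_le (min_le_left _ _)).le
    rw [← sq_abs]
    nlinarith [abs_nonneg l]
  have hlK : |l| * K < 1 := by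
    have : |l| < 1 / (2 * K) := hlε.trans_le (min_le_right _ _)
    rw [lt_div_iff₀ (by positivity)] at this
    linarith
  have hr₁ : 0 < r₁ := hr₀.trans_le hp₁.2.1
  have hr₂ : 0 < r₂ := hr₀.trans_le hp₂.2.1
  have hn₁ : ‖μ₁‖ < 1 := hp₁.2.2.2.trans_lt hμ1
  have hn₂ : ‖μ₂‖ < 1 := hp₂.2.2.2.trans_lt hμ1
  set d := dd c₁ r₁ μ₁ c₂ r₂ μ₂ with hdd
  set A : ℂ → ℂ := fun z => aa c₁ r₁ μ₁ c₂ r₂ μ₂ z * m z with hA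
  set NNv := NN c₁ r₁ μ₁ c₂ r₂ μ₂ m with hNN
  have hNN0 : 0 ≤ NNv := NN_nonneg _ _ _ _ _ _ _
  -- bounds for `m`
  have hm₁ : ∀ z ∈ Dp c₁ r₁ μ₁ σ, ‖m z‖ ≤ C3 * Real.sqrt NNv / d := fun z hz => by
    rw [le_div_iff₀ hd]
    have := h3 c₁ r₁ μ₁ c₂ r₂ μ₂ hp₁ hp₂ hd N m hN hN₁ hN₂ hm z hz
    rw [mul_comm]
    exact this
  have hm₂ : ∀ z ∈ Dp c₂ r₂ μ₂ σ, ‖m z‖ ≤ C3 * Real.sqrt NNv / d := fun z hz => by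
    rw [le_div_iff₀ hd]
    have h5 : 0 < dd c₂ r₂ μ₂ c₁ r₁ μ₁ := by rw [dd_symm]; exact hd
    have := h3 c₂ r₂ μ₂ c₁ r₁ μ₁ hp₂ hp₁ h5 N m hN hN₂ hN₁ hm z hz
    rw [dd_symm c₂, NN_symm c₂] at this
    rw [mul_comm]
    exact this
  have hball₁ : ∀ z ∈ Dp c₁ r₁ μ₁ σ, ‖z‖ ≤ 3 * R := fun z hz => by
    have h5 : ‖vv c₁ r₁ μ₁ z‖ < σ := hz
    exact Dp_sub hr₀ hμ1 hp₁ (by linarith)
  have hball₂ : ∀ z ∈ Dp c₂ r₂ μ₂ σ, ‖z‖ ≤ 3 * R := fun z hz => by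
    have h5 : ‖vv c₂ r₂ μ₂ z‖ < σ := hz
    exact Dp_sub hr₀ hμ1 hp₂ (by linarith)
  have hA₁ : ∀ z ∈ Dp c₁ r₁ μ₁ σ, ‖A z‖ ≤ Ca * (C3 * Real.sqrt NNv) := fun z hz => by
    have h5 := haa c₁ r₁ μ₁ c₂ r₂ μ₂ hp₁ hp₂ z (hball₁ z hz)
    have h6 := hm₁ z hz
    calc ‖A z‖ = ‖aa c₁ r₁ μ₁ c₂ r₂ μ₂ z‖ * ‖m z‖ := norm_mul _ _
      _ ≤ (Ca * d) * (C3 * Real.sqrt NNv / d) := mul_le_mul h5 h6 (norm_nonneg _) (by positivity)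
      _ = Ca * (C3 * Real.sqrt NNv) := by field_simp
  have hA₂ : ∀ z ∈ Dp c₂ r₂ μ₂ σ, ‖A z‖ ≤ Ca * (C3 * Real.sqrt NNv) := fun z hz => by
    have h5 := haa c₁ r₁ μ₁ c₂ r₂ μ₂ hp₁ hp₂ z (hball₂ z hz)
    have h6 := hm₂ z hz
    calc ‖A z‖ = ‖aa c₁ r₁ μ₁ c₂ r₂ μ₂ z‖ * ‖m z‖ := norm_mul _ _
      _ ≤ (Ca * d) * (C3 * Real.sqrt NNv / d) := mul_le_mul h5 h6 (norm_nonneg _) (by positivity)
      _ = Ca * (C3 * Real.sqrt NNv) := by field_simp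
  -- `NN` is at most the difference of the error forms
  have hNNle : NNv ≤ ‖RR c₁ r₁ μ₁ l A m ρ - RR c₂ r₂ μ₂ l A m ρ‖ := by
    have h5 := NN_id hr₁ hr₂ hn₁ hn₂ hN hN₁ hN₂ hm
    have h6 : (∫ z in Dp c₁ r₁ μ₁ 1, conj (m z) * (aa c₁ r₁ μ₁ c₂ r₂ μ₂ z * m z)) -
        (∫ z in Dp c₂ r₂ μ₂ 1, conj (m z) * (aa c₁ r₁ μ₁ c₂ r₂ μ₂ z * m z)) =
        -(RR c₁ r₁ μ₁ l A m ρ - RR c₂ r₂ μ₂ l A m ρ) := by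
      have h7 : (∫ z in Dp c₁ r₁ μ₁ 1, conj (m z) * A z) + RR c₁ r₁ μ₁ l A m ρ =
        (∫ z in Dp c₂ r₂ μ₂ 1, conj (m z) * A z) + RR c₂ r₂ μ₂ l A m ρ := hid
      simp only [hA] at h7 ⊢
      linear_combination h7
    rw [hNN, h5, h6]
    exact (le_abs_self _).trans ((abs_re_le_norm _).trans (by rw [norm_neg]))
  have hsq : Real.sqrt NNv * Real.sqrt NNv = NNv := Real.mul_self_sqrt hNN0
  have hle : ‖RR c₁ r₁ μ₁ l A m ρ - RR c₂ r₂ μ₂ l A m ρ‖ ≤ |l| * K * NNv := by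
    rcases le_or_gt d δ₁ with hδ | hδ
    · have hAd : DifferentiableOn ℂ A (Dp c₁ r₁ μ₁ σ) := by
        have h7 : Dp c₁ r₁ μ₁ σ ⊆ N := fun z hz => hN₁ (le_of_lt (lt_trans hz hσ1))
        refine DifferentiableOn.mul ?_ (hm.mono h7)
        unfold aa
        fun_prop
      have hmd : DifferentiableOn ℂ m (Dp c₁ r₁ μ₁ σ) := hm.mono fun z hz => hN₁ (le_of_lt (lt_trans hz hσ1))
      have h7 := hl c₁ r₁ μ₁ c₂ r₂ μ₂ hp₁ hp₂ hδ l hl2 A m (Ca * (C3 * Real.sqrt NNv)) (C3 * Real.sqrt NNv / d) hAd hmd hA₁ hm₁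
      refine h7.trans ?_
      have h8 : Cl * |l| * (Ca * (C3 * Real.sqrt NNv)) * (C3 * Real.sqrt NNv / d) * d = |l| * (Cl * Ca * C3 ^ 2) * NNv := by
        have h80 : C3 * Real.sqrt NNv / d * d = C3 * Real.sqrt NNv := div_mul_cancel₀ _ hd.ne'
        calc Cl * |l| * (Ca * (C3 * Real.sqrt NNv)) * (C3 * Real.sqrt NNv / d) * d
            = Cl * |l| * (Ca * (C3 * Real.sqrt NNv)) * (C3 * Real.sqrt NNv / d * d) := by ring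
          _ = |l| * (Cl * Ca * C3 ^ 2) * (Real.sqrt NNv * Real.sqrt NNv) := by rw [h80]; ring
          _ = |l| * (Cl * Ca * C3 ^ 2) * NNv := by rw [hsq]
      rw [h8]
      have h9 : Cl * Ca * C3 ^ 2 ≤ K := by
        rw [hK]
        have : 0 < 2 * (Cr * Ca * C3 ^ 2) / δ₁ := by positivity
        linarith
      gcongr
    · have h7 := (hr c₁ r₁ μ₁ hp₁ l hl2 A m (Ca * (C3 * Real.sqrt NNv)) (C3 * Real.sqrt NNv / d) hA₁ hm₁).2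
      have h8 := (hr c₂ r₂ μ₂ hp₂ l hl2 A m (Ca * (C3 * Real.sqrt NNv)) (C3 * Real.sqrt NNv / d) hA₂ hm₂).2
      have h9 : Cr * |l| * (Ca * (C3 * Real.sqrt NNv)) * (C3 * Real.sqrt NNv / d) = |l| * (Cr * Ca * C3 ^ 2 / d) * NNv := by
        calc Cr * |l| * (Ca * (C3 * Real.sqrt NNv)) * (C3 * Real.sqrt NNv / d)
            = |l| * (Cr * Ca * C3 ^ 2 / d) * (Real.sqrt NNv * Real.sqrt NNv) := by ring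
          _ = |l| * (Cr * Ca * C3 ^ 2 / d) * NNv := by rw [hsq]
      rw [h9] at h7 h8
      have h10 : Cr * Ca * C3 ^ 2 / d ≤ Cr * Ca * C3 ^ 2 / δ₁ := by gcongr
      calc ‖RR c₁ r₁ μ₁ l A m ρ - RR c₂ r₂ μ₂ l A m ρ‖ ≤ ‖RR c₁ r₁ μ₁ l A m ρ‖ + ‖RR c₂ r₂ μ₂ l A m ρ‖ := norm_sub_le _ _
        _ ≤ |l| * (Cr * Ca * C3 ^ 2 / d) * NNv + |l| * (Cr * Ca * C3 ^ 2 / d) * NNv := add_le_add h7 h8
        _ = |l| * (2 * (Cr * Ca * C3 ^ 2 / d)) * NNv := by ring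
        _ ≤ |l| * K * NNv := by
            have h11 : 2 * (Cr * Ca * C3 ^ 2 / d) ≤ K := by
              rw [hK]
              have : 0 < Cl * Ca * C3 ^ 2 := by positivity
              have h12 : 2 * (Cr * Ca * C3 ^ 2) / δ₁ = 2 * (Cr * Ca * C3 ^ 2 / δ₁) := by ring
              linarith
            gcongr
  have hz : NNv = 0 := by
    have h5 := hNNle.trans hle
    by_contra hne
    have hpos : 0 < NNv := lt_of_le_of_ne hNN0 (Ne.symm hne)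
    nlinarith
  intro z hz1
  have hz2 : ‖vv c₁ r₁ μ₁ z‖ < 1 := hz1
  obtain ⟨τ, hτ1, hτ2⟩ := exists_between hz2
  obtain ⟨C4, hC4, h4⟩ := F3n hr₀ hR h0 hμ1 ((norm_nonneg _).trans_lt hτ1) hτ2
  have h5 := h4 c₁ r₁ μ₁ c₂ r₂ μ₂ hp₁ hp₂ hd N m hN hN₁ hN₂ hm z hτ1
  rw [← hNN, hz, Real.sqrt_zero, mul_zero] at h5
  have h6 : ‖m z‖ ≤ 0 := by
    by_contra hcon
    push Not at hcon
    have : 0 < d * ‖m z‖ := mul_pos hd hcon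
    linarith
  exact norm_le_zero_iff.1 h6


/-- the bound for the error form, scale invariant -/
theorem RRs {μ₀ ρ σ : ℝ} (h0 : 0 ≤ μ₀) (h1 : μ₀ < ρ ^ 2) (hρ : 0 < ρ) (hρ1 : ρ < 1)
    (hσ : (ρ ^ 2 + μ₀) / (ρ * (1 + μ₀)) < σ) : ∃ C : ℝ, 0 < C ∧ ∀ (c : ℂ) (r : ℝ) (μ : ℂ), 0 < r → ‖μ‖ ≤ μ₀ →
      ∀ l : ℝ, l ^ 2 ≤ 1 / 4 → ∀ (A M : ℂ → ℂ) (SA SM : ℝ),
      (∀ z ∈ Dp c r μ σ, ‖A z‖ ≤ SA) → (∀ z ∈ Dp c r μ σ, ‖M z‖ ≤ SM) →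
      ‖RR c r μ l A M ρ‖ ≤ C * |l| * r ^ 2 * SA * SM := by
  obtain ⟨C, hC, h⟩ := RR_le (R := 1) (r₀ := 1) one_pos h0 h1 hρ hρ1 hσ
  refine ⟨C, hC, fun c r μ hr hμ l hl A M SA SM hA hM => ?_⟩
  have hrc : (r : ℂ) ≠ 0 := by exact_mod_cast hr.ne'
  rw [RR_aff c c r μ hr]
  have e1 : (c - c) / (r : ℂ) = 0 := by simp
  have e2 : r / r = 1 := div_self hr.ne'
  rw [e1, e2, norm_mul, norm_pow, Complex.norm_real, Real.norm_eq_abs, abs_of_pos hr]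
  have hmem : ∀ w ∈ Dp 0 1 μ σ, c + r * w ∈ Dp c r μ σ := by
    intro w hw
    show ‖vv c r μ (c + r * w)‖ < σ
    rw [vv_aff c c r μ hr, e1, e2]
    exact hw
  have h2 := (h 0 1 μ ⟨by simp, le_rfl, le_rfl, hμ⟩ l hl (fun w => A (c + r * w)) (fun w => M (c + r * w)) SA SM
    (fun w hw => hA _ (hmem w hw)) (fun w hw => hM _ (hmem w hw))).2
  calc r ^ 2 * ‖RR 0 1 μ l (fun w => A (c + r * w)) (fun w => M (c + r * w)) ρ‖ ≤ r ^ 2 * (C * |l| * SA * SM) := by gcongr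
    _ = C * |l| * r ^ 2 * SA * SM := by ring

/-- comparable sizes -/
theorem cmp_thm {μ₀ ρ η : ℝ} (h0 : 0 ≤ μ₀) (h1 : μ₀ < ρ ^ 2) (hρ : 0 < ρ) (hρ1 : ρ < 1) (hη : 0 < η) (hη1 : η ≤ 1) :
    ∃ ε : ℝ, 0 < ε ∧ ∀ (c₁ : ℂ) (r₁ : ℝ) (μ₁ c₂ : ℂ) (r₂ : ℝ) (μ₂ : ℂ), ‖μ₁‖ ≤ μ₀ → ‖μ₂‖ ≤ μ₀ → 0 < r₁ → r₂ ≤ r₁ → η * r₁ ≤ r₂ →
      ‖c₂ - c₁‖ ≤ 4 * r₁ → 0 < dd c₁ r₁ μ₁ c₂ r₂ μ₂ → ∀ l : ℝ, |l| < ε →
      ∀ (N : Set ℂ) (m : ℂ → ℂ), IsOpen N → Kp c₁ r₁ μ₁ ⊆ N → Kp c₂ r₂ μ₂ ⊆ N → DifferentiableOn ℂ m N →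
      (∀ A : ℂ → ℂ, DifferentiableOn ℂ A N → Idn c₁ r₁ μ₁ c₂ r₂ μ₂ l ρ A m) →
      ∀ z ∈ Dp c₁ r₁ μ₁ 1, m z = 0 := by
  obtain ⟨ε, hε, hcore⟩ := core_n (r₀ := η) (R := 4) hη (by linarith) h0 h1 hρ hρ1
  refine ⟨ε, hε, ?_⟩
  intro c₁ r₁ μ₁ c₂ r₂ μ₂ hμ₁ hμ₂ hr₁ hr21 hηr hcc hd l hl N m hN hN₁ hN₂ hm hid z hz
  have hrc : (r₁ : ℂ) ≠ 0 := by exact_mod_cast hr₁.ne'
  have hr₂ : 0 < r₂ := (mul_pos hη hr₁).trans_le hηr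
  have e1 : (c₁ - c₁) / (r₁ : ℂ) = 0 := by simp
  have e2 : r₁ / r₁ = 1 := div_self hr₁.ne'
  -- the transported data
  obtain ⟨c', hc'⟩ : ∃ c' : ℂ, c' = (c₂ - c₁) / r₁ := ⟨_, rfl⟩
  obtain ⟨r', hr'⟩ : ∃ r' : ℝ, r' = r₂ / r₁ := ⟨_, rfl⟩
  have hp₁ : PS η 4 μ₀ 0 1 μ₁ := ⟨by simp, hη1, by norm_num, hμ₁⟩
  have hp₂ : PS η 4 μ₀ c' r' μ₂ := by
    refine ⟨?_, ?_, ?_, hμ₂⟩
    · rw [hc', norm_div, Complex.norm_real, Real.norm_eq_abs, abs_of_pos hr₁, div_le_iff₀ hr₁]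
      exact hcc
    · rw [hr', le_div_iff₀ hr₁]
      exact hηr
    · rw [hr', div_le_iff₀ hr₁]
      linarith
  have hd' : 0 < dd 0 1 μ₁ c' r' μ₂ := by
    by_contra hcon
    have h5 : dd 0 1 μ₁ c' r' μ₂ ≤ 0 := not_lt.1 hcon
    unfold dd at h5
    have a1 := norm_nonneg (0 - c')
    have a2 := abs_nonneg (1 - r')
    have a3 := norm_nonneg (μ₁ - μ₂)
    have b1 : ‖0 - c'‖ = 0 := by linarith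
    have b2 : |1 - r'| = 0 := by linarith
    have b3 : ‖μ₁ - μ₂‖ = 0 := by linarith
    have f1 : c₂ = c₁ := by
      have h6 : c' = 0 := (sub_eq_zero.1 (norm_eq_zero.1 b1)).symm
      rw [hc', div_eq_zero_iff] at h6
      rcases h6 with h6 | h6
      · exact sub_eq_zero.1 h6
      · exact absurd h6 hrc
    have f2 : r₂ = r₁ := by
      have h6 : r' = 1 := (sub_eq_zero.1 (abs_eq_zero.1 b2)).symm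
      rw [hr', div_eq_one_iff_eq hr₁.ne'] at h6
      exact h6
    have f3 : μ₁ = μ₂ := sub_eq_zero.1 (norm_eq_zero.1 b3)
    rw [f1, f2, f3] at hd
    unfold dd at hd
    simp at hd
  have hcont : Continuous fun w : ℂ => c₁ + r₁ * w := by fun_prop
  have hdiff : Differentiable ℂ fun w : ℂ => c₁ + r₁ * w := by fun_prop
  have hv1 : ∀ w, vv c₁ r₁ μ₁ (c₁ + r₁ * w) = vv 0 1 μ₁ w := fun w => by rw [vv_aff c₁ c₁ r₁ μ₁ hr₁, e1, e2]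
  have hv2 : ∀ w, vv c₂ r₂ μ₂ (c₁ + r₁ * w) = vv c' r' μ₂ w := fun w => by rw [vv_aff c₁ c₂ r₂ μ₂ hr₁, hc', hr']
  have hN' : IsOpen ((fun w : ℂ => c₁ + r₁ * w) ⁻¹' N) := hN.preimage hcont
  have hN₁' : {w | ‖vv 0 1 μ₁ w‖ ≤ 1} ⊆ (fun w : ℂ => c₁ + r₁ * w) ⁻¹' N := by
    intro w hw
    apply hN₁
    show ‖vv c₁ r₁ μ₁ (c₁ + r₁ * w)‖ ≤ 1
    rw [hv1]
    exact hw
  have hN₂' : {w | ‖vv c' r' μ₂ w‖ ≤ 1} ⊆ (fun w : ℂ => c₁ + r₁ * w) ⁻¹' N := by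
    intro w hw
    apply hN₂
    show ‖vv c₂ r₂ μ₂ (c₁ + r₁ * w)‖ ≤ 1
    rw [hv2]
    exact hw
  have hm' : DifferentiableOn ℂ (fun w : ℂ => m (c₁ + r₁ * w)) ((fun w : ℂ => c₁ + r₁ * w) ⁻¹' N) :=
    hm.comp hdiff.differentiableOn (fun w hw => hw)
  have hid' : Idn 0 1 μ₁ c' r' μ₂ l ρ (fun w => aa 0 1 μ₁ c' r' μ₂ w * m (c₁ + r₁ * w)) (fun w => m (c₁ + r₁ * w)) := by
    have hA : DifferentiableOn ℂ (fun z => aa 0 1 μ₁ c' r' μ₂ ((z - c₁) / r₁) * m z) N := by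
      refine DifferentiableOn.mul ?_ hm
      unfold aa
      fun_prop
    have h5 := hid _ hA
    unfold Idn at h5 ⊢
    rw [int_aff c₁ c₁ r₁ μ₁ hr₁, int_aff c₁ c₂ r₂ μ₂ hr₁, RR_aff c₁ c₁ r₁ μ₁ hr₁, RR_aff c₁ c₂ r₂ μ₂ hr₁, e1, e2, ← hc', ← hr',
      ← mul_add, ← mul_add] at h5
    have h6 := mul_left_cancel₀ (pow_ne_zero 2 hrc) h5
    have e3 : ∀ w : ℂ, (c₁ + r₁ * w - c₁) / r₁ = w := fun w => by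
      rw [add_sub_cancel_left, mul_div_cancel_left₀ _ hrc]
    simp only [e3] at h6
    exact h6
  have h7 := hcore 0 1 μ₁ c' r' μ₂ hp₁ hp₂ hd' l hl _ _ hN' hN₁' hN₂' hm' hid' ((z - c₁) / r₁) (by
    show ‖vv 0 1 μ₁ ((z - c₁) / r₁)‖ < 1
    rw [← hv1, mul_div_cancel₀ _ hrc, add_sub_cancel]
    exact hz)
  simp only [mul_div_cancel₀ _ hrc, add_sub_cancel] at h7
  exact h7

end EX1
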