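import Pool.Agent.H1.EX.T4

/-!
# EX: the analytic core, the second ellipse is much smaller
-/

set_option autoImplicit false

namespace EX1

open Complex Set Filter Topology MeasureTheory EW1 EY1
open scoped ComplexConjugate ContDiff Real

theorem K_sub {c : ℂ} {r : ℝ} (hr : 0 < r) {μ : ℂ} (hμ : ‖μ‖ < 1) {z : ℂ} (hz : z ∈ Kp c r μ) : ‖z - c‖ ≤ 2 * r := by
  have h1 := zz_vv (c := c) hr hμ z
  have hz1 : ‖vv c r μ z‖ ≤ 1 := hz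
  have h2 : z - c = r * (vv c r μ z + μ * conj (vv c r μ z)) := by
    have h3 : zz c r μ (vv c r μ z) - c = r * (vv c r μ z + μ * conj (vv c r μ z)) := by
      unfold zz
      ring
    rw [h1] at h3
    exact h3
  rw [h2, norm_mul, Complex.norm_real, Real.norm_eq_abs, abs_of_pos hr]
  have h4 : ‖vv c r μ z + μ * conj (vv c r μ z)‖ ≤ 2 := by
    refine (norm_add_le _ _).trans ?_
    rw [norm_mul, RCLike.norm_conj]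
    nlinarith [norm_nonneg μ, norm_nonneg (vv c r μ z)]
  nlinarith

theorem QQ_c_le {c : ℂ} {r : ℝ} (hr : 0 < r) {μ : ℂ} (hμ : ‖μ‖ < 1) {z : ℂ} (hz : z ∈ Kp c r μ) : QQ c r μ z ≤ 0 := by
  have hz1 : ‖vv c r μ z‖ ≤ 1 := hz
  unfold QQ
  have := kap_pos hr hμ
  exact mul_nonpos_of_nonneg_of_nonpos this.le (by nlinarith [norm_nonneg (vv c r μ z)])

theorem Dp_Kp (c : ℂ) (r : ℝ) (μ : ℂ) : Dp c r μ 1 ⊆ Kp c r μ := fun z hz => by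
  have h : ‖vv c r μ z‖ < 1 := hz
  exact h.le

theorem int_Kp {c : ℂ} {r : ℝ} (hr : 0 < r) {μ : ℂ} (hμ : ‖μ‖ < 1) {N : Set ℂ} (hN : Kp c r μ ⊆ N) {f : ℂ → ℂ}
    (hf : ContinuousOn f N) : IntegrableOn f (Dp c r μ 1) :=
  ((hf.mono hN).integrableOn_compact (cDp_compact hr hμ 1)).mono_set (Dp_Kp c r μ)

/-- the real part of the difference does not change with the imaginary constant -/
theorem NN_tau {c₁ c₂ : ℂ} {r₁ r₂ : ℝ} (hr₁ : 0 < r₁) (hr₂ : 0 < r₂) {μ₁ μ₂ : ℂ} (hμ₁ : ‖μ₁‖ < 1) (hμ₂ : ‖μ₂‖ < 1)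
    {N : Set ℂ} (hN : IsOpen N) (h₁ : Kp c₁ r₁ μ₁ ⊆ N) (h₂ : Kp c₂ r₂ μ₂ ⊆ N) {m : ℂ → ℂ}
    (hm : DifferentiableOn ℂ m N) (τ : ℝ) :
    NN c₁ r₁ μ₁ c₂ r₂ μ₂ m = ((∫ z in Dp c₁ r₁ μ₁ 1, conj (m z) * ((aa c₁ r₁ μ₁ c₂ r₂ μ₂ z + τ * I) * m z)) -
      ∫ z in Dp c₂ r₂ μ₂ 1, conj (m z) * ((aa c₁ r₁ μ₁ c₂ r₂ μ₂ z + τ * I) * m z)).re := by
  have hac : ContinuousOn (fun z => conj (m z) * (aa c₁ r₁ μ₁ c₂ r₂ μ₂ z * m z)) N := by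
    have ha : Continuous (fun z => aa c₁ r₁ μ₁ c₂ r₂ μ₂ z) := by unfold aa; fun_prop
    exact (Complex.continuous_conj.comp_continuousOn hm.continuousOn).mul (ha.continuousOn.mul hm.continuousOn)
  have hmc : ContinuousOn (fun z => conj (m z) * m z) N :=
    (Complex.continuous_conj.comp_continuousOn hm.continuousOn).mul hm.continuousOn
  have key : ∀ (c : ℂ) (r : ℝ) (μ : ℂ), 0 < r → ‖μ‖ < 1 → Kp c r μ ⊆ N →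
      ∃ s : ℝ, ∫ z in Dp c r μ 1, conj (m z) * ((aa c₁ r₁ μ₁ c₂ r₂ μ₂ z + τ * I) * m z) =
        (∫ z in Dp c r μ 1, conj (m z) * (aa c₁ r₁ μ₁ c₂ r₂ μ₂ z * m z)) + s * I := by
    intro c r μ hr hμ hK
    refine ⟨τ * ∫ z in Dp c r μ 1, ‖m z‖ ^ 2, ?_⟩
    have e1 : ∀ z, conj (m z) * ((aa c₁ r₁ μ₁ c₂ r₂ μ₂ z + τ * I) * m z) =
        conj (m z) * (aa c₁ r₁ μ₁ c₂ r₂ μ₂ z * m z) + (τ * I) * (conj (m z) * m z) := fun z => by ring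
    simp only [e1]
    rw [integral_add (int_Kp hr hμ hK hac) ((int_Kp hr hμ hK hmc).const_mul _), integral_const_mul]
    have e2 : ∀ z, conj (m z) * m z = ((‖m z‖ ^ 2 : ℝ) : ℂ) := fun z => by
      rw [mul_comm, Complex.mul_conj, Complex.normSq_eq_norm_sq]
    simp only [e2]
    have e3 : ∫ z in Dp c r μ 1, ((‖m z‖ ^ 2 : ℝ) : ℂ) = ((∫ z in Dp c r μ 1, ‖m z‖ ^ 2 : ℝ) : ℂ) := integral_ofReal
    rw [e3]
    push_cast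
    ring
  obtain ⟨s₁, hs₁⟩ := key c₁ r₁ μ₁ hr₁ hμ₁ h₁
  obtain ⟨s₂, hs₂⟩ := key c₂ r₂ μ₂ hr₂ hμ₂ h₂
  rw [NN_id hr₁ hr₂ hμ₁ hμ₂ hN h₁ h₂ hm, hs₁, hs₂]
  simp

/-- the second ellipse is much smaller -/
theorem small_thm {μ₀ ρ : ℝ} (h0 : 0 ≤ μ₀) (h1 : μ₀ < ρ ^ 2) (hρ : 0 < ρ) (hρ1 : ρ < 1) :
    ∃ η ε : ℝ, 0 < η ∧ η ≤ 1 ∧ 0 < ε ∧ ∀ (c₁ : ℂ) (r₁ : ℝ) (μ₁ c₂ : ℂ) (r₂ : ℝ) (μ₂ : ℂ), ‖μ₁‖ ≤ μ₀ → ‖μ₂‖ ≤ μ₀ → 0 < r₂ →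
      r₂ ≤ η * r₁ → ¬ Disjoint (Kp c₁ r₁ μ₁) (Kp c₂ r₂ μ₂) → ∀ l : ℝ, |l| < ε →
      ∀ (N : Set ℂ) (m : ℂ → ℂ), IsOpen N → Kp c₁ r₁ μ₁ ⊆ N → Kp c₂ r₂ μ₂ ⊆ N → DifferentiableOn ℂ m N →
      (∀ A : ℂ → ℂ, DifferentiableOn ℂ A N → Idn c₁ r₁ μ₁ c₂ r₂ μ₂ l ρ A m) →
      ∀ z ∈ Dp c₁ r₁ μ₁ 1, m z = 0 := by
  have hμ1 : μ₀ < 1 := h1.trans (by nlinarith)
  set σ₀ : ℝ := (ρ ^ 2 + μ₀) / (ρ * (1 + μ₀)) with hσ₀
  have hden : 0 < ρ * (1 + μ₀) := by positivity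
  have hσ₀1 : σ₀ < 1 := by
    rw [hσ₀, div_lt_one hden]
    nlinarith [mul_pos (sub_pos.2 hρ1) (show 0 < ρ - μ₀ by nlinarith)]
  have hσ₀0 : 0 < σ₀ := by rw [hσ₀]; positivity
  set σ : ℝ := (σ₀ + 1) / 2 with hσ
  have hσ1 : σ < 1 := by rw [hσ]; linarith
  have hσ0 : 0 < σ := by rw [hσ]; linarith
  have hσσ : σ₀ < σ := by rw [hσ]; linarith
  obtain ⟨η₁, C₁, hη₁, hC₁, hL1⟩ := L1 h0 hμ1 hσ0 hσ1
  obtain ⟨Ka, Ca, hKa, hCa, hLa⟩ := L2a h0 hμ1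
  obtain ⟨CL, hCL, hLip⟩ := Lip h0 hμ1
  obtain ⟨Ct, hCt, haat⟩ := aat h0 hμ1
  obtain ⟨CR, hCR, hRR⟩ := RRs h0 h1 hρ hρ1 hσσ
  set K : ℝ := Ka + 2 * CL with hK
  have hKp : 0 < K := by rw [hK]; positivity
  obtain ⟨η₂, Cb, hη₂, hCb, hLb⟩ := L2b h0 hμ1 hKp hσ0 hσ1
  set T : ℝ := CR * Ct * C₁ + CR * (1 + Ct / Ka) * Ca + CR * (K + Ct) * Cb with hT
  have hTp : 0 < T := by rw [hT]; positivity
  refine ⟨min 1 (min η₁ η₂), min (1 / 2) (1 / (2 * T)), by positivity, min_le_left _ _, by positivity, ?_⟩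
  intro c₁ r₁ μ₁ c₂ r₂ μ₂ hμ₁ hμ₂ hr₂ hr21 hnd l hlε N m hN hN₁ hN₂ hm hid
  have hr₁ : 0 < r₁ := by
    by_contra hcon
    have h5 : min 1 (min η₁ η₂) * r₁ ≤ 0 := mul_nonpos_of_nonneg_of_nonpos (by positivity) (not_lt.1 hcon)
    linarith
  have hr2a : r₂ ≤ η₁ * r₁ := hr21.trans (mul_le_mul_of_nonneg_right ((min_le_right _ _).trans (min_le_left _ _)) hr₁.le)
  have hr2b : r₂ ≤ η₂ * r₁ := hr21.trans (mul_le_mul_of_nonneg_right ((min_le_right _ _).trans (min_le_right _ _)) hr₁.le)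
  have hr2c : r₂ ≤ r₁ := by
    have := hr21.trans (mul_le_mul_of_nonneg_right (min_le_left 1 (min η₁ η₂)) hr₁.le)
    linarith
  have hn₁ : ‖μ₁‖ < 1 := hμ₁.trans_lt hμ1
  have hn₂ : ‖μ₂‖ < 1 := hμ₂.trans_lt hμ1
  have hl2 : l ^ 2 ≤ 1 / 4 := by
    have : |l| ≤ 1 / 2 := (hlε.trans_le (min_le_left _ _)).le
    rw [← sq_abs]
    nlinarith [abs_nonneg l]
  have hlT : |l| * T < 1 := by
    have : |l| < 1 / (2 * T) := hlε.trans_le (min_le_right _ _)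
    rw [lt_div_iff₀ (by positivity)] at this
    linarith
  -- a common point
  obtain ⟨z₀, hz₁, hz₂⟩ := Set.not_disjoint_iff.1 hnd
  have d1 := K_sub hr₁ hn₁ hz₁
  have d2 := K_sub hr₂ hn₂ hz₂
  have hcc : ‖c₂ - c₁‖ ≤ 4 * r₁ := by
    have : c₂ - c₁ = (z₀ - c₁) - (z₀ - c₂) := by ring
    rw [this]
    refine (norm_sub_le _ _).trans ?_
    linarith
  have hQ : QQ c₁ r₁ μ₁ c₂ ≤ 2 * CL * r₁ * r₂ := by
    have h5 := hLip c₁ r₁ μ₁ hr₁ hμ₁ c₂ z₀ hcc (by linarith)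
    have h6 := QQ_c_le hr₁ hn₁ hz₁
    have h7 := (le_abs_self _).trans h5
    have h8 : ‖c₂ - z₀‖ ≤ 2 * r₂ := by rw [norm_sub_rev]; exact d2
    have h9 : CL * r₁ * ‖c₂ - z₀‖ ≤ CL * r₁ * (2 * r₂) := by gcongr
    linarith
  obtain ⟨τ, hτ₂, hτ₁⟩ := haat c₁ r₁ μ₁ c₂ r₂ μ₂ hμ₁ hμ₂ hr₂ hr2c hcc
  set NNv := NN c₁ r₁ μ₁ c₂ r₂ μ₂ m with hNN
  have hNN0 : 0 ≤ NNv := NN_nonneg _ _ _ _ _ _ _
  obtain ⟨A, hA⟩ : ∃ A : ℂ → ℂ, A = fun z => (aa c₁ r₁ μ₁ c₂ r₂ μ₂ z + τ * I) * m z := ⟨_, rfl⟩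
  have hAd : DifferentiableOn ℂ A N := by
    rw [hA]
    refine DifferentiableOn.mul ?_ hm
    unfold aa
    fun_prop
  have hNNle : NNv ≤ ‖RR c₁ r₁ μ₁ l A m ρ‖ + ‖RR c₂ r₂ μ₂ l A m ρ‖ := by
    have h5 := NN_tau hr₁ hr₂ hn₁ hn₂ hN hN₁ hN₂ hm τ
    have h7 : (∫ z in Dp c₁ r₁ μ₁ 1, conj (m z) * A z) + RR c₁ r₁ μ₁ l A m ρ =
      (∫ z in Dp c₂ r₂ μ₂ 1, conj (m z) * A z) + RR c₂ r₂ μ₂ l A m ρ := hid A hAd
    have h6 : (∫ z in Dp c₁ r₁ μ₁ 1, conj (m z) * ((aa c₁ r₁ μ₁ c₂ r₂ μ₂ z + τ * I) * m z)) -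
        (∫ z in Dp c₂ r₂ μ₂ 1, conj (m z) * ((aa c₁ r₁ μ₁ c₂ r₂ μ₂ z + τ * I) * m z)) =
        -(RR c₁ r₁ μ₁ l A m ρ - RR c₂ r₂ μ₂ l A m ρ) := by
      simp only [hA] at h7 ⊢
      linear_combination h7
    rw [hNN, h5, h6]
    exact (le_abs_self _).trans ((abs_re_le_norm _).trans (by rw [norm_neg]; exact norm_sub_le _ _))
  -- the first error term
  have hsub₁ : Dp c₁ r₁ μ₁ σ ⊆ Dp c₁ r₁ μ₁ 1 := Dp_mono _ _ _ hσ1.le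
  have hsub₂ : Dp c₂ r₂ μ₂ σ ⊆ Dp c₂ r₂ μ₂ 1 := Dp_mono _ _ _ hσ1.le
  have hR₁ : ‖RR c₁ r₁ μ₁ l A m ρ‖ ≤ |l| * (CR * Ct * C₁) * NNv := by
    set S := Real.sqrt (C₁ * NNv) / r₁ ^ 2 with hS
    have hSS : r₁ ^ 4 * S ^ 2 = C₁ * NNv := by
      rw [hS, div_pow, Real.sq_sqrt (by positivity)]
      field_simp
    have hS0 : 0 ≤ S := by positivity
    have hM : ∀ z ∈ Dp c₁ r₁ μ₁ σ, ‖m z‖ ≤ S := by
      intro z hz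
      have h5 := hL1 c₁ r₁ μ₁ c₂ r₂ μ₂ hμ₁ hμ₂ hr₂ hr2a N m hN hN₁ hN₂ hm z hz
      rw [← hNN, ← hSS] at h5
      have h6 : ‖m z‖ ^ 2 ≤ S ^ 2 := le_of_mul_le_mul_left h5 (by positivity)
      exact abs_le_of_sq_le_sq' h6 hS0 |>.2
    have hAS : ∀ z ∈ Dp c₁ r₁ μ₁ σ, ‖A z‖ ≤ Ct * r₁ ^ 2 * S := by
      intro z hz
      rw [hA]
      simp only [norm_mul]
      exact mul_le_mul (hτ₁ z (hsub₁ hz)) (hM z hz) (norm_nonneg _) (by positivity)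
    refine (hRR c₁ r₁ μ₁ hr₁ hμ₁ l hl2 A m _ _ hAS hM).trans (le_of_eq ?_)
    calc CR * |l| * r₁ ^ 2 * (Ct * r₁ ^ 2 * S) * S = |l| * (CR * Ct) * (r₁ ^ 4 * S ^ 2) := by ring
      _ = |l| * (CR * Ct * C₁) * NNv := by rw [hSS]; ring
  -- the second one
  have hR₂ : ‖RR c₂ r₂ μ₂ l A m ρ‖ ≤ |l| * (CR * (1 + Ct / Ka) * Ca + CR * (K + Ct) * Cb) * NNv := by
    rcases le_or_gt (Ka * r₁ * r₂) (-QQ c₁ r₁ μ₁ c₂) with hcase | hcase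
    · set X := |QQ c₁ r₁ μ₁ c₂| with hX
      have hXe : X = -QQ c₁ r₁ μ₁ c₂ := abs_of_neg (by
        have : 0 < Ka * r₁ * r₂ := by positivity
        linarith)
      have hXp : Ka * r₁ * r₂ ≤ X := by rw [hXe]; exact hcase
      have hX0 : 0 < X := lt_of_lt_of_le (by positivity) hXp
      set S := Real.sqrt (Ca * NNv / (r₂ ^ 2 * X)) with hS
      have hSS : r₂ ^ 2 * X * S ^ 2 = Ca * NNv := by
        rw [hS, Real.sq_sqrt (by positivity)]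
        field_simp
      have hS0 : 0 ≤ S := Real.sqrt_nonneg _
      have hM : ∀ z ∈ Dp c₂ r₂ μ₂ σ, ‖m z‖ ≤ S := by
        intro z hz
        have h5 := hLa c₁ r₁ μ₁ c₂ r₂ μ₂ hμ₁ hμ₂ hr₂ hr2c hcase N m hN hN₁ hN₂ hm z (hsub₂ hz)
        rw [← hNN, ← hSS] at h5
        have h6 : ‖m z‖ ^ 2 ≤ S ^ 2 := le_of_mul_le_mul_left h5 (by positivity)
        exact abs_le_of_sq_le_sq' h6 hS0 |>.2
      have hAS : ∀ z ∈ Dp c₂ r₂ μ₂ σ, ‖A z‖ ≤ (1 + Ct / Ka) * X * S := by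
        intro z hz
        rw [hA]
        simp only [norm_mul]
        refine mul_le_mul ((hτ₂ z (hsub₂ hz)).trans ?_) (hM z hz) (norm_nonneg _) (by positivity)
        have h5 : Ct * r₁ * r₂ ≤ Ct / Ka * X := by
          rw [div_mul_eq_mul_div, le_div_iff₀ hKa]
          nlinarith
        linarith
      refine (hRR c₂ r₂ μ₂ hr₂ hμ₂ l hl2 A m _ _ hAS hM).trans ?_
      have h8 : CR * |l| * r₂ ^ 2 * ((1 + Ct / Ka) * X * S) * S = |l| * (CR * (1 + Ct / Ka) * Ca) * NNv := by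
        calc CR * |l| * r₂ ^ 2 * ((1 + Ct / Ka) * X * S) * S = |l| * (CR * (1 + Ct / Ka)) * (r₂ ^ 2 * X * S ^ 2) := by ring
          _ = |l| * (CR * (1 + Ct / Ka) * Ca) * NNv := by rw [hSS]; ring
      rw [h8]
      have h9 : 0 ≤ CR * (K + Ct) * Cb := by positivity
      gcongr
      linarith
    · have hX : |QQ c₁ r₁ μ₁ c₂| ≤ K * r₁ * r₂ := by
        rw [abs_le]
        have e1 : K * r₁ * r₂ = Ka * r₁ * r₂ + 2 * CL * r₁ * r₂ := by rw [hK]; ring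
        have e2 : 0 < 2 * CL * r₁ * r₂ := by positivity
        have e3 : 0 < Ka * r₁ * r₂ := by positivity
        constructor
        · linarith
        · linarith
      set S := Real.sqrt (Cb * NNv / (r₁ * r₂ ^ 3)) with hS
      have hSS : r₁ * r₂ ^ 3 * S ^ 2 = Cb * NNv := by
        rw [hS, Real.sq_sqrt (by positivity)]
        field_simp
      have hS0 : 0 ≤ S := Real.sqrt_nonneg _
      have hM : ∀ z ∈ Dp c₂ r₂ μ₂ σ, ‖m z‖ ≤ S := by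
        intro z hz
        have h5 := hLb c₁ r₁ μ₁ c₂ r₂ μ₂ hμ₁ hμ₂ hr₂ hr2b hX N m hN hN₁ hN₂ hm z hz
        rw [← hNN, ← hSS] at h5
        have h6 : ‖m z‖ ^ 2 ≤ S ^ 2 := le_of_mul_le_mul_left h5 (by positivity)
        exact abs_le_of_sq_le_sq' h6 hS0 |>.2
      have hAS : ∀ z ∈ Dp c₂ r₂ μ₂ σ, ‖A z‖ ≤ (K + Ct) * (r₁ * r₂) * S := by
        intro z hz
        rw [hA]
        simp only [norm_mul]
        refine mul_le_mul ((hτ₂ z (hsub₂ hz)).trans ?_) (hM z hz) (norm_nonneg _) (by positivity)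
        linarith
      refine (hRR c₂ r₂ μ₂ hr₂ hμ₂ l hl2 A m _ _ hAS hM).trans ?_
      have h8 : CR * |l| * r₂ ^ 2 * ((K + Ct) * (r₁ * r₂) * S) * S = |l| * (CR * (K + Ct) * Cb) * NNv := by
        calc CR * |l| * r₂ ^ 2 * ((K + Ct) * (r₁ * r₂) * S) * S = |l| * (CR * (K + Ct)) * (r₁ * r₂ ^ 3 * S ^ 2) := by ring
          _ = |l| * (CR * (K + Ct) * Cb) * NNv := by rw [hSS]; ring
      rw [h8]
      have h9 : 0 ≤ CR * (1 + Ct / Ka) * Ca := by positivity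
      gcongr
      linarith
  have hz : NNv = 0 := by
    have h5 : NNv ≤ |l| * T * NNv := by
      refine hNNle.trans ((add_le_add hR₁ hR₂).trans (le_of_eq ?_))
      rw [hT]
      ring
    by_contra hne
    have hpos : 0 < NNv := lt_of_le_of_ne hNN0 (Ne.symm hne)
    nlinarith
  -- zero near the center
  have hz1 : ∀ z ∈ Dp c₁ r₁ μ₁ σ, m z = 0 := by
    intro z hzσ
    have h5 := hL1 c₁ r₁ μ₁ c₂ r₂ μ₂ hμ₁ hμ₂ hr₂ hr2a N m hN hN₁ hN₂ hm z hzσ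
    rw [← hNN, hz, mul_zero] at h5
    have h6 : ‖m z‖ ^ 2 ≤ 0 := by
      by_contra hcon
      push Not at hcon
      have : 0 < r₁ ^ 4 * ‖m z‖ ^ 2 := by positivity
      linarith
    have h7 : ‖m z‖ = 0 := by nlinarith [norm_nonneg (m z)]
    exact norm_eq_zero.1 h7
  have hcσ : c₁ ∈ Dp c₁ r₁ μ₁ σ := by
    show ‖vv c₁ r₁ μ₁ c₁‖ < σ
    have : vv c₁ r₁ μ₁ c₁ = 0 := by unfold vv; simp
    rw [this, norm_zero]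
    exact hσ0
  have han : AnalyticOnNhd ℂ m (Dp c₁ r₁ μ₁ 1) :=
    (hm.mono ((Dp_Kp c₁ r₁ μ₁).trans hN₁)).analyticOnNhd (Dp_open _ _ _ _)
  have hev : m =ᶠ[𝓝 c₁] 0 := by
    filter_upwards [(Dp_open c₁ r₁ μ₁ σ).mem_nhds hcσ] with z hzz
    exact hz1 z hzz
  have hall := han.eqOn_zero_of_preconnected_of_eventuallyEq_zero (Dp_convex c₁ r₁ μ₁ 1).isPreconnected (hsub₁ hcσ) hev
  intro z hzz
  exact hall hzz

end EX1
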