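import Pool.Agent.H1.EX.D
import Pool.Agent.H1.EW.Fa
import Pool.Agent.H1.EW.Pf
import Pool.Agent.H1.EW.Ph
import Pool.Agent.H1.ED.T1

/-!
ROW EX/Xa. The structure `Fld` for an ellipse (`μ ≠ 0`). Elliptic coordinates: `x = -log ‖μ‖ / 2 > 0`, `b` with `b² = r² μ` (`‖b‖ = r √‖μ‖ = r e^(-x)`), so
`‖b‖ e^x = r`, `b²/(‖b‖e^x)² = μ`: then `De c b x = Dp c r μ 1`, `{lv ≤ lx b x} = Kp c r μ` (`De_Dp`, `cDe_cDp` in `EW/Fa.lean`; `lv c b`, `De c b`).
`Dd` (`ED/Dd.lean`): `De c b y ⊆ Ω` for some `y > x`; `deep'` (`ED/T1.lean`): `Fi`, `Fo`, `Flds`; `one` (`EW/Pf.lean`): `M`, `hol`, `out` (the set `Ω ∩ {lx < lv}` is `Ω \ Kp`), and the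
relation of the Fourier integrals. `id`: for `N` take `y₁ > x` with `De c b y₁ ⊆ N ∩ Ω` (`Dd`), `main_id` (`EW/Ph.lean`) on `De c b y₁`, `G = conj Fi` a.e. on `De c b x` (`Flds.ei`); `e^(-x) < ρ` since `e^(-2x) = ‖μ‖ < ρ²`.
`zero`: `main_zero`. `mom`: `Flds.zero`, `mo` in `ED/T1.lean` (moments with `dC c b (n+1)`, entire functions: take `N = univ`). See the proof of `pde_id` in `EW/T3.lean` for most of this.
-/

set_option autoImplicit false

namespace EX1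

open Complex Set Filter Topology MeasureTheory MD12 ED1 EW1
open scoped ComplexConjugate ContDiff Real

theorem fldE {Ω : Set ℂ} (hΩo : IsOpen Ω) {k : ℝ} (hk : 0 < k) (hk1 : k ≠ 1) {c : ℂ} {r : ℝ} (hr : 0 < r) {μ : ℂ} (hμ0 : μ ≠ 0) (hμ : ‖μ‖ < 1)
    {ρ : ℝ} (hρ0 : 0 < ρ) (hρ : ‖μ‖ < ρ ^ 2) (hρ1 : ρ < 1) (hK : Kp c r μ ⊆ Ω) {g u : ℂ → ℝ} {G : ℂ → ℂ}
    (h : SolvesC Ω (MD12.cond k (Dp c r μ 1)) g u G) : ∃ M : ℂ → ℂ, Fld Ω k ρ c r μ G M := by
  obtain ⟨b, hb2⟩ := IsAlgClosed.exists_pow_nat_eq ((r : ℂ) ^ 2 * μ) (n := 2) two_pos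
  have hμn : 0 < ‖μ‖ := norm_pos_iff.2 hμ0
  have hrc : (r : ℂ) ≠ 0 := by exact_mod_cast hr.ne'
  have hb : b ≠ 0 := by
    intro h0
    rw [h0] at hb2
    have : (r : ℂ) ^ 2 * μ ≠ 0 := mul_ne_zero (pow_ne_zero 2 hrc) hμ0
    exact this (by rw [← hb2]; ring)
  have hbn : ‖b‖ ^ 2 = r ^ 2 * ‖μ‖ := by
    rw [← norm_pow, hb2, norm_mul, norm_pow, Complex.norm_real, Real.norm_of_nonneg hr.le]
  obtain ⟨x, hxd⟩ : ∃ x : ℝ, x = -Real.log ‖μ‖ / 2 := ⟨_, rfl⟩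
  have hx : 0 < x := by
    have := Real.log_neg hμn hμ
    rw [hxd]
    linarith
  have hex : Real.exp x ^ 2 = ‖μ‖⁻¹ := by
    rw [← Real.exp_nat_mul, hxd, ← Real.exp_log (inv_pos.2 hμn), Real.log_inv]
    congr 1
    push_cast
    ring
  have hpr : ‖b‖ * Real.exp x = r := by
    have h1 : (‖b‖ * Real.exp x) ^ 2 = r ^ 2 := by
      rw [mul_pow, hbn, hex]
      field_simp
    exact (pow_left_inj₀ (by positivity) hr.le two_ne_zero).1 h1
  have hpm : b ^ 2 / ((r : ℝ) : ℂ) ^ 2 = μ := by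
    rw [hb2]
    field_simp
  have hDe : De c b x = Dp c r μ 1 := by
    rw [De_Dp c hb hx, hpr, hpm]
  have hcDe : {z | lv c b z ≤ lx b x} = Kp c r μ := by
    rw [cDe_cDp c hb hx, hpr, hpm]
    rfl
  have hxρ : Real.exp (-x) < ρ := by
    have h1 : Real.exp (-x) ^ 2 = ‖μ‖ := by
      rw [Real.exp_neg, inv_pow, hex, inv_inv]
    refine lt_of_pow_lt_pow_left₀ 2 hρ0.le ?_
    rw [h1]
    exact hρ
  rw [← hDe] at h
  rw [← hcDe] at hK
  obtain ⟨y, hy, hyΩ⟩ := Dd hb hx.le hΩo hK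
  obtain ⟨Fi, Fo, hF⟩ := deep' hΩo hk hb hx hy hyΩ h
  obtain ⟨M, hM, hout, hrel⟩ := one hΩo hyΩ h hF
  have hei := hF.ei
  have hDm : MeasurableSet (De c b x) := (De_open c b x).measurableSet
  rw [ae_restrict_iff' hDm] at hei
  have hFG : ∀ A : ℂ → ℂ, ∫ z in De c b x, G z * A z = ∫ z in De c b x, conj (Fi z) * A z := by
    intro A
    refine setIntegral_congr_ae hDm ?_
    filter_upwards [hei] with w hw hwD
    rw [hw hwD]
  refine ⟨M, hM, ?_, ?_, ?_, ?_⟩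
  · -- outside
    have hset : Ω \ Kp c r μ = Ω ∩ {z | lx b x < lv c b z} := by
      rw [← hcDe]
      ext z
      simp only [Set.mem_diff, Set.mem_setOf_eq, Set.mem_inter_iff, not_le]
    rw [hset]
    filter_upwards [hout] with z hz
    rw [hz]
    unfold Ct
    rw [hDe]
  · -- identity
    intro N A hN hKN hA
    rw [← hcDe] at hKN
    obtain ⟨y₁, hy₁, hy₁Ω⟩ := Dd hb hx.le (hN.inter hΩo) (Set.subset_inter hKN hK)
    have i1 := main_id hb hk hx hy₁ hF.di hF.fi2 (hM.mono (hy₁Ω.trans Set.inter_subset_right))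
      (hA.mono (hy₁Ω.trans Set.inter_subset_left)) hrel ⟨hxρ, hρ1⟩
    rw [hpr, hpm] at i1
    rw [← hDe, hFG A]
    exact i1
  · -- zero
    intro h0
    rw [← hDe] at h0 ⊢
    have hF0 := main_zero hb hk hx hF.di h0 hrel
    rw [ae_restrict_iff' hDm]
    filter_upwards [hei] with w hw hwD
    rw [hw hwD, hF0 w hwD, map_zero]
  · -- moments
    intro h0
    rw [← hDe]
    refine hF.zero hk1 fun n => ?_
    have hd : Differentiable ℂ (dC c b (n + 1)) := by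
      have h1 : Differentiable ℂ (fun z : ℂ => (z - c) / b) := by fun_prop
      have h2 := (Polynomial.differentiable (Polynomial.derivative
        (Polynomial.Chebyshev.C ℂ ((n + 1 : ℕ) : ℤ)))).comp h1
      exact h2.div_const b
    have h1 := h0 Set.univ (dC c b (n + 1)) isOpen_univ (Set.subset_univ _) hd.differentiableOn
    rw [← hDe, hFG] at h1
    unfold mo
    rw [h1, mul_zero]

end EX1
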