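import Pool.Agent.H1.EX.Xb
import Pool.Agent.H12.MDM.G
import Pool.Agent.H1.ED.We

/-!
ROW EX/Xc. Transmission across a circle, in terms of holomorphic fields. `R = rfl12 c r` is the reflection, `γ = (1-k)/(1+k)`, `κ = 2k/(1+k)`.
`We` (`ED/We.lean`) gives `Fi` on the ball and `Fo` on `ann c r (r t)` with `G = conj Fi`, `conj Fo` a.e. `intf` (`MDM/G.lean`) on the annulus `A = ann c (r/t) (r t)` gives `V` harmonic on `A`, `V = u` a.e. outside the circle,
`V - γ V∘R = κ u` a.e. inside. `Φ z = fderiv V z 1 - I fderiv V z I` is holomorphic on `A` (`V` harmonic), and `Φ = Fo` on `ann c r (rt)` (weak gradient of a smooth function, `grad_unique`).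
Inside (`ann c (r/t) r`), the classical representative `h` of `u` (`weyl`) satisfies `κ h = V - γ V∘R` (`eq_of_ae`), and `Fi = fderiv h z 1 - I fderiv h z I` there; differentiate:
`κ Fi z = Φ z + γ (r²/(z-c)²) conj (Φ (R z))` for `z ∈ ann c (r/t) r`  (*)  (`R z = c + r²/conj (z-c)`).
The right side of (*) is holomorphic on all of `A`, call it `κ Fe z`; so `Fe` extends `Fi` to the ball `ball c (rt)`. Apply (*) (for `Fe`, on all of `A`) at `R z` and combine: `(1-γ²) Φ z = κ Fe z - γ κ (r²/(z-c)²) conj (Fe (R z))`,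
`κ/(1-γ²) = (k+1)/2`, `γ (k+1)/2 = (1-k)/2`: `Φ z = (k+1)/2 Fe z + (k-1)/2 (r²/(z-c)²) conj (Fe (R z))`. For `z` outside the circle `R z` is inside, so with `berg`: `Φ z = (k+1)/2 Fe z + (k-1)/(2π) ∫ conj Fi/(z-w)²`.
`m = (k+1)/2 Fe` (`= (k+1)/2 Fi` in the ball).
-/

set_option autoImplicit false

namespace EX1

open Complex Set Filter Topology MeasureTheory MD12 ED1
open scoped ComplexConjugate ContDiff Real

/-- the weak gradient is the gradient -/
private theorem Xc_gr {N : Set ℂ} (hN : IsOpen N) {u : ℂ → ℝ} {G : ℂ → ℂ} (hS : Sob N u G)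
    {V : ℂ → ℝ} (hV : ∀ z ∈ N, InnerProductSpace.HarmonicAt V z)
    (hVu : ∀ᵐ z ∂volume.restrict N, V z = u z) :
    ∀ᵐ z ∂volume.restrict N, G z = MONO_gr V z := by
  filter_upwards [We_grad hN hS hV hVu 1, We_grad hN hS hV hVu I] with z h1 h2
  have h1' : (G z).re = fderiv ℝ V z 1 := by
    rw [← h1]; simp [Complex.inner]
  have h2' : (G z).im = fderiv ℝ V z I := by
    rw [← h2]; simp [Complex.inner]
  apply Complex.ext
  · simp [MONO_gr, h1']
  · simp [MONO_gr, h2']

private theorem Xc_fd (V : ℂ → ℝ) (z v : ℂ) : fderiv ℝ V z v = (conj (MONO_gr V z) * v).re := by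
  rw [← MONO_gr_inner, Complex.inner, mul_comm]

/-- the gradient of the reflected function -/
private theorem Xc_rfl {V : ℂ → ℝ} {c : ℂ} {r : ℝ} {z : ℂ} (hz : z ≠ c)
    (hV : DifferentiableAt ℝ V (rfl12 c r z)) (v : ℂ) :
    fderiv ℝ (fun w => V (rfl12 c r w)) z v =
      (-((r : ℂ) ^ 2 / (z - c) ^ 2) * conj (conj (MONO_gr V (rfl12 c r z))) * v).re := by
  have h1 : HasFDerivAt (fun w => V (rfl12 c r w)) ((fderiv ℝ V (rfl12 c r z)).comp (rflD c r z)) z :=
    hV.hasFDerivAt.comp z (rfl12_hasFDerivAt hz)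
  rw [h1.fderiv, ContinuousLinearMap.comp_apply, Xc_fd]
  have h2 : rflD c r z v = conj (-((r : ℂ) ^ 2 / (z - c) ^ 2) * v) := by
    simp [rflD, mul_comm, neg_div]
  rw [h2, ← Complex.conj_re]
  congr 1
  simp only [map_mul, Complex.conj_conj]
  ring

/-- two complex numbers with the same real parts of all multiples -/
private theorem Xc_eq {a b : ℂ} (h : ∀ v : ℂ, (a * v).re = (b * v).re) : a = b := by
  have h1 := h 1
  have h2 := h I
  simp at h1 h2
  exact Complex.ext h1 h2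

private theorem Xc_alg {k : ℝ} (hk : 0 < k) {P Q e f s : ℂ} (hs : s ≠ 0)
    (h1 : ((2 * k / (1 + k) : ℝ) : ℂ) * e = P + ((1 - k) / (1 + k) : ℝ) * s * Q)
    (h2 : ((2 * k / (1 + k) : ℝ) : ℂ) * f = Q + ((1 - k) / (1 + k) : ℝ) * s⁻¹ * P) :
    P = ((k + 1 : ℝ) : ℂ) / 2 * e + ((k - 1 : ℝ) : ℂ) / 2 * (s * f) := by
  have hk0 : (k : ℂ) ≠ 0 := by exact_mod_cast hk.ne'
  have hk1 : (1 + k : ℂ) ≠ 0 := by
    have : (1 + k : ℝ) ≠ 0 := by positivity
    exact_mod_cast this
  push_cast at h1 h2 ⊢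
  have e1 : (2 * k) * e = (1 + k) * P + (1 - k) * s * Q := by
    have := congrArg (fun x => (1 + k : ℂ) * x) h1
    field_simp at this
    linear_combination this
  have e2 : (2 * k) * (s * f) = (1 + k) * (s * Q) + (1 - k) * P := by
    have := congrArg (fun x => (1 + k : ℂ) * s * x) h2
    field_simp at this
    linear_combination this
  have e3 : (2 * (k : ℂ)) * (2 * P) = (2 * k) * ((k + 1) * e + (k - 1) * (s * f)) := by
    linear_combination (-(k + 1 : ℂ)) * e1 + (-(k - 1 : ℂ)) * e2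
  have e4 := mul_left_cancel₀ (mul_ne_zero two_ne_zero hk0) e3
  linear_combination e4 / 2

theorem tra {k : ℝ} (hk : 0 < k) {c : ℂ} {r t : ℝ} (hr : 0 < r) (ht : 1 < t) {u : ℂ → ℝ} {G : ℂ → ℂ}
    (hS : Sob (Metric.ball c (r * t)) u G) (hL : Loc (Metric.ball c (r * t)) k (Metric.ball c r) G) :
    ∃ m Fi : ℂ → ℂ, DifferentiableOn ℂ m (Metric.ball c (r * t)) ∧ DifferentiableOn ℂ Fi (Metric.ball c r) ∧
      (∀ᵐ z ∂volume.restrict (Metric.ball c r), G z = conj (Fi z)) ∧
      (∀ z ∈ Metric.ball c r, m z = ((k + 1 : ℝ) : ℂ) / 2 * Fi z) ∧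
      ∀ᵐ z ∂volume.restrict (Metric.ball c (r * t) \ Metric.closedBall c r),
        conj (G z) = m z + ((k - 1 : ℝ) : ℂ) / (2 * π) * ∫ w in Metric.ball c r, conj (Fi w) / (z - w) ^ 2 := by
  classical
  have ht0 : 0 < t := one_pos.trans ht
  have hrt : r < r * t := lt_mul_of_one_lt_right hr ht
  have hrt' : r / t < r := div_lt_self hr ht
  have hrt0 : 0 < r / t := by positivity
  have hBo : IsOpen (Metric.ball c (r * t)) := Metric.isOpen_ball
  have hDo : IsOpen (Metric.ball c r) := Metric.isOpen_ball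
  have hAo : ∀ a b : ℝ, IsOpen (ann c a b) := fun a b => intp_ann_open c a b
  have hDB : Metric.ball c r ⊆ Metric.ball c (r * t) := Metric.ball_subset_ball hrt.le
  have hAB : ann c (r / t) (r * t) ⊆ Metric.ball c (r * t) := fun z hz => by
    rw [mem_ball_iff_norm]; exact hz.2
  have hAoA : ann c r (r * t) ⊆ ann c (r / t) (r * t) := fun z hz => ⟨hrt'.trans hz.1, hz.2⟩
  have hAiA : ann c (r / t) r ⊆ ann c (r / t) (r * t) := fun z hz => ⟨hz.1, hz.2.trans hrt⟩
  have hAiD : ann c (r / t) r ⊆ Metric.ball c r := fun z hz => by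
    rw [mem_ball_iff_norm]; exact hz.2
  have hSA := hS.mono hBo (hAo _ _) hAB
  obtain ⟨V, hV, hVo, hVi⟩ := intf hk hr ht hSA (hL.mono hBo (hAo _ _) hAB)
  have hSD := hS.mono hBo hDo hDB
  obtain ⟨h, hh, hhu⟩ := weyl hDo (locallyIntegrableOn_of_locallyIntegrable_restrict
    (hSD.memu.locallyIntegrable (by norm_num)))
    (whar_of_loc hDo hSD hk (hL.mono hBo hDo hDB) (Or.inr Subset.rfl))
  set Fi : ℂ → ℂ := fun z => conj (MONO_gr h z) with hFi
  set Φ : ℂ → ℂ := fun z => conj (MONO_gr V z) with hΦ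
  have hFiD : DifferentiableOn ℂ Fi (Metric.ball c r) := fun z hz =>
    (We_hol (hh z hz)).differentiableWithinAt
  have hΦA : ∀ z ∈ ann c (r / t) (r * t), DifferentiableAt ℂ Φ z := fun z hz => We_hol (hV z hz)
  have hGi := Xc_gr hDo hSD hh hhu
  have hGi' : ∀ᵐ z ∂volume.restrict (Metric.ball c r), G z = conj (Fi z) := by
    filter_upwards [hGi] with z hz
    rw [hz, hFi, Complex.conj_conj]
  have hGo := Xc_gr (hAo r (r * t)) (hS.mono hBo (hAo _ _) (hAoA.trans hAB)) (fun z hz => hV z (hAoA hz)) hVo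
  have hR : ∀ z ∈ ann c (r / t) (r * t), rfl12 c r z ∈ ann c (r / t) (r * t) := by
    intro z hz
    have h1 := rfl12_mem hr hrt0 hz
    have e1 : r ^ 2 / (r * t) = r / t := by field_simp
    have e2 : r ^ 2 / (r / t) = r * t := by field_simp
    rwa [e1, e2] at h1
  have hRo : ∀ z ∈ ann c r (r * t), rfl12 c r z ∈ ann c (r / t) r := by
    intro z hz
    have h1 := rfl12_mem hr hr hz
    have e1 : r ^ 2 / (r * t) = r / t := by field_simp
    have e2 : r ^ 2 / r = r := by field_simp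
    rwa [e1, e2] at h1
  have hne : ∀ z ∈ ann c (r / t) (r * t), z ≠ c := fun z hz => ann_ne hrt0 hz
  -- the relation inside
  have hrel : ∀ z ∈ ann c (r / t) r, V z - (1 - k) / (1 + k) * V (rfl12 c r z) = 2 * k / (1 + k) * h z := by
    apply eq_of_ae (hAo _ _)
    · intro z hz
      have h1 := har_continuousAt (hV z (hAiA hz))
      have h2 := har_continuousAt (hV _ (hR z (hAiA hz)))
      have h3 : ContinuousAt (rfl12 c r) z := (rfl12_hasFDerivAt (hne z (hAiA hz))).continuousAt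
      exact h1.sub (continuousAt_const.mul (ContinuousAt.comp (f := rfl12 c r) h2 h3))
    · intro z hz
      exact continuousAt_const.mul (har_continuousAt (hh z (hAiD hz)))
    · have h4 : ∀ᵐ z ∂volume.restrict (ann c (r / t) r), h z = u z :=
        ae_restrict_of_ae_restrict_of_subset hAiD hhu
      filter_upwards [hVi, h4] with z h5 h6
      rw [h5, h6]
  have hdiff : ∀ {f : ℂ → ℝ} {z : ℂ}, InnerProductSpace.HarmonicAt f z → DifferentiableAt ℝ f z :=
    fun hf => hf.1.differentiableAt (by norm_num)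
  have hstar : ∀ z ∈ ann c (r / t) r, ((2 * k / (1 + k) : ℝ) : ℂ) * Fi z =
      Φ z + ((1 - k) / (1 + k) : ℝ) * ((r : ℂ) ^ 2 / (z - c) ^ 2) * conj (Φ (rfl12 c r z)) := by
    intro z hz
    apply Xc_eq
    intro v
    have hev : (fun w => V w - (1 - k) / (1 + k) * V (rfl12 c r w)) =ᶠ[𝓝 z] fun w => 2 * k / (1 + k) * h w := by
      filter_upwards [(hAo _ _).mem_nhds hz] with w hw using hrel w hw
    have h1 := congrArg (fun L : ℂ →L[ℝ] ℝ => L v) hev.fderiv_eq
    have hd1 : DifferentiableAt ℝ V z := hdiff (hV z (hAiA hz))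
    have hd2 : DifferentiableAt ℝ V (rfl12 c r z) := hdiff (hV _ (hR z (hAiA hz)))
    have hd3 : DifferentiableAt ℝ (fun w => V (rfl12 c r w)) z :=
      (hd2.hasFDerivAt.comp z (rfl12_hasFDerivAt (hne z (hAiA hz)))).differentiableAt
    have hd4 : DifferentiableAt ℝ h z := hdiff (hh z (hAiD hz))
    rw [fderiv_fun_sub hd1 (hd3.const_mul _), fderiv_const_mul hd3, fderiv_const_mul hd4] at h1
    simp only [sub_apply, smul_apply, smul_eq_mul] at h1
    rw [Xc_rfl (hne z (hAiA hz)) hd2, Xc_fd V, Xc_fd h] at h1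
    have e1 : (((2 * k / (1 + k) : ℝ) : ℂ) * Fi z * v).re = 2 * k / (1 + k) * (conj (MONO_gr h z) * v).re := by
      rw [mul_assoc, Complex.re_ofReal_mul]
    have e2 : ((Φ z + ((1 - k) / (1 + k) : ℝ) * ((r : ℂ) ^ 2 / (z - c) ^ 2) * conj (Φ (rfl12 c r z))) * v).re =
        (conj (MONO_gr V z) * v).re - (1 - k) / (1 + k) *
          (-((r : ℂ) ^ 2 / (z - c) ^ 2) * conj (conj (MONO_gr V (rfl12 c r z))) * v).re := by
      rw [← Complex.re_ofReal_mul, ← Complex.sub_re]
      congr 1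
      simp only [hΦ]
      ring
    rw [e1, e2, h1]
  -- the extension
  set κ : ℂ := ((2 * k / (1 + k) : ℝ) : ℂ) with hκ
  have hκ0 : κ ≠ 0 := by
    rw [hκ]
    have : 2 * k / (1 + k) ≠ 0 := by positivity
    exact_mod_cast this
  set Ψ : ℂ → ℂ := fun z => Φ z + ((1 - k) / (1 + k) : ℝ) * ((r : ℂ) ^ 2 / (z - c) ^ 2) * conj (Φ (rfl12 c r z)) with hΨ
  have hΨA : ∀ z ∈ ann c (r / t) (r * t), DifferentiableAt ℂ Ψ z := by
    intro z hz
    have hz0 : z - c ≠ 0 := sub_ne_zero.2 (hne z hz)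
    have h1 : DifferentiableAt ℂ (fun z => conj (Φ (rfl12 c r z))) z := by
      have h2 : DifferentiableAt ℂ (fun w => conj (Φ (conj w))) (conj (rfl12 c r z)) := by
        have h3 := (hΦA _ (hR z hz))
        exact (h3.hasDerivAt.conj_conj).differentiableAt.congr_of_eventuallyEq (by rfl)
      have h4 : DifferentiableAt ℂ (fun w => conj (rfl12 c r w)) z := by
        have h5 : (fun w => conj (rfl12 c r w)) = fun w => conj c + (r : ℂ) ^ 2 / (w - c) := by
          funext w
          simp [rfl12]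
        rw [h5]
        fun_prop (disch := exact hz0)
      have h6 := DifferentiableAt.comp z (g := fun w => conj (Φ (conj w))) (f := fun w => conj (rfl12 c r w)) h2 h4
      simpa [Function.comp_def] using h6
    have h7 : DifferentiableAt ℂ (fun z : ℂ => ((1 - k) / (1 + k) : ℝ) * ((r : ℂ) ^ 2 / (z - c) ^ 2)) z := by
      fun_prop (disch := exact pow_ne_zero 2 hz0)
    exact (hΦA z hz).add (h7.mul h1)
  set Fe : ℂ → ℂ := fun z => if z ∈ Metric.ball c r then Fi z else κ⁻¹ * Ψ z with hFe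
  have hFeA : ∀ z ∈ ann c (r / t) (r * t), Fe z = κ⁻¹ * Ψ z := by
    intro z hz
    by_cases hzD : z ∈ Metric.ball c r
    · rw [hFe]
      simp only [if_pos hzD]
      have hzi : z ∈ ann c (r / t) r := ⟨hz.1, mem_ball_iff_norm.1 hzD⟩
      have h1 := hstar z hzi
      rw [eq_inv_mul_iff_mul_eq₀ hκ0]
      exact h1
    · rw [hFe]
      simp only [if_neg hzD]
  have hFeD : DifferentiableOn ℂ Fe (Metric.ball c (r * t)) := by
    intro z hz
    apply DifferentiableAt.differentiableWithinAt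
    by_cases hzD : z ∈ Metric.ball c r
    · have h1 : Fe =ᶠ[𝓝 z] Fi := by
        filter_upwards [hDo.mem_nhds hzD] with w hw
        rw [hFe]
        simp only [if_pos hw]
      exact (h1.differentiableAt_iff).2 ((hFiD z hzD).differentiableAt (hDo.mem_nhds hzD))
    · have hzA : z ∈ ann c (r / t) (r * t) := by
        rw [mem_ball_iff_norm] at hz hzD
        exact ⟨hrt'.trans_le (not_lt.1 hzD), hz⟩
      have h1 : Fe =ᶠ[𝓝 z] fun w => κ⁻¹ * Ψ w := by
        filter_upwards [(hAo _ _).mem_nhds hzA] with w hw using hFeA w hw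
      exact (h1.differentiableAt_iff).2 ((hΨA z hzA).const_mul _)
  have hint : IntegrableOn Fi (Metric.ball c r) := by
    have h1 : Integrable G (volume.restrict (Metric.ball c r)) := by
      have : IsFiniteMeasure (volume.restrict (Metric.ball c r)) :=
        ⟨by rw [Measure.restrict_apply_univ]; exact measure_ball_lt_top⟩
      exact hSD.memG.integrable (by norm_num)
    have h2 : Integrable (fun z => conj (G z)) (volume.restrict (Metric.ball c r)) :=
      (conjCLE : ℂ →L[ℝ] ℂ).integrable_comp h1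
    refine h2.congr ?_
    filter_upwards [hGi'] with z hz
    rw [hz, Complex.conj_conj]
  refine ⟨fun z => ((k + 1 : ℝ) : ℂ) / 2 * Fe z, Fi, hFeD.const_mul _, hFiD, hGi', ?_, ?_⟩
  · intro z hz
    rw [hFe]
    simp only [if_pos hz]
  · have hset : Metric.ball c (r * t) \ Metric.closedBall c r = ann c r (r * t) := by
      ext z
      rw [Set.mem_sdiff, mem_ball_iff_norm, mem_closedBall_iff_norm, not_le]
      exact ⟨fun hz => ⟨hz.2, hz.1⟩, fun hz => ⟨hz.2, hz.1⟩⟩
    rw [hset]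
    filter_upwards [hGo, ae_restrict_mem (hAo _ _).measurableSet] with z hz hzo
    have hzA := hAoA hzo
    have hz0 : z - c ≠ 0 := sub_ne_zero.2 (hne z hzA)
    have hr0 : (r : ℂ) ≠ 0 := by exact_mod_cast hr.ne'
    have hs : (r : ℂ) ^ 2 / (z - c) ^ 2 ≠ 0 := div_ne_zero (pow_ne_zero 2 hr0) (pow_ne_zero 2 hz0)
    rw [berg hr hFiD hint hzo.1]
    have h1 : κ * Fe z = Φ z + ((1 - k) / (1 + k) : ℝ) * ((r : ℂ) ^ 2 / (z - c) ^ 2) * conj (Φ (rfl12 c r z)) := by
      rw [hFeA z hzA, mul_inv_cancel_left₀ hκ0]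
    have h2 := hstar _ (hRo z hzo)
    rw [rfl12_rfl12 hr (hne z hzA)] at h2
    have e1 : rfl12 c r z - c = (r : ℂ) ^ 2 / conj (z - c) := by
      unfold rfl12; ring
    rw [e1] at h2
    have hcz : conj (z - c) ≠ 0 := by
      rw [Ne, map_eq_zero]; exact hz0
    have e2 : conj ((r : ℂ) ^ 2 / ((r : ℂ) ^ 2 / conj (z - c)) ^ 2) = ((r : ℂ) ^ 2 / (z - c) ^ 2)⁻¹ := by
      simp only [map_div₀, map_pow, Complex.conj_conj, Complex.conj_ofReal]
      field_simp
    have h3 : κ * conj (Fi (rfl12 c r z)) = conj (Φ (rfl12 c r z)) +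
        ((1 - k) / (1 + k) : ℝ) * ((r : ℂ) ^ 2 / (z - c) ^ 2)⁻¹ * Φ z := by
      have h4 := congrArg conj h2
      have h6 : conj κ = κ := by rw [hκ, Complex.conj_ofReal]
      have h7 : conj (((1 - k) / (1 + k) : ℝ) : ℂ) = (((1 - k) / (1 + k) : ℝ) : ℂ) := Complex.conj_ofReal _
      rw [map_mul, map_add, map_mul, map_mul, e2, h6, h7, Complex.conj_conj (Φ z)] at h4
      exact h4
    have h5 := Xc_alg hk hs h1 h3
    have e3 : conj (G z) = Φ z := by rw [hz]
    have hpi : (π : ℂ) ≠ 0 := by exact_mod_cast Real.pi_ne_zero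
    rw [e3, h5]
    have e4 : c + (r : ℂ) ^ 2 / conj (z - c) = rfl12 c r z := rfl
    rw [e4]
    field_simp

end EX1
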