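import Pool.Agent.H1.EX.D
import Pool.Agent.H1.EX.Xc
import Pool.Agent.H1.ED.C2

/-!
ROW EX/Xd. The structure `Fld` for a disk (`μ = 0`): `Dp c r 0 1 = ball c r`, `Kp c r 0 = closedBall c r` (`vv c r 0 z = (z-c)/r`). Choose `t > 1` with `ball c (rt) ⊆ Ω` (compactness), `tra` gives `m`, `Fi`.
On `Ω \ closedBall` (open) `We` gives `F'` holomorphic, `G = conj F'` a.e.; `Ct Ω k (ball) G z = (k-1) ∫_ball conj Fi/(z-w)²` (as `Pf_tr` in `EW/Pf.lean`), holomorphic outside the closed ball (`Pf_C`: see how it is done there; or by `berg`).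
`M z = m z` on `ball c (rt)`, `M z = F' z - Ct z/(2π)` elsewhere: the two agree on `ball c (rt) \ closedBall` (equal a.e., continuous), so `M` is holomorphic on `Ω`. Same construction as `one` in `EW/Pf.lean`.
`id`: all terms of `RR c r 0` are zero (`rt l 0 A M n = 0` for `n ≥ 1`), `(k+1)/2 G = conj (M)` a.e. on the ball. `zero`: clear. `mom`: take `N = Ω`, `A = M`: `∫ conj (Fi) Fi = 0`, so `Fi = 0` (`Fi` is in `L²` of the ball since `G` is).
-/

set_option autoImplicit false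

namespace EX1

open Complex Set Filter Topology MeasureTheory MD12 ED1 EW1
open scoped ComplexConjugate ContDiff Real

private theorem Xd_vv (c : ℂ) {r : ℝ} (hr : 0 < r) (z : ℂ) : ‖vv c r 0 z‖ = ‖z - c‖ / r := by
  unfold vv
  rw [zero_mul, sub_zero, norm_div, norm_zero, Complex.norm_real, Real.norm_eq_abs]
  norm_num
  rw [abs_of_pos hr]

theorem Dp_disk (c : ℂ) {r : ℝ} (hr : 0 < r) : Dp c r 0 1 = Metric.ball c r := by
  ext z
  unfold Dp
  rw [Set.mem_ofPred_eq, Xd_vv c hr, div_lt_one hr, Metric.mem_ball, dist_eq_norm]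

theorem Kp_disk (c : ℂ) {r : ℝ} (hr : 0 < r) : Kp c r 0 = Metric.closedBall c r := by
  ext z
  unfold Kp
  rw [Set.mem_ofPred_eq, Xd_vv c hr, div_le_one hr, Metric.mem_closedBall, dist_eq_norm]

theorem RR_disk (c : ℂ) (r l : ℝ) (A M : ℂ → ℂ) (ρ : ℝ) : RR c r 0 l A M ρ = 0 := by
  unfold RR
  have h : ∀ n : ℕ, rt l 0 (fc c r 0 A ρ (n + 1)) (fc c r 0 M ρ (n + 1)) (n + 1) = 0 := by
    intro n
    unfold rt
    rw [norm_zero, zero_pow (Nat.succ_ne_zero n), zero_pow (by omega : 2 * (n + 1) ≠ 0)]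
    simp
  simp only [h, tsum_zero, mul_zero]

/-- a larger ball in `Ω` -/
private theorem Xd_ball {Ω : Set ℂ} (hΩo : IsOpen Ω) {c : ℂ} {r : ℝ} (hr : 0 < r)
    (hK : Metric.closedBall c r ⊆ Ω) : ∃ t : ℝ, 1 < t ∧ Metric.ball c (r * t) ⊆ Ω := by
  obtain ⟨δ, hδ, hδΩ⟩ := (isCompact_closedBall c r).exists_thickening_subset_open hΩo hK
  rw [thickening_closedBall hδ hr.le] at hδΩ
  refine ⟨1 + δ / r, by
    have : 0 < δ / r := div_pos hδ hr
    linarith, ?_⟩
  have : r * (1 + δ / r) = δ + r := by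
    field_simp
    ring
  rw [this]
  exact hδΩ

private theorem Xd_cond1 {k : ℝ} {D : Set ℂ} {z : ℂ} (hz : z ∉ D) : MD12.cond k D z = 1 := by
  unfold MD12.cond
  rw [Set.indicator_of_notMem hz, mul_zero, add_zero]

private theorem Xd_condk {k : ℝ} {D : Set ℂ} {z : ℂ} (hz : z ∈ D) : MD12.cond k D z = k := by
  unfold MD12.cond
  rw [Set.indicator_of_mem hz]
  ring

/-- the transform is holomorphic outside the closed ball -/
private theorem Xd_Ct {Ω : Set ℂ} (hΩo : IsOpen Ω) {k : ℝ} {c : ℂ} {r : ℝ}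
    (hK : Metric.closedBall c r ⊆ Ω) {G : ℂ → ℂ} (hG : MemLp G 2 (volume.restrict Ω)) :
    DifferentiableOn ℂ (Ct Ω k (Metric.ball c r) G) (Metric.closedBall c r)ᶜ := by
  have hcm : Measurable (MD12.cond k (Metric.ball c r)) := TSOB_cond_meas k Metric.isOpen_ball.measurableSet
  have hf : IntegrableOn (fun w => ((MD12.cond k (Metric.ball c r) w - 1 : ℝ) : ℂ) * G w) (Metric.closedBall c r) := by
    have : IsFiniteMeasure (volume.restrict (Metric.closedBall c r)) := ⟨by
      rw [Measure.restrict_apply_univ]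
      exact (isCompact_closedBall c r).measure_lt_top⟩
    have h3 : MemLp G 2 (volume.restrict (Metric.closedBall c r)) := hG.mono_measure (Measure.restrict_mono hK le_rfl)
    have h4 : Integrable G (volume.restrict (Metric.closedBall c r)) := memLp_one_iff_integrable.1 (h3.mono_exponent (by norm_num))
    refine h4.bdd_mul (c := |k - 1|) ?_ ?_
    · exact (Complex.continuous_ofReal.measurable.comp (hcm.sub_const 1)).aestronglyMeasurable
    · refine Eventually.of_forall fun z => ?_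
      rw [Complex.norm_real, Real.norm_eq_abs]
      by_cases hz : z ∈ Metric.ball c r
      · rw [Xd_condk hz]
      · rw [Xd_cond1 hz, sub_self, abs_zero]
        exact abs_nonneg _
  refine (C2 (isCompact_closedBall c r) hf).congr fun z _ => ?_
  unfold Ct
  refine setIntegral_eq_of_subset_of_forall_sdiff_eq_zero hΩo.measurableSet hK ?_
  intro w hw
  rw [Xd_cond1 (fun h => hw.2 (Metric.ball_subset_closedBall h))]
  simp

/-- the transform is a transform of the inner field -/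
private theorem Xd_tr {Ω : Set ℂ} (hΩo : IsOpen Ω) {k : ℝ} {c : ℂ} {r : ℝ}
    (hK : Metric.closedBall c r ⊆ Ω) {G Fi : ℂ → ℂ}
    (h3 : ∀ᵐ z ∂volume.restrict (Metric.ball c r), G z = conj (Fi z)) (z : ℂ) :
    Ct Ω k (Metric.ball c r) G z =
      ((k - 1 : ℝ) : ℂ) * ∫ w in Metric.ball c r, conj (Fi w) / (z - w) ^ 2 := by
  unfold Ct
  rw [← integral_const_mul]
  have e1 : ∫ w in Ω, ((MD12.cond k (Metric.ball c r) w - 1 : ℝ) : ℂ) * G w / (z - w) ^ 2 =
      ∫ w in Metric.ball c r, ((MD12.cond k (Metric.ball c r) w - 1 : ℝ) : ℂ) * G w / (z - w) ^ 2 := by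
    refine setIntegral_eq_of_subset_of_forall_sdiff_eq_zero hΩo.measurableSet
      (Metric.ball_subset_closedBall.trans hK) ?_
    intro w hw
    rw [Xd_cond1 hw.2]
    simp
  rw [e1]
  refine setIntegral_congr_ae Metric.isOpen_ball.measurableSet ?_
  rw [ae_restrict_iff' Metric.isOpen_ball.measurableSet] at h3
  filter_upwards [h3] with w hw hwD
  rw [hw hwD, Xd_condk hwD]
  ring

theorem fldD {Ω : Set ℂ} (hΩo : IsOpen Ω) {k : ℝ} (hk : 0 < k) {c : ℂ} {r : ℝ} (hr : 0 < r)
    (ρ : ℝ) (hK : Kp c r 0 ⊆ Ω) {g u : ℂ → ℝ} {G : ℂ → ℂ}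
    (h : SolvesC Ω (MD12.cond k (Dp c r 0 1)) g u G) : ∃ M : ℂ → ℂ, Fld Ω k ρ c r 0 G M := by
  classical
  rw [Kp_disk c hr] at hK
  rw [Dp_disk c hr] at h
  obtain ⟨t, ht, htΩ⟩ := Xd_ball hΩo hr hK
  have hrt : r < r * t := by nlinarith
  have hBo : IsOpen (Metric.ball c (r * t)) := Metric.isOpen_ball
  have hb : IsOpen (Metric.ball c r) := Metric.isOpen_ball
  have hKt : Metric.closedBall c r ⊆ Metric.ball c (r * t) := Metric.closedBall_subset_ball hrt
  have hbK : Metric.ball c r ⊆ Metric.closedBall c r := Metric.ball_subset_closedBall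
  have hsol : Solves Ω k (Metric.ball c r) g u G := ⟨h.sob, h.eq⟩
  have hLΩ : Loc Ω k (Metric.ball c r) G := hsol.loc hΩo
  obtain ⟨m, Fi, hm, hFi, hei, hmi, hma⟩ := tra hk hr ht (h.sob.mono hΩo hBo htΩ) (hLΩ.mono hΩo hBo htΩ)
  have hWo : IsOpen (Ω \ Metric.closedBall c r) := hΩo.sdiff Metric.isClosed_closedBall
  obtain ⟨F', hF', he'⟩ := We hWo (h.sob.mono hΩo hWo Set.sdiff_subset) hk
    (hLΩ.mono hΩo hWo Set.sdiff_subset) (Or.inl (by
      rw [Set.disjoint_left]
      intro z hz hz'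
      exact hz'.2 (hbK hz)))
  have hC := Xd_Ct (k := k) hΩo hK h.sob.memG
  have hCt := Xd_tr (k := k) hΩo hK hei
  obtain ⟨C, hCd⟩ : ∃ C : ℂ → ℂ, C = Ct Ω k (Metric.ball c r) G := ⟨_, rfl⟩
  rw [← hCd] at hC
  simp only [← hCd] at hCt
  have hAo : IsOpen (Metric.ball c (r * t) \ Metric.closedBall c r) := hBo.sdiff Metric.isClosed_closedBall
  have hAW : Metric.ball c (r * t) \ Metric.closedBall c r ⊆ Ω \ Metric.closedBall c r :=
    fun z hz => ⟨htΩ hz.1, hz.2⟩
  have hAC : Metric.ball c (r * t) \ Metric.closedBall c r ⊆ (Metric.closedBall c r)ᶜ := fun z hz => hz.2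
  have hWC : Ω \ Metric.closedBall c r ⊆ (Metric.closedBall c r)ᶜ := fun z hz => hz.2
  have hagree : ∀ z ∈ Metric.ball c (r * t) \ Metric.closedBall c r, m z = F' z - C z / (2 * π) := by
    have hae : ∀ᵐ z ∂volume.restrict (Metric.ball c (r * t) \ Metric.closedBall c r),
        m z = F' z - C z / (2 * π) := by
      filter_upwards [hma, ae_restrict_of_ae_restrict_of_subset hAW he'] with z h1 h2
      rw [h2, Complex.conj_conj] at h1
      rw [h1, hCt z]
      ring
    exact Measure.eqOn_open_of_ae_eq hae hAo (hm.continuousOn.mono fun z hz => hz.1)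
      ((hF'.mono hAW).continuousOn.sub ((hC.mono hAC).continuousOn.div_const _))
  obtain ⟨M, hMd⟩ : ∃ M : ℂ → ℂ, M = fun z => if z ∈ Metric.ball c (r * t) then m z else F' z - C z / (2 * π) := ⟨_, rfl⟩
  have hM1 : ∀ z ∈ Metric.ball c (r * t), M z = m z := by
    intro z hz
    rw [hMd]
    exact if_pos hz
  have hM2 : ∀ z ∈ Ω \ Metric.closedBall c r, M z = F' z - C z / (2 * π) := by
    intro z hz
    by_cases hzy : z ∈ Metric.ball c (r * t)
    · rw [hM1 z hzy]
      exact hagree z ⟨hzy, hz.2⟩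
    · rw [hMd]
      exact if_neg hzy
  have hM3 : ∀ z ∈ Metric.ball c r, M z = ((k + 1 : ℝ) : ℂ) / 2 * Fi z := by
    intro z hz
    rw [hM1 z (hKt (hbK hz))]
    exact hmi z hz
  have hk1 : ((k + 1 : ℝ) : ℂ) / 2 ≠ 0 := by
    have : ((k + 1 : ℝ) : ℂ) ≠ 0 := by
      exact_mod_cast (by linarith : (k + 1 : ℝ) ≠ 0)
    exact div_ne_zero this two_ne_zero
  have hMhol : DifferentiableOn ℂ M Ω := by
    intro z hz
    by_cases hzy : z ∈ Metric.ball c (r * t)
    · have h1 : M =ᶠ[𝓝 z] m := by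
        filter_upwards [hBo.mem_nhds hzy] with w hw
        exact hM1 w hw
      have h2 : DifferentiableAt ℂ m z := hm.differentiableAt (hBo.mem_nhds hzy)
      exact (h2.congr_of_eventuallyEq h1).differentiableWithinAt
    · have hzW : z ∈ Ω \ Metric.closedBall c r := ⟨hz, fun h' => hzy (hKt h')⟩
      have h1 : M =ᶠ[𝓝 z] fun z => F' z - C z / (2 * π) := by
        filter_upwards [hWo.mem_nhds hzW] with w hw
        exact hM2 w hw
      have h2 : DifferentiableAt ℂ F' z := hF'.differentiableAt (hWo.mem_nhds hzW)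
      have h3 : DifferentiableAt ℂ C z :=
        hC.differentiableAt (Metric.isClosed_closedBall.isOpen_compl.mem_nhds hzW.2)
      exact ((h2.sub (h3.div_const _)).congr_of_eventuallyEq h1).differentiableWithinAt
  have hei' := hei
  rw [ae_restrict_iff' hb.measurableSet] at hei'
  refine ⟨M, ⟨hMhol, ?_, ?_, ?_, ?_⟩⟩
  · rw [Kp_disk c hr, Dp_disk c hr, ← hCd]
    filter_upwards [he', ae_restrict_mem hWo.measurableSet] with z h1 h2
    rw [h1, Complex.conj_conj, hM2 z h2]
    ring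
  · intro N A _ _ _
    rw [RR_disk, add_zero, Dp_disk c hr, ← integral_const_mul]
    refine setIntegral_congr_ae hb.measurableSet ?_
    filter_upwards [hei'] with z hz hzD
    rw [hz hzD, hM3 z hzD, map_mul, map_div₀, Complex.conj_ofReal, map_ofNat]
    ring
  · intro h0
    rw [Dp_disk c hr] at h0 ⊢
    rw [ae_restrict_iff' hb.measurableSet]
    filter_upwards [hei'] with z hz hzD
    have h1 := h0 z hzD
    rw [hM3 z hzD] at h1
    rw [hz hzD, (mul_eq_zero.1 h1).resolve_left hk1, map_zero]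
  · intro h0
    have h1 := h0 Ω M hΩo (by rw [Kp_disk c hr]; exact hK) hMhol
    rw [Dp_disk c hr] at h1 ⊢
    have h2 : ∫ z in Metric.ball c r, G z * M z =
        ((k + 1 : ℝ) : ℂ) / 2 * ((∫ z in Metric.ball c r, ‖G z‖ ^ 2 : ℝ) : ℂ) := by
      have e0 : ((∫ z in Metric.ball c r, ‖G z‖ ^ 2 : ℝ) : ℂ) = ∫ z in Metric.ball c r, ((‖G z‖ ^ 2 : ℝ) : ℂ) :=
        integral_ofReal.symm
      rw [e0, ← integral_const_mul]
      refine setIntegral_congr_ae hb.measurableSet ?_
      filter_upwards [hei'] with z hz hzD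
      rw [hM3 z hzD, hz hzD, RCLike.norm_conj]
      have h3 : conj (Fi z) * Fi z = ((‖Fi z‖ ^ 2 : ℝ) : ℂ) := by
        rw [mul_comm, Complex.mul_conj, Complex.normSq_eq_norm_sq]
      linear_combination (((k + 1 : ℝ) : ℂ) / 2) * h3
    rw [h2] at h1
    have h4 : (∫ z in Metric.ball c r, ‖G z‖ ^ 2 : ℝ) = 0 := by
      exact_mod_cast (mul_eq_zero.1 h1).resolve_left hk1
    have hG2 : MemLp G 2 (volume.restrict (Metric.ball c r)) :=
      h.sob.memG.mono_measure (Measure.restrict_mono (hbK.trans hK) le_rfl)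
    have h5 : Integrable (fun z => ‖G z‖ ^ 2) (volume.restrict (Metric.ball c r)) := hG2.integrable_norm_pow (by norm_num)
    rw [integral_eq_zero_iff_of_nonneg (fun z => by positivity) h5] at h4
    filter_upwards [h4] with z hz
    have h6 : ‖G z‖ ^ 2 = 0 := hz
    exact norm_eq_zero.1 (pow_eq_zero_iff (two_ne_zero)|>.1 h6)

end EX1
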