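import Pool.Agent.H1.EX.D
import Pool.Agent.H1.EW.Ga
import Pool.Agent.H1.EW.Pf

/-!
ROW EX/Xe. The background fields of two solutions with the same data agree on `Ω`. This is the second half of the proof of `common` in `EW/Pf.lean` (read it), with `De`, `{lv ≤ lx}` replaced by `Dp _ _ _ 1`, `Kp` (compact convex: `cDp_compact`, `Dp_convex` style proof,
`EW/Ga.lean`): `W = (Kp₁ ∪ Kp₂)ᶜ` is open and preconnected (`Wp`), contains `Ωᶜ`, `W ∩ Ω` is nonempty (`Pf_W`, private in `Pf.lean`: copy it); `Zx`: `G₁ = G₂` a.e. on `W ∩ Ω`; `Me`: `Ct₁ z = Ct₂ z` for large `‖z‖`; both are holomorphic on `W`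
(`Ct Ω k D G z = ∫_D (k-1) G w/(z-w)²`, `G` integrable on `D`, `D ⊆ Kp` compact: see `Pf_C` in `Pf.lean` for the lemma used there), hence equal on `W`; so `M₁ = M₂` a.e. on `W ∩ Ω`, hence on `Ω`.
-/

set_option autoImplicit false

namespace EX1

open Complex Set Filter Topology MeasureTheory MD12 ED1 EW1
open scoped ComplexConjugate ContDiff Real

private theorem Xe_cpt {c : ℂ} {r : ℝ} {μ : ℂ} (hr : 0 < r) (hμ : ‖μ‖ < 1) : IsCompact (Kp c r μ) :=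
  cDp_compact hr hμ 1

private theorem Xe_cvx {c : ℂ} {r : ℝ} {μ : ℂ} : Convex ℝ (Kp c r μ) := by
  have h : Kp c r μ = ⋂ σ : {σ : ℝ // 1 < σ}, Dp c r μ σ := by
    ext z
    simp only [Set.mem_iInter]
    constructor
    · intro hz σ
      have h1 : ‖vv c r μ z‖ ≤ 1 := hz
      exact lt_of_le_of_lt h1 σ.2
    · intro hz
      show ‖vv c r μ z‖ ≤ 1
      refine le_of_forall_gt_imp_ge_of_dense fun σ hσ => ?_
      have h1 : ‖vv c r μ z‖ < σ := hz ⟨σ, hσ⟩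
      exact h1.le
  rw [h]
  exact convex_iInter fun σ => Dp_convex c r μ σ

private theorem Xe_sub {c : ℂ} {r : ℝ} {μ : ℂ} : Dp c r μ 1 ⊆ Kp c r μ := fun z hz => by
  have h1 : ‖vv c r μ z‖ < 1 := hz
  exact h1.le

private theorem Xe_hol {Ω : Set ℂ} (hΩo : IsOpen Ω) {k : ℝ} {c : ℂ} {r : ℝ} {μ : ℂ} (hr : 0 < r) (hμ : ‖μ‖ < 1)
    (hK : Kp c r μ ⊆ Ω) {G : ℂ → ℂ} (hG : MemLp G 2 (volume.restrict Ω)) :
    DifferentiableOn ℂ (Ct Ω k (Dp c r μ 1) G) (Kp c r μ)ᶜ := by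
  have hKc : IsCompact (Kp c r μ) := Xe_cpt hr hμ
  have hGK : IntegrableOn G (Kp c r μ) := by
    have h1 : MemLp G 2 (volume.restrict (Kp c r μ)) := hG.mono_measure (Measure.restrict_mono hK le_rfl)
    have : IsFiniteMeasure (volume.restrict (Kp c r μ)) := ⟨by
      rw [Measure.restrict_apply_univ]
      exact hKc.measure_lt_top⟩
    exact h1.integrable (by norm_num)
  have hDm : MeasurableSet (Dp c r μ 1) := (Dp_open c r μ 1).measurableSet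
  have hf : IntegrableOn (fun w => ((MD12.cond k (Dp c r μ 1) w - 1 : ℝ) : ℂ) * G w) (Kp c r μ) := by
    have h2 : (fun w => ((MD12.cond k (Dp c r μ 1) w - 1 : ℝ) : ℂ) * G w) =
        fun w => ((k - 1 : ℝ) : ℂ) * (Dp c r μ 1).indicator G w := by
      funext w
      unfold MD12.cond
      by_cases h : w ∈ Dp c r μ 1
      · rw [Set.indicator_of_mem h, Set.indicator_of_mem h]
        push_cast
        ring
      · rw [Set.indicator_of_notMem h, Set.indicator_of_notMem h]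
        push_cast
        ring
    rw [h2]
    exact (hGK.indicator hDm).const_mul _
  refine (C2 hKc hf).congr fun z _ => ?_
  unfold Ct
  refine setIntegral_eq_of_subset_of_forall_sdiff_eq_zero hΩo.measurableSet hK ?_
  intro w hw
  have : MD12.cond k (Dp c r μ 1) w = 1 := by
    unfold MD12.cond
    rw [Set.indicator_of_notMem (fun h => hw.2 (Xe_sub h)), mul_zero, add_zero]
  rw [this]
  simp

private theorem Xe_W {Ω K : Set ℂ} (hΩo : IsOpen Ω) (hΩb : Bornology.IsBounded Ω) (hne : Ω.Nonempty)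
    (hK : IsCompact K) (hKΩ : K ⊆ Ω) : (Kᶜ ∩ Ω).Nonempty := by
  by_contra hemp
  rw [Set.not_nonempty_iff_eq_empty] at hemp
  have h1 : Ω ⊆ K := by
    intro z hz
    by_contra hzK
    have : z ∈ Kᶜ ∩ Ω := ⟨hzK, hz⟩
    rw [hemp] at this
    exact this
  have h2 : Ω = K := Set.Subset.antisymm h1 hKΩ
  have h3 : IsClopen Ω := ⟨by rw [h2]; exact hK.isClosed, hΩo⟩
  rcases isClopen_iff.1 h3 with h4 | h4
  · rw [h4] at hne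
    exact Set.not_nonempty_empty hne
  · rw [h4] at hΩb
    exact NormedSpace.unbounded_univ ℝ ℂ hΩb

theorem cmn {Ω : Set ℂ} (hΩo : IsOpen Ω) (hΩb : Bornology.IsBounded Ω) (hΩc : IsPreconnected Ω) {k : ℝ}
    {c₁ : ℂ} {r₁ : ℝ} {μ₁ c₂ : ℂ} {r₂ : ℝ} {μ₂ : ℂ} (hr₁ : 0 < r₁) (hr₂ : 0 < r₂) (hμ₁ : ‖μ₁‖ < 1) (hμ₂ : ‖μ₂‖ < 1)
    (hK₁ : Kp c₁ r₁ μ₁ ⊆ Ω) (hK₂ : Kp c₂ r₂ μ₂ ⊆ Ω) {g u₁ u₂ : ℂ → ℝ} {G₁ G₂ M₁ M₂ : ℂ → ℂ}
    (h₁ : SolvesC Ω (MD12.cond k (Dp c₁ r₁ μ₁ 1)) g u₁ G₁) (h₂ : SolvesC Ω (MD12.cond k (Dp c₂ r₂ μ₂ 1)) g u₂ G₂)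
    (ht : SameTrace Ω u₁ u₂ G₁ G₂) (hM₁ : DifferentiableOn ℂ M₁ Ω) (hM₂ : DifferentiableOn ℂ M₂ Ω)
    (ho₁ : ∀ᵐ z ∂volume.restrict (Ω \ Kp c₁ r₁ μ₁), conj (G₁ z) = M₁ z + Ct Ω k (Dp c₁ r₁ μ₁ 1) G₁ z / (2 * π))
    (ho₂ : ∀ᵐ z ∂volume.restrict (Ω \ Kp c₂ r₂ μ₂), conj (G₂ z) = M₂ z + Ct Ω k (Dp c₂ r₂ μ₂ 1) G₂ z / (2 * π)) :
    ∀ z ∈ Ω, M₁ z = M₂ z := by
  have k₁ := Xe_cpt (c := c₁) hr₁ hμ₁
  have k₂ := Xe_cpt (c := c₂) hr₂ hμ₂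
  have hc := Wp k₁ k₂ Xe_cvx Xe_cvx
  have hWo : IsOpen (Kp c₁ r₁ μ₁ ∪ Kp c₂ r₂ μ₂)ᶜ := (k₁.union k₂).isClosed.isOpen_compl
  have hKΩ : Kp c₁ r₁ μ₁ ∪ Kp c₂ r₂ μ₂ ⊆ Ω := Set.union_subset hK₁ hK₂
  obtain ⟨W, hW⟩ : ∃ W : Set ℂ, W = (Kp c₁ r₁ μ₁ ∪ Kp c₂ r₂ μ₂)ᶜ := ⟨_, rfl⟩
  have hW1 : W ⊆ (Kp c₁ r₁ μ₁)ᶜ := by
    rw [hW]
    exact Set.compl_subset_compl.2 Set.subset_union_left
  have hW2 : W ⊆ (Kp c₂ r₂ μ₂)ᶜ := by
    rw [hW]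
    exact Set.compl_subset_compl.2 Set.subset_union_right
  have hne : Ω.Nonempty := ⟨c₁, hK₁ (by
    show ‖vv c₁ r₁ μ₁ c₁‖ ≤ 1
    unfold vv
    simp)⟩
  have hWne := Xe_W hΩo hΩb hne (k₁.union k₂) hKΩ
  rw [← hW] at hc hWo hWne
  have hWK : Ωᶜ ⊆ W := by
    rw [hW]
    exact Set.compl_subset_compl.2 hKΩ
  have hcd : ∀ (c : ℂ) (r : ℝ) (μ : ℂ) (z : ℂ), z ∈ (Kp c r μ)ᶜ → MD12.cond k (Dp c r μ 1) z = 1 := by
    intro c r μ z hz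
    unfold MD12.cond
    rw [Set.indicator_of_notMem (fun h => hz (Xe_sub h)), mul_zero, add_zero]
  have hGG := Zx hΩo hΩb h₁ h₂ ht hWo hc hWK (fun z hz => hcd c₁ r₁ μ₁ z (hW1 hz))
    (fun z hz => hcd c₂ r₂ μ₂ z (hW2 hz))
  obtain ⟨R, hR⟩ := Me hΩo hΩb (TSOB_cond_meas k (Dp_open c₁ r₁ μ₁ 1).measurableSet)
    (TSOB_cond_meas k (Dp_open c₂ r₂ μ₂ 1).measurableSet) (M := 1 + |k - 1|)
    (fun z => TSOB_cond_bdd k (Dp c₁ r₁ μ₁ 1) z) (fun z => TSOB_cond_bdd k (Dp c₂ r₂ μ₂ 1) z) h₁ h₂ ht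
  -- the transforms agree
  have hD₁ := (Xe_hol (k := k) hΩo hr₁ hμ₁ hK₁ h₁.sob.memG).mono hW1
  have hD₂ := (Xe_hol (k := k) hΩo hr₂ hμ₂ hK₂ h₂.sob.memG).mono hW2
  obtain ⟨R0, hR0⟩ := hΩb.subset_closedBall (0 : ℂ)
  obtain ⟨p, hp1, hp2⟩ : ∃ p : ℂ, R < ‖p‖ ∧ p ∈ W := by
    refine ⟨((max |R| |R0| + 1 : ℝ) : ℂ), ?_, hWK fun hx => ?_⟩
    · rw [Complex.norm_real, Real.norm_eq_abs, abs_of_pos (by positivity)]
      linarith [le_abs_self R, le_max_left |R| |R0|]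
    · have h3 := mem_closedBall_zero_iff.1 (hR0 hx)
      rw [Complex.norm_real, Real.norm_eq_abs, abs_of_pos (by positivity)] at h3
      linarith [le_abs_self R0, le_max_right |R| |R0|]
  have hev : Ct Ω k (Dp c₁ r₁ μ₁ 1) G₁ =ᶠ[𝓝 p] Ct Ω k (Dp c₂ r₂ μ₂ 1) G₂ := by
    filter_upwards [(isOpen_lt continuous_const continuous_norm).mem_nhds hp1] with z hz
    exact hR z hz
  have hCC := (hD₁.analyticOnNhd hWo).eqOn_of_preconnected_of_eventuallyEq (hD₂.analyticOnNhd hWo) hc hp2 hev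
  -- the fields agree near a point
  have hMM : ∀ᵐ z ∂volume.restrict (W ∩ Ω), M₁ z = M₂ z := by
    have a1 := ae_restrict_of_ae_restrict_of_subset
      (fun z hz => ⟨hz.2, hW1 hz.1⟩ : W ∩ Ω ⊆ Ω \ Kp c₁ r₁ μ₁) ho₁
    have a2 := ae_restrict_of_ae_restrict_of_subset
      (fun z hz => ⟨hz.2, hW2 hz.1⟩ : W ∩ Ω ⊆ Ω \ Kp c₂ r₂ μ₂) ho₂
    filter_upwards [a1, a2, hGG, ae_restrict_mem (hWo.inter hΩo).measurableSet] with z h1 h2 h3 h4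
    have h5 := hCC h4.1
    rw [h3, h2, h5] at h1
    exact (add_right_cancel h1).symm
  have hEq : Set.EqOn M₁ M₂ (W ∩ Ω) := Measure.eqOn_open_of_ae_eq hMM (hWo.inter hΩo)
    (hM₁.mono Set.inter_subset_right).continuousOn (hM₂.mono Set.inter_subset_right).continuousOn
  obtain ⟨q, hq⟩ := hWne
  have hevq : M₁ =ᶠ[𝓝 q] M₂ := by
    filter_upwards [(hWo.inter hΩo).mem_nhds hq] with z hz
    exact hEq hz
  exact fun z hz => (hM₁.analyticOnNhd hΩo).eqOn_of_preconnected_of_eventuallyEq (hM₂.analyticOnNhd hΩo) hΩc hq.2 hevq hz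

end EX1
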