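import Pool.Agent.H1.EX.D
import Pool.Agent.H1.EW.Ga
import Pool.Agent.H1.EW.Pg

/-!
ROW EX/Xf. `oidG`: as `Oid'` in `EW/Pg.lean` (its proof and private lemmas `Pg_prim`, `Pg_test`, `Pg_one`, `Pg_cm`, `Pg_side` can be copied, they are general), with the convex open neighbourhoods `Dp c r μ σ` (`σ > 1` close to `1`, in `N`: compactness of `Kp`) instead of `De`.
`disj`: the closed ellipses are disjoint: for `A` holomorphic near `Kp₁` apply `oidG` to the function `A` near `Kp₁`, `0` near `Kp₂` (disjoint open neighbourhoods of the two compact sets): `∫_{D₁} G₁ A = 0`.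
-/

set_option autoImplicit false

namespace EX1

open Complex Set Filter Topology MeasureTheory MD12 ED1 EW1
open scoped ComplexConjugate ContDiff Real

private theorem Xf_re {f : ℂ → ℂ} {f' w : ℂ} (h : HasDerivAt f f' w) (v : ℂ) :
    fderiv ℝ (fun w => (f w).re) w v = (v * f').re := by
  have h1 := h.hasFDerivAt.restrictScalars ℝ
  have h2 := (Complex.reCLM.hasFDerivAt.comp w h1).fderiv
  have h3 : (fun w => (f w).re) = Complex.reCLM ∘ f := rfl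
  rw [h3, h2]
  simp

private theorem Xf_d1 {V : Set ℂ} (hV : IsOpen V) {P A : ℂ → ℂ}
    (hP : ∀ z ∈ V, HasDerivAt P (A z) z) {e : ℂ} {φ : ℂ → ℝ}
    (h : ∀ w ∈ V, φ w = (e * P w).re) {w : ℂ} (hw : w ∈ V) (v : ℂ) :
    fderiv ℝ φ w v = (v * (e * A w)).re := by
  have h1 : φ =ᶠ[𝓝 w] fun w => (e * P w).re := by
    filter_upwards [hV.mem_nhds hw] with w' hw'
    exact h w' hw'
  rw [h1.fderiv_eq]
  exact Xf_re ((hP w hw).const_mul e) v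

private theorem Xf_lap {V : Set ℂ} (hV : IsOpen V) {P A : ℂ → ℂ}
    (hP : ∀ z ∈ V, HasDerivAt P (A z) z) (hA : DifferentiableOn ℂ A V) {e : ℂ} {φ : ℂ → ℝ}
    (h : ∀ w ∈ V, φ w = (e * P w).re) {w : ℂ} (hw : w ∈ V) : lap φ w = 0 := by
  have hA' : HasDerivAt A (deriv A w) w := (hA.differentiableAt (hV.mem_nhds hw)).hasDerivAt
  have h1 : ∀ v : ℂ, fderiv ℝ (fun w => fderiv ℝ φ w v) w v =
      (v * ((v * e) * deriv A w)).re := by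
    intro v
    have h2 : (fun w => fderiv ℝ φ w v) =ᶠ[𝓝 w] fun w => ((v * e) * A w).re := by
      filter_upwards [hV.mem_nhds hw] with w' hw'
      rw [Xf_d1 hV hP h hw' v, mul_assoc]
    rw [h2.fderiv_eq]
    exact Xf_re (hA'.const_mul (v * e)) v
  unfold lap
  rw [h1 1, h1 I, ← Complex.add_re]
  have h3 : (1 : ℂ) * ((1 * e) * deriv A w) + I * ((I * e) * deriv A w) = 0 := by
    linear_combination (e * deriv A w) * Complex.I_mul_I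
  rw [h3, Complex.zero_re]

private theorem Xf_prim {N₁ N₂ : Set ℂ} (h₁o : IsOpen N₁) (h₂o : IsOpen N₂)
    (h₁c : Convex ℝ N₁) (h₂c : Convex ℝ N₂) {A : ℂ → ℂ} (hA : DifferentiableOn ℂ A (N₁ ∪ N₂)) :
    ∃ P : ℂ → ℂ, ∀ z ∈ N₁ ∪ N₂, HasDerivAt P (A z) z := by
  classical
  obtain ⟨P₁, hP₁⟩ := h₁c.exists_forall_hasDerivWithinAt (hA.mono subset_union_left)
  obtain ⟨P₂, hP₂⟩ := h₂c.exists_forall_hasDerivWithinAt (hA.mono subset_union_right)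
  have hP₁' : ∀ z ∈ N₁, HasDerivAt P₁ (A z) z :=
    fun z hz => (hP₁ z hz).hasDerivAt (h₁o.mem_nhds hz)
  have hP₂' : ∀ z ∈ N₂, HasDerivAt P₂ (A z) z :=
    fun z hz => (hP₂ z hz).hasDerivAt (h₂o.mem_nhds hz)
  obtain ⟨c, hc⟩ : ∃ c, ∀ z ∈ N₁ ∩ N₂, P₁ z = P₂ z + c := by
    rcases (N₁ ∩ N₂).eq_empty_or_nonempty with h | ⟨p, hp⟩
    · exact ⟨0, fun z hz => by rw [h] at hz; exact hz.elim⟩
    · refine ⟨P₁ p - P₂ p, fun z hz => ?_⟩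
      have h1 : ∀ w ∈ N₁ ∩ N₂, HasDerivAt (fun w => P₁ w - P₂ w) 0 w := fun w hw => by
        have := (hP₁' w hw.1).sub (hP₂' w hw.2)
        rw [sub_self] at this
        exact this
      have h2 := (h₁o.inter h₂o).is_const_of_deriv_eq_zero (h₁c.inter h₂c).isPreconnected
        (fun w hw => (h1 w hw).differentiableAt.differentiableWithinAt)
        (fun w hw => (h1 w hw).deriv) hz hp
      linear_combination h2
  refine ⟨fun z => if z ∈ N₁ then P₁ z else P₂ z + c, ?_⟩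
  rintro z (hz | hz)
  · refine (hP₁' z hz).congr_of_eventuallyEq ?_
    filter_upwards [h₁o.mem_nhds hz] with w hw
    rw [if_pos hw]
  · refine ((hP₂' z hz).add_const c).congr_of_eventuallyEq ?_
    filter_upwards [h₂o.mem_nhds hz] with w hw
    split_ifs with h
    · exact hc w ⟨h, hw⟩
    · rfl

private theorem Xf_test {K N : Set ℂ} (hK : IsCompact K) (hN : IsOpen N) (hKN : K ⊆ N)
    {P : ℂ → ℂ} (hP : DifferentiableOn ℂ P N) (e : ℂ) :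
    ∃ (φ : ℂ → ℝ) (V : Set ℂ), IsTest φ ∧ IsOpen V ∧ K ⊆ V ∧ V ⊆ N ∧
      ∀ w ∈ V, φ w = (e * P w).re := by
  obtain ⟨V, hVo, hKV, hVN, hVc⟩ := exists_open_between_and_isCompact_closure hK hN hKN
  obtain ⟨V', hV'o, hVV', hV'N, hV'c⟩ := exists_open_between_and_isCompact_closure hVc hN hVN
  obtain ⟨f, hf0, hf1, -⟩ := exists_contMDiffMap_zero_one_of_isClosed (n := ⊤)
    (modelWithCornersSelf ℝ ℂ) (s := V'ᶜ) (t := closure V) hV'o.isClosed_compl isClosed_closure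
    (disjoint_compl_left_iff_subset.2 hVV')
  have hfc : HasCompactSupport (f : ℂ → ℝ) :=
    HasCompactSupport.intro' hV'c isClosed_closure
      (fun x hx => hf0 (fun h => hx (subset_closure h)))
  have hft : tsupport (f : ℂ → ℝ) ⊆ N := by
    refine (closure_minimal ?_ isClosed_closure).trans hV'N
    intro x hx
    by_contra h
    exact hx (hf0 (fun h' => h (subset_closure h')))
  have hfs : ContDiff ℝ ∞ (f : ℂ → ℝ) := f.contMDiff.contDiff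
  refine ⟨fun w => f w * (e * P w).re, V, ⟨?_, hfc.mul_right⟩, hVo, hKV,
    subset_closure.trans hVN, ?_⟩
  · rw [contDiff_iff_contDiffAt]
    intro w
    by_cases hw : w ∈ N
    · refine hfs.contDiffAt.mul ?_
      have h1 : ContDiffAt ℝ ∞ P w :=
        ((hP.analyticAt (hN.mem_nhds hw)).contDiffAt (n := ∞)).restrict_scalars ℝ
      have h2 : ContDiffAt ℝ ∞ (fun w => e * P w) w := contDiffAt_const.mul h1
      exact Complex.reCLM.contDiff.contDiffAt.comp w h2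
    · have h1 : (f : ℂ → ℝ) =ᶠ[𝓝 w] 0 := notMem_tsupport_iff_eventuallyEq.1 (fun h => hw (hft h))
      have h2 : (fun w => f w * (e * P w).re) =ᶠ[𝓝 w] fun _ => 0 := by
        filter_upwards [h1] with w' hw'
        rw [hw']
        simp
      exact contDiffAt_const.congr_of_eventuallyEq h2
  · intro w hw
    show f w * (e * P w).re = _
    rw [hf1 (subset_closure hw)]
    simp

private theorem Xf_int {Ω : Set ℂ} {G : ℂ → ℂ} (hG : MemLp G 2 (volume.restrict Ω)) {φ : ℂ → ℝ}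
    (hφ : IsTest φ) : Integrable (fun z => fderiv ℝ φ z (G z)) (volume.restrict Ω) := by
  have h1 := pdb_int (pdb_inner hG 1) (hφ.fd 1).1
  have h2 := pdb_int (pdb_inner hG I) (hφ.fd I).1
  refine (h1.add h2).congr (Eventually.of_forall fun z => ?_)
  exact (fd_eq φ z (G z)).symm

private theorem Xf_one {Ω : Set ℂ} (hΩo : IsOpen Ω) {σ₁ σ₂ : ℂ → ℝ}
    (hm₁ : Measurable σ₁) (hm₂ : Measurable σ₂) {M : ℝ} (hM₁ : ∀ z, |σ₁ z| ≤ M) (hM₂ : ∀ z, |σ₂ z| ≤ M)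
    {g u₁ u₂ : ℂ → ℝ} {G₁ G₂ : ℂ → ℂ} (h₁ : SolvesC Ω σ₁ g u₁ G₁) (h₂ : SolvesC Ω σ₂ g u₂ G₂)
    (ht : SameTrace Ω u₁ u₂ G₁ G₂) {φ : ℂ → ℝ} (hφ : IsTest φ)
    (hl : ∀ᵐ w ∂volume.restrict Ω, (u₁ w - u₂ w) * lap φ w = 0) :
    ∫ w in Ω, (σ₁ w - 1) * fderiv ℝ φ w (G₁ w) = ∫ w in Ω, (σ₂ w - 1) * fderiv ℝ φ w (G₂ w) := by
  have i1 := Xf_int h₁.sob.memG hφ
  have i2 := Xf_int h₂.sob.memG hφ
  have hb : ∀ {σ : ℂ → ℝ} (_ : Measurable σ) (_ : ∀ z, |σ z| ≤ M) {f : ℂ → ℝ}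
      (_ : Integrable f (volume.restrict Ω)), Integrable (fun z => σ z * f z) (volume.restrict Ω) :=
    fun hm hM _ hf => hf.bdd_mul hm.aestronglyMeasurable (Eventually.of_forall fun z => hM z)
  have e1 : ∫ w in Ω, σ₁ w * fderiv ℝ φ w (G₁ w) = ∫ w in Ω, σ₂ w * fderiv ℝ φ w (G₂ w) := by
    rw [h₁.eq φ hφ, h₂.eq φ hφ]
  have hS := zex_sob hΩo h₁.sob h₂.sob ht
  have e2 := sob_lap hS hφ (subset_univ _)
  rw [zex_int hΩo] at e2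
  have e3 : ∫ z in Ω, (u₁ z - u₂ z) * lap φ z = 0 := by
    rw [integral_congr_ae (g := fun _ => (0 : ℝ)) hl]
    simp
  have e4 : ∫ z in Set.univ, fderiv ℝ φ z ((Ω.indicator fun z => G₁ z - G₂ z) z) =
      ∫ z in Ω, (fderiv ℝ φ z (G₁ z) - fderiv ℝ φ z (G₂ z)) := by
    rw [setIntegral_univ, ← integral_indicator hΩo.measurableSet]
    refine integral_congr_ae (Eventually.of_forall fun z => ?_)
    by_cases hz : z ∈ Ω
    · simp only [Set.indicator_of_mem hz, map_sub]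
    · simp only [Set.indicator_of_notMem hz, map_zero]
  rw [e3, e4, integral_sub i1 i2] at e2
  have e5 : ∫ w in Ω, (σ₁ w - 1) * fderiv ℝ φ w (G₁ w) =
      (∫ w in Ω, σ₁ w * fderiv ℝ φ w (G₁ w)) - ∫ w in Ω, fderiv ℝ φ w (G₁ w) := by
    rw [← integral_sub (hb hm₁ hM₁ i1) i1]
    refine integral_congr_ae (Eventually.of_forall fun w => ?_)
    show (σ₁ w - 1) * fderiv ℝ φ w (G₁ w) = _
    ring
  have e6 : ∫ w in Ω, (σ₂ w - 1) * fderiv ℝ φ w (G₂ w) =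
      (∫ w in Ω, σ₂ w * fderiv ℝ φ w (G₂ w)) - ∫ w in Ω, fderiv ℝ φ w (G₂ w) := by
    rw [← integral_sub (hb hm₂ hM₂ i2) i2]
    refine integral_congr_ae (Eventually.of_forall fun w => ?_)
    show (σ₂ w - 1) * fderiv ℝ φ w (G₂ w) = _
    ring
  rw [e5, e6, e1]
  linarith

private theorem Xf_cm (k : ℝ) {D : Set ℂ} (hD : MeasurableSet D) :
    Measurable (MD12.cond k D) ∧ ∀ z, |MD12.cond k D z| ≤ 1 + |k - 1| := by
  constructor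
  · unfold MD12.cond
    exact measurable_const.add (measurable_const.mul (measurable_const.indicator hD))
  · intro z
    unfold MD12.cond
    refine (abs_add_le _ _).trans ?_
    rw [abs_one, abs_mul]
    by_cases hz : z ∈ D
    · rw [Set.indicator_of_mem hz, abs_one, mul_one]
    · rw [Set.indicator_of_notMem hz, abs_zero, mul_zero]
      linarith [abs_nonneg (k - 1)]

private theorem Xf_side {Ω : Set ℂ} (hΩo : IsOpen Ω) {k : ℝ} {D K V : Set ℂ} (hDo : IsOpen D)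
    (hDK : D ⊆ K) (hK : IsCompact K) (hKΩ : K ⊆ Ω) (hV : IsOpen V) (hKV : K ⊆ V) {P A : ℂ → ℂ}
    (hP : ∀ z ∈ V, HasDerivAt P (A z) z) (hA : ContinuousOn A K) {e : ℂ} {φ : ℂ → ℝ}
    (h : ∀ w ∈ V, φ w = (e * P w).re) {G : ℂ → ℂ} (hG : MemLp G 2 (volume.restrict Ω)) :
    ∫ w in Ω, (MD12.cond k D w - 1) * fderiv ℝ φ w (G w) =
      (k - 1) * (e * ∫ z in D, G z * A z).re := by
  have hDΩ : D ⊆ Ω := hDK.trans hKΩ
  have hfin : IsFiniteMeasure (volume.restrict D) :=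
    ⟨by rw [Measure.restrict_apply_univ]; exact (hK.isBounded.subset hDK).measure_lt_top⟩
  have hGi : Integrable G (volume.restrict D) :=
    (hG.mono_measure (Measure.restrict_mono hDΩ le_rfl)).integrable (by norm_num)
  obtain ⟨C, hC⟩ := hK.exists_bound_of_continuousOn hA
  have hGA : Integrable (fun z => G z * A z) (volume.restrict D) := by
    have h1 : Integrable (fun z => A z * G z) (volume.restrict D) := by
      refine hGi.bdd_mul (c := C) ((hA.mono hDK).aestronglyMeasurable hDo.measurableSet) ?_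
      filter_upwards [ae_restrict_mem hDo.measurableSet] with w hw
      exact hC w (hDK hw)
    refine h1.congr (Eventually.of_forall fun w => ?_)
    show A w * G w = G w * A w
    ring
  have e1 : ∫ w in Ω, (MD12.cond k D w - 1) * fderiv ℝ φ w (G w) =
      ∫ w in D, (k - 1) * fderiv ℝ φ w (G w) := by
    rw [← integral_indicator hΩo.measurableSet, ← integral_indicator hDo.measurableSet]
    refine integral_congr_ae (Eventually.of_forall fun w => ?_)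
    by_cases hw : w ∈ D
    · simp only [Set.indicator_of_mem hw, Set.indicator_of_mem (hDΩ hw), MD12.cond]
      ring
    · by_cases hw' : w ∈ Ω
      · simp only [Set.indicator_of_notMem hw, Set.indicator_of_mem hw', MD12.cond]
        ring
      · simp only [Set.indicator_of_notMem hw, Set.indicator_of_notMem hw']
  rw [e1, integral_const_mul]
  congr 1
  have h6 := Complex.reCLM.integral_comp_comm (hGA.const_mul e)
  rw [integral_const_mul] at h6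
  refine Eq.trans ?_ h6
  refine setIntegral_congr_fun hDo.measurableSet fun w hw => ?_
  show fderiv ℝ φ w (G w) = (e * (G w * A w)).re
  rw [Xf_d1 hV hP h (hKV (hDK hw))]
  congr 1
  ring

theorem Xf_gen {Ω : Set ℂ} (hΩo : IsOpen Ω) (hΩb : Bornology.IsBounded Ω) {k : ℝ} (hk1 : k ≠ 1)
    {D₁ D₂ K₁ K₂ N : Set ℂ} (hDo₁ : IsOpen D₁) (hDo₂ : IsOpen D₂) (hD₁ : D₁ ⊆ K₁) (hD₂ : D₂ ⊆ K₂)
    (hK₁ : IsCompact K₁) (hK₂ : IsCompact K₂) (hc₁ : Convex ℝ K₁) (hc₂ : Convex ℝ K₂)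
    (hK₁Ω : K₁ ⊆ Ω) (hK₂Ω : K₂ ⊆ Ω) (hNo : IsOpen N) (hKN : K₁ ∪ K₂ ⊆ N)
    {g u₁ u₂ : ℂ → ℝ} {G₁ G₂ : ℂ → ℂ}
    (h₁ : SolvesC Ω (MD12.cond k D₁) g u₁ G₁) (h₂ : SolvesC Ω (MD12.cond k D₂) g u₂ G₂)
    (ht : SameTrace Ω u₁ u₂ G₁ G₂) {A P : ℂ → ℂ} (hA : DifferentiableOn ℂ A N)
    (hP : ∀ z ∈ N, HasDerivAt P (A z) z) :
    ∫ z in D₁, G₁ z * A z = ∫ z in D₂, G₂ z * A z := by
  have hWo : IsOpen (K₁ ∪ K₂)ᶜ := (hK₁.isClosed.union hK₂.isClosed).isOpen_compl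
  have hu := Zu hΩo hΩb h₁ h₂ ht hWo (Wp hK₁ hK₂ hc₁ hc₂)
    (compl_subset_compl.2 (union_subset hK₁Ω hK₂Ω))
    (fun z hz => by
      unfold MD12.cond
      rw [Set.indicator_of_notMem (fun h => hz (Or.inl (hD₁ h))), mul_zero, add_zero])
    (fun z hz => by
      unfold MD12.cond
      rw [Set.indicator_of_notMem (fun h => hz (Or.inr (hD₂ h))), mul_zero, add_zero])
  have hPd : DifferentiableOn ℂ P N :=
    fun z hz => (hP z hz).differentiableAt.differentiableWithinAt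
  have key : ∀ e : ℂ, (e * ∫ z in D₁, G₁ z * A z).re = (e * ∫ z in D₂, G₂ z * A z).re := by
    intro e
    obtain ⟨φ, V, hφ, hVo, hKV, hVN, hφV⟩ := Xf_test (hK₁.union hK₂) hNo hKN hPd e
    have hPV : ∀ z ∈ V, HasDerivAt P (A z) z := fun z hz => hP z (hVN hz)
    have hl : ∀ᵐ w ∂volume.restrict Ω, (u₁ w - u₂ w) * lap φ w = 0 := by
      have h5 : ∀ᵐ w ∂volume, w ∈ (K₁ ∪ K₂)ᶜ ∩ Ω → u₁ w = u₂ w :=
        (ae_restrict_iff' (hWo.inter hΩo).measurableSet).1 hu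
      filter_upwards [ae_restrict_of_ae h5, ae_restrict_mem hΩo.measurableSet] with w h6 h7
      by_cases hw : w ∈ K₁ ∪ K₂
      · rw [Xf_lap hVo hPV (hA.mono hVN) hφV (hKV hw), mul_zero]
      · rw [h6 ⟨hw, h7⟩, sub_self, zero_mul]
    obtain ⟨m1, b1⟩ := Xf_cm k hDo₁.measurableSet
    obtain ⟨m2, b2⟩ := Xf_cm k hDo₂.measurableSet
    have h3 := Xf_one hΩo m1 m2 b1 b2 h₁ h₂ ht hφ hl
    rw [Xf_side hΩo hDo₁ hD₁ hK₁ hK₁Ω hVo (subset_union_left.trans hKV) hPV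
        (hA.continuousOn.mono (subset_union_left.trans hKN)) hφV h₁.sob.memG,
      Xf_side hΩo hDo₂ hD₂ hK₂ hK₂Ω hVo (subset_union_right.trans hKV) hPV
        (hA.continuousOn.mono (subset_union_right.trans hKN)) hφV h₂.sob.memG] at h3
    exact mul_left_cancel₀ (sub_ne_zero.2 hk1) h3
  apply Complex.ext
  · have := key 1
    rwa [one_mul, one_mul] at this
  · have h8 := key (-I)
    simp only [neg_mul, Complex.neg_re, Complex.mul_re, Complex.I_re, Complex.I_im, zero_mul,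
      one_mul, zero_sub, neg_neg] at h8
    exact h8

theorem Xf_Kc {c : ℂ} {r : ℝ} (hr : 0 < r) {μ : ℂ} (hμ : ‖μ‖ < 1) : IsCompact (Kp c r μ) :=
  cDp_compact hr hμ 1

theorem Xf_Kv (c : ℂ) (r : ℝ) (μ : ℂ) : Convex ℝ (Kp c r μ) := by
  intro x hx y hy a b ha hb hab
  show ‖vv c r μ (a • x + b • y)‖ ≤ 1
  refine le_of_forall_gt_imp_ge_of_dense fun σ hσ => ?_
  have h1 : x ∈ Dp c r μ σ := lt_of_le_of_lt hx hσ
  have h2 : y ∈ Dp c r μ σ := lt_of_le_of_lt hy hσ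
  have h3 : ‖vv c r μ (a • x + b • y)‖ < σ := Dp_convex c r μ σ h1 h2 ha hb hab
  exact h3.le

theorem Xf_DK (c : ℂ) (r : ℝ) (μ : ℂ) : Dp c r μ 1 ⊆ Kp c r μ := by
  intro z hz
  have h : ‖vv c r μ z‖ < 1 := hz
  exact h.le

theorem Xf_nb {c : ℂ} {r : ℝ} (hr : 0 < r) {μ : ℂ} (hμ : ‖μ‖ < 1) {N : Set ℂ} (hN : IsOpen N)
    (hK : Kp c r μ ⊆ N) : ∃ σ : ℝ, 1 < σ ∧ Kp c r μ ⊆ Dp c r μ σ ∧ Dp c r μ σ ⊆ N := by
  have hL : IsCompact ({z | ‖vv c r μ z‖ ≤ 2} \ N) := (cDp_compact hr hμ 2).diff hN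
  have hsub : ∀ σ : ℝ, 1 < σ → Kp c r μ ⊆ Dp c r μ σ := fun σ hσ z hz => lt_of_le_of_lt hz hσ
  rcases ({z | ‖vv c r μ z‖ ≤ 2} \ N).eq_empty_or_nonempty with h | h
  · refine ⟨2, by norm_num, hsub 2 (by norm_num), fun z hz => ?_⟩
    by_contra h1
    have h2 : z ∈ ({z | ‖vv c r μ z‖ ≤ 2} \ N) := ⟨le_of_lt (show ‖vv c r μ z‖ < 2 from hz), h1⟩
    rw [h] at h2
    exact h2
  · obtain ⟨p, hp, hmin⟩ := hL.exists_isMinOn h (vv_cont c r μ).norm.continuousOn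
    have hp1 : 1 < ‖vv c r μ p‖ := by
      by_contra h1
      exact hp.2 (hK (not_lt.1 h1))
    have hp2 : ‖vv c r μ p‖ ≤ 2 := hp.1
    refine ⟨‖vv c r μ p‖, hp1, hsub _ hp1, fun z hz => ?_⟩
    have hz' : ‖vv c r μ z‖ < ‖vv c r μ p‖ := hz
    by_contra h1
    have h2 : ‖vv c r μ p‖ ≤ ‖vv c r μ z‖ := hmin ⟨(hz'.le.trans hp2 : ‖vv c r μ z‖ ≤ 2), h1⟩
    linarith

theorem oidG {Ω : Set ℂ} (hΩo : IsOpen Ω) (hΩb : Bornology.IsBounded Ω) {k : ℝ} (hk1 : k ≠ 1)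
    {c₁ : ℂ} {r₁ : ℝ} {μ₁ c₂ : ℂ} {r₂ : ℝ} {μ₂ : ℂ} (hr₁ : 0 < r₁) (hr₂ : 0 < r₂) (hμ₁ : ‖μ₁‖ < 1) (hμ₂ : ‖μ₂‖ < 1)
    (hK₁ : Kp c₁ r₁ μ₁ ⊆ Ω) (hK₂ : Kp c₂ r₂ μ₂ ⊆ Ω) {g u₁ u₂ : ℂ → ℝ} {G₁ G₂ : ℂ → ℂ}
    (h₁ : SolvesC Ω (MD12.cond k (Dp c₁ r₁ μ₁ 1)) g u₁ G₁) (h₂ : SolvesC Ω (MD12.cond k (Dp c₂ r₂ μ₂ 1)) g u₂ G₂)
    (ht : SameTrace Ω u₁ u₂ G₁ G₂) {N : Set ℂ} (hN : IsOpen N) (hN₁ : Kp c₁ r₁ μ₁ ⊆ N) (hN₂ : Kp c₂ r₂ μ₂ ⊆ N)
    {A : ℂ → ℂ} (hA : DifferentiableOn ℂ A N) :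
    ∫ z in Dp c₁ r₁ μ₁ 1, G₁ z * A z = ∫ z in Dp c₂ r₂ μ₂ 1, G₂ z * A z := by
  obtain ⟨σ₁, -, hs₁, hn₁⟩ := Xf_nb hr₁ hμ₁ hN hN₁
  obtain ⟨σ₂, -, hs₂, hn₂⟩ := Xf_nb hr₂ hμ₂ hN hN₂
  have hA' : DifferentiableOn ℂ A (Dp c₁ r₁ μ₁ σ₁ ∪ Dp c₂ r₂ μ₂ σ₂) := hA.mono (union_subset hn₁ hn₂)
  obtain ⟨P, hP⟩ := Xf_prim (Dp_open c₁ r₁ μ₁ σ₁) (Dp_open c₂ r₂ μ₂ σ₂) (Dp_convex c₁ r₁ μ₁ σ₁)
    (Dp_convex c₂ r₂ μ₂ σ₂) hA'
  exact Xf_gen hΩo hΩb hk1 (Dp_open c₁ r₁ μ₁ 1) (Dp_open c₂ r₂ μ₂ 1) (Xf_DK c₁ r₁ μ₁) (Xf_DK c₂ r₂ μ₂)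
    (Xf_Kc hr₁ hμ₁) (Xf_Kc hr₂ hμ₂) (Xf_Kv c₁ r₁ μ₁) (Xf_Kv c₂ r₂ μ₂) hK₁ hK₂
    ((Dp_open c₁ r₁ μ₁ σ₁).union (Dp_open c₂ r₂ μ₂ σ₂)) (union_subset_union hs₁ hs₂) h₁ h₂ ht hA' hP

theorem disj {Ω : Set ℂ} (hΩo : IsOpen Ω) (hΩb : Bornology.IsBounded Ω) {k : ℝ} (hk1 : k ≠ 1)
    {c₁ : ℂ} {r₁ : ℝ} {μ₁ c₂ : ℂ} {r₂ : ℝ} {μ₂ : ℂ} (hr₁ : 0 < r₁) (hr₂ : 0 < r₂) (hμ₁ : ‖μ₁‖ < 1) (hμ₂ : ‖μ₂‖ < 1)
    (hK₁ : Kp c₁ r₁ μ₁ ⊆ Ω) (hK₂ : Kp c₂ r₂ μ₂ ⊆ Ω) (hd : Disjoint (Kp c₁ r₁ μ₁) (Kp c₂ r₂ μ₂)) {g u₁ u₂ : ℂ → ℝ} {G₁ G₂ : ℂ → ℂ}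
    (h₁ : SolvesC Ω (MD12.cond k (Dp c₁ r₁ μ₁ 1)) g u₁ G₁) (h₂ : SolvesC Ω (MD12.cond k (Dp c₂ r₂ μ₂ 1)) g u₂ G₂)
    (ht : SameTrace Ω u₁ u₂ G₁ G₂) {N : Set ℂ} (hN : IsOpen N) (hN₁ : Kp c₁ r₁ μ₁ ⊆ N)
    {A : ℂ → ℂ} (hA : DifferentiableOn ℂ A N) : ∫ z in Dp c₁ r₁ μ₁ 1, G₁ z * A z = 0 := by
  classical
  obtain ⟨U₁, U₂, hU₁, hU₂, hKU₁, hKU₂, hUd⟩ := SeparatedNhds.of_isCompact_isCompact
    (Xf_Kc hr₁ hμ₁) (Xf_Kc hr₂ hμ₂) hd
  have hB : DifferentiableOn ℂ (U₁.indicator A) ((N ∩ U₁) ∪ U₂) := by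
    rintro z (hz | hz)
    · have h3 : DifferentiableAt ℂ A z := hA.differentiableAt (hN.mem_nhds hz.1)
      refine (h3.congr_of_eventuallyEq ?_).differentiableWithinAt
      filter_upwards [hU₁.mem_nhds hz.2] with w hw
      exact Set.indicator_of_mem hw A
    · have h3 : DifferentiableAt ℂ (fun _ : ℂ => (0 : ℂ)) z := differentiableAt_const 0
      refine (h3.congr_of_eventuallyEq ?_).differentiableWithinAt
      filter_upwards [hU₂.mem_nhds hz] with w hw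
      exact Set.indicator_of_notMem (fun h => Set.disjoint_left.1 hUd h hw) A
  have h5 := oidG hΩo hΩb hk1 hr₁ hr₂ hμ₁ hμ₂ hK₁ hK₂ h₁ h₂ ht ((hN.inter hU₁).union hU₂)
    (fun z hz => Or.inl ⟨hN₁ hz, hKU₁ hz⟩) (fun z hz => Or.inr (hKU₂ hz)) hB
  have h6 : ∫ z in Dp c₁ r₁ μ₁ 1, G₁ z * U₁.indicator A z = ∫ z in Dp c₁ r₁ μ₁ 1, G₁ z * A z :=
    setIntegral_congr_fun (Dp_open c₁ r₁ μ₁ 1).measurableSet fun z hz => by
      show G₁ z * U₁.indicator A z = G₁ z * A z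
      rw [Set.indicator_of_mem (hKU₁ (Xf_DK c₁ r₁ μ₁ hz))]
  have h7 : ∫ z in Dp c₂ r₂ μ₂ 1, G₂ z * U₁.indicator A z = 0 := by
    rw [setIntegral_congr_fun (g := fun _ => (0 : ℂ)) (Dp_open c₂ r₂ μ₂ 1).measurableSet fun z hz => ?_]
    · simp
    · show G₂ z * U₁.indicator A z = 0
      rw [Set.indicator_of_notMem (fun h => Set.disjoint_left.1 hUd h (hKU₂ (Xf_DK c₂ r₂ μ₂ hz))),
        mul_zero]
  rw [← h6, h5, h7]

end EX1
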