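import Pool.Agent.H1.EX.T5
import Pool.Agent.H1.EX.Xa
import Pool.Agent.H1.EX.Xd
import Pool.Agent.H1.EX.Xe
import Pool.Agent.H1.EX.Xf
import Pool.Agent.H1.EW.Fb
import Pool.Agent.H1.ED.T2

/-!
# EX: the theorem for all ellipses (disks included) of bounded axis ratio
-/

set_option autoImplicit false

namespace EX1

open Complex Set Filter Topology MeasureTheory MD12 ED1 EW1 EY1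
open scoped ComplexConjugate ContDiff Real

theorem RR_congr {μ₀ ρ : ℝ} (h0 : 0 ≤ μ₀) (h1 : μ₀ < ρ ^ 2) (hρ : 0 < ρ) (hρ1 : ρ < 1) {c : ℂ} {r : ℝ} (hr : 0 < r) {μ : ℂ}
    (hμ : ‖μ‖ ≤ μ₀) (l : ℝ) (A : ℂ → ℂ) {M M' : ℂ → ℂ} (h : ∀ z ∈ Dp c r μ 1, M z = M' z) :
    RR c r μ l A M ρ = RR c r μ l A M' ρ := by
  have hσ₀1 : (ρ ^ 2 + μ₀) / (ρ * (1 + μ₀)) < 1 := by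
    rw [div_lt_one (by positivity)]
    nlinarith [mul_pos (sub_pos.2 hρ1) (show 0 < ρ - μ₀ by nlinarith)]
  have hfc : ∀ n, fc c r μ M ρ n = fc c r μ M' ρ n := by
    intro n
    unfold fc
    congr 1
    refine intervalIntegral.integral_congr fun t _ => ?_
    have hmem : c + r * (ρ * exp (t * I) + μ * (ρ * exp (t * I))⁻¹) ∈ Dp c r μ 1 := by
      have hn : ‖(ρ : ℂ) * exp (t * I)‖ = ρ := by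
        rw [norm_mul, Complex.norm_real, Complex.norm_exp_ofReal_mul_I, mul_one, Real.norm_eq_abs, abs_of_pos hρ]
      exact (crv h0 h1 hρ hρ1 (c := c) hr hμ hn).trans_lt hσ₀1
    simp only [h _ hmem]
  unfold RR
  simp only [hfc]

theorem fld_any {Ω : Set ℂ} (hΩo : IsOpen Ω) {k : ℝ} (hk : 0 < k) (hk1 : k ≠ 1) {c : ℂ} {r : ℝ} (hr : 0 < r) {μ : ℂ}
    (hμ : ‖μ‖ < 1) {ρ : ℝ} (hρ0 : 0 < ρ) (hρ : ‖μ‖ < ρ ^ 2) (hρ1 : ρ < 1) (hK : Kp c r μ ⊆ Ω) {g u : ℂ → ℝ} {G : ℂ → ℂ}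
    (h : SolvesC Ω (MD12.cond k (Dp c r μ 1)) g u G) : ∃ M : ℂ → ℂ, Fld Ω k ρ c r μ G M := by
  by_cases h0 : μ = 0
  · subst h0
    exact fldD hΩo hk hr ρ hK h
  · exact fldE hΩo hk hk1 hr h0 hμ hρ0 hρ hρ1 hK h

/-- two inclusions with the same data: the identity -/
theorem pde2 {Ω : Set ℂ} (hΩo : IsOpen Ω) (hΩb : Bornology.IsBounded Ω) (hΩc : IsPreconnected Ω) {k : ℝ} (hk : 0 < k) (hk1 : k ≠ 1)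
    {μ₀ ρ : ℝ} (h0 : 0 ≤ μ₀) (h1 : μ₀ < ρ ^ 2) (hρ : 0 < ρ) (hρ1 : ρ < 1)
    {c₁ : ℂ} {r₁ : ℝ} {μ₁ c₂ : ℂ} {r₂ : ℝ} {μ₂ : ℂ} (hr₁ : 0 < r₁) (hr₂ : 0 < r₂) (hμ₁ : ‖μ₁‖ ≤ μ₀) (hμ₂ : ‖μ₂‖ ≤ μ₀)
    (hK₁ : Kp c₁ r₁ μ₁ ⊆ Ω) (hK₂ : Kp c₂ r₂ μ₂ ⊆ Ω) {g u₁ u₂ : ℂ → ℝ} {G₁ G₂ : ℂ → ℂ}
    (h₁ : SolvesC Ω (MD12.cond k (Dp c₁ r₁ μ₁ 1)) g u₁ G₁) (h₂ : SolvesC Ω (MD12.cond k (Dp c₂ r₂ μ₂ 1)) g u₂ G₂)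
    (ht : SameTrace Ω u₁ u₂ G₁ G₂) :
    ∃ M : ℂ → ℂ, DifferentiableOn ℂ M Ω ∧
      (∀ A : ℂ → ℂ, DifferentiableOn ℂ A Ω → Idn c₁ r₁ μ₁ c₂ r₂ μ₂ ((k - 1) / (k + 1)) ρ A M) ∧
      ((∀ z ∈ Dp c₁ r₁ μ₁ 1, M z = 0) → ∀ᵐ z ∂volume.restrict (Dp c₁ r₁ μ₁ 1), G₁ z = 0) := by
  have hμ1 : μ₀ < 1 := h1.trans (by nlinarith)
  have hn₁ : ‖μ₁‖ < 1 := hμ₁.trans_lt hμ1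
  have hn₂ : ‖μ₂‖ < 1 := hμ₂.trans_lt hμ1
  obtain ⟨M₁, hF₁⟩ := fld_any hΩo hk hk1 hr₁ hn₁ hρ (hμ₁.trans_lt h1) hρ1 hK₁ h₁
  obtain ⟨M₂, hF₂⟩ := fld_any hΩo hk hk1 hr₂ hn₂ hρ (hμ₂.trans_lt h1) hρ1 hK₂ h₂
  have hMM := cmn hΩo hΩb hΩc hr₁ hr₂ hn₁ hn₂ hK₁ hK₂ h₁ h₂ ht hF₁.hol hF₂.hol hF₁.out hF₂.out
  refine ⟨M₁, hF₁.hol, fun A hA => ?_, hF₁.zero⟩
  have hO := oidG hΩo hΩb hk1 hr₁ hr₂ hn₁ hn₂ hK₁ hK₂ h₁ h₂ ht hΩo hK₁ hK₂ hA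
  have i1 := hF₁.id Ω A hΩo hK₁ hA
  have i2 := hF₂.id Ω A hΩo hK₂ hA
  have hD₂ : ∀ z ∈ Dp c₂ r₂ μ₂ 1, M₂ z = M₁ z := fun z hz => (hMM z (hK₂ (Dp_Kp _ _ _ hz))).symm
  have e1 : ∫ z in Dp c₂ r₂ μ₂ 1, conj (M₂ z) * A z = ∫ z in Dp c₂ r₂ μ₂ 1, conj (M₁ z) * A z := by
    refine setIntegral_congr_fun (Dp_open _ _ _ _).measurableSet fun z hz => ?_
    simp only [hD₂ z hz]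
  rw [e1, RR_congr h0 h1 hρ hρ1 hr₂ hμ₂ _ A hD₂] at i2
  unfold Idn
  rw [← i1, ← i2, hO]

theorem main5a {μ₀ : ℝ} (h0 : 0 ≤ μ₀) (h1 : μ₀ < 1) : ∃ ε : ℝ, 0 < ε ∧ ∀ k : ℝ, 0 < k → k ≠ 1 → |k - 1| < ε →
    ∀ Ω : Set ℂ, IsOpen Ω → Bornology.IsBounded Ω → IsPreconnected Ω → μH[1] (frontier Ω) < ⊤ →
    ∀ (c₁ : ℂ) (r₁ : ℝ) (μ₁ c₂ : ℂ) (r₂ : ℝ) (μ₂ : ℂ), 0 < r₂ → r₂ ≤ r₁ → ‖μ₁‖ ≤ μ₀ → ‖μ₂‖ ≤ μ₀ →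
    Kp c₁ r₁ μ₁ ⊆ Ω → Kp c₂ r₂ μ₂ ⊆ Ω →
    ∀ (g u₁ u₂ : ℂ → ℝ) (G₁ G₂ : ℂ → ℂ), MemLp g 2 (μH[1].restrict (frontier Ω)) →
    ¬ g =ᵐ[μH[1].restrict (frontier Ω)] 0 →
    SolvesC Ω (MD12.cond k (Dp c₁ r₁ μ₁ 1)) g u₁ G₁ → SolvesC Ω (MD12.cond k (Dp c₂ r₂ μ₂ 1)) g u₂ G₂ →
    SameTrace Ω u₁ u₂ G₁ G₂ → c₁ = c₂ ∧ r₁ = r₂ ∧ μ₁ = μ₂ := by
  set ρ : ℝ := Real.sqrt ((1 + μ₀) / 2) with hρd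
  have hρ2 : ρ ^ 2 = (1 + μ₀) / 2 := Real.sq_sqrt (by linarith)
  have hρ0 : 0 < ρ := Real.sqrt_pos.2 (by linarith)
  have hρ1 : ρ < 1 := by nlinarith
  have hμρ : μ₀ < ρ ^ 2 := by rw [hρ2]; linarith
  obtain ⟨η, ε₁, hη, hη1, hε₁, hsm⟩ := small_thm h0 hμρ hρ0 hρ1
  obtain ⟨ε₂, hε₂, hcm⟩ := cmp_thm h0 hμρ hρ0 hρ1 hη hη1
  refine ⟨min ε₁ ε₂, lt_min hε₁ hε₂, ?_⟩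
  intro k hk hk1 hkε Ω hΩo hΩb hΩc hσ c₁ r₁ μ₁ c₂ r₂ μ₂ hr₂ hr21 hμ₁ hμ₂ hK₁ hK₂ g u₁ u₂ G₁ G₂ hg hg0 h₁ h₂ ht
  have hr₁ : 0 < r₁ := hr₂.trans_le hr21
  have hn₁ : ‖μ₁‖ < 1 := hμ₁.trans_lt h1
  have hn₂ : ‖μ₂‖ < 1 := hμ₂.trans_lt h1
  have hl : |(k - 1) / (k + 1)| < min ε₁ ε₂ := by
    rw [abs_div, abs_of_pos (by linarith : (0 : ℝ) < k + 1), div_lt_iff₀ (by linarith)]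
    nlinarith [abs_nonneg (k - 1)]
  have hDn : (Dp c₁ r₁ μ₁ 1).Nonempty := ⟨c₁, by
    show ‖vv c₁ r₁ μ₁ c₁‖ < 1
    have : vv c₁ r₁ μ₁ c₁ = 0 := by unfold vv; simp
    rw [this, norm_zero]
    exact one_pos⟩
  have hfin : ¬ ∀ᵐ z ∂volume.restrict (Dp c₁ r₁ μ₁ 1), G₁ z = 0 := fun h =>
    hg0 (Fg hΩo hΩb hΩc hσ (Dp_open _ _ _ _) hDn ((Dp_Kp _ _ _).trans hK₁) hg h₁ h)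
  by_cases hd : Disjoint (Kp c₁ r₁ μ₁) (Kp c₂ r₂ μ₂)
  · exfalso
    obtain ⟨M₁, hF₁⟩ := fld_any hΩo hk hk1 hr₁ hn₁ hρ0 (hμ₁.trans_lt hμρ) hρ1 hK₁ h₁
    exact hfin (hF₁.mom fun N A hN hN₁ hA => disj hΩo hΩb hk1 hr₁ hr₂ hn₁ hn₂ hK₁ hK₂ hd h₁ h₂ ht hN hN₁ hA)
  obtain ⟨M, hM, hid, hz⟩ := pde2 hΩo hΩb hΩc hk hk1 h0 hμρ hρ0 hρ1 hr₁ hr₂ hμ₁ hμ₂ hK₁ hK₂ h₁ h₂ ht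
  rcases le_or_gt r₂ (η * r₁) with hcase | hcase
  · exact absurd (hz (hsm c₁ r₁ μ₁ c₂ r₂ μ₂ hμ₁ hμ₂ hr₂ hcase hd _ (hl.trans_le (min_le_left _ _)) Ω M hΩo hK₁ hK₂ hM hid)) hfin
  · obtain ⟨z₀, hz₁, hz₂⟩ := Set.not_disjoint_iff.1 hd
    have d1 := K_sub hr₁ hn₁ hz₁
    have d2 := K_sub hr₂ hn₂ hz₂
    have hcc : ‖c₂ - c₁‖ ≤ 4 * r₁ := by
      have : c₂ - c₁ = (z₀ - c₁) - (z₀ - c₂) := by ring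
      rw [this]
      refine (norm_sub_le _ _).trans ?_
      linarith
    have hdd : ¬ 0 < dd c₁ r₁ μ₁ c₂ r₂ μ₂ := fun hd0 =>
      hfin (hz (hcm c₁ r₁ μ₁ c₂ r₂ μ₂ hμ₁ hμ₂ hr₁ hr21 hcase.le hcc hd0 _ (hl.trans_le (min_le_right _ _)) Ω M hΩo hK₁ hK₂ hM hid))
    have h5 : dd c₁ r₁ μ₁ c₂ r₂ μ₂ ≤ 0 := not_lt.1 hdd
    unfold dd at h5
    have a1 := norm_nonneg (c₁ - c₂)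
    have a2 := abs_nonneg (r₁ - r₂)
    have a3 := norm_nonneg (μ₁ - μ₂)
    have h6 : ‖c₁ - c₂‖ = 0 := by linarith
    have h7 : |r₁ - r₂| = 0 := by linarith
    have h8 : ‖μ₁ - μ₂‖ = 0 := by linarith
    exact ⟨sub_eq_zero.1 (norm_eq_zero.1 h6), sub_eq_zero.1 (abs_eq_zero.1 h7), sub_eq_zero.1 (norm_eq_zero.1 h8)⟩

theorem main5 {μ₀ : ℝ} (h0 : 0 ≤ μ₀) (h1 : μ₀ < 1) : ∃ ε : ℝ, 0 < ε ∧ ∀ k : ℝ, 0 < k → k ≠ 1 → |k - 1| < ε →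
    ∀ Ω : Set ℂ, IsOpen Ω → Bornology.IsBounded Ω → IsPreconnected Ω → μH[1] (frontier Ω) < ⊤ →
    ∀ (c₁ : ℂ) (r₁ : ℝ) (μ₁ c₂ : ℂ) (r₂ : ℝ) (μ₂ : ℂ), 0 < r₁ → 0 < r₂ → ‖μ₁‖ ≤ μ₀ → ‖μ₂‖ ≤ μ₀ →
    Kp c₁ r₁ μ₁ ⊆ Ω → Kp c₂ r₂ μ₂ ⊆ Ω →
    ∀ (g u₁ u₂ : ℂ → ℝ) (G₁ G₂ : ℂ → ℂ), MemLp g 2 (μH[1].restrict (frontier Ω)) →
    ¬ g =ᵐ[μH[1].restrict (frontier Ω)] 0 →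
    SolvesC Ω (MD12.cond k (Dp c₁ r₁ μ₁ 1)) g u₁ G₁ → SolvesC Ω (MD12.cond k (Dp c₂ r₂ μ₂ 1)) g u₂ G₂ →
    SameTrace Ω u₁ u₂ G₁ G₂ → c₁ = c₂ ∧ r₁ = r₂ ∧ μ₁ = μ₂ := by
  obtain ⟨ε, hε, h⟩ := main5a h0 h1
  refine ⟨ε, hε, ?_⟩
  intro k hk hk1 hkε Ω hΩo hΩb hΩc hσ c₁ r₁ μ₁ c₂ r₂ μ₂ hr₁ hr₂ hμ₁ hμ₂ hK₁ hK₂ g u₁ u₂ G₁ G₂ hg hg0 h₁ h₂ ht
  rcases le_total r₂ r₁ with hle | hle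
  · exact h k hk hk1 hkε Ω hΩo hΩb hΩc hσ c₁ r₁ μ₁ c₂ r₂ μ₂ hr₂ hle hμ₁ hμ₂ hK₁ hK₂ g u₁ u₂ G₁ G₂ hg hg0 h₁ h₂ ht
  · obtain ⟨e1, e2, e3⟩ := h k hk hk1 hkε Ω hΩo hΩb hΩc hσ c₂ r₂ μ₂ c₁ r₁ μ₁ hr₁ hle hμ₂ hμ₁ hK₂ hK₁ g u₂ u₁ G₂ G₁ hg hg0 h₂ h₁
      (trace_symm ht)
    exact ⟨e1.symm, e2.symm, e3.symm⟩

end EX1
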