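import Mathlib

/-!
ROW EX/Xb. Transform of an antiholomorphic function on a disk (Bergman kernel). By translation `c = 0`. Polar coordinates, the Cauchy
formula for the derivative on every circle, the fundamental theorem of calculus for the radius, and monotone limits of disks.
-/

set_option autoImplicit false

namespace EX1

open Complex Set Filter Topology MeasureTheory
open scoped ComplexConjugate ContDiff Real

private theorem circ {R t : ℝ} (ht : 0 < t) (htR : t < R) {F : ℂ → ℂ}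
    (hF : DifferentiableOn ℂ F (Metric.ball 0 R)) {ζ : ℂ} (hζ : R < ‖ζ‖) :
    ∫ θ in (-π)..π, F (circleMap 0 t θ) / (ζ - conj (circleMap 0 t θ)) ^ 2 =
      2 * π / ζ ^ 2 * deriv (fun w => w * F w) ((t : ℂ) ^ 2 / ζ) := by
  have hζn : 0 < ‖ζ‖ := by linarith
  have hζ0 : ζ ≠ 0 := norm_pos_iff.mp hζn
  have ha : ((t : ℂ) ^ 2 / ζ) ∈ Metric.ball (0 : ℂ) t := by
    simp only [mem_ball_zero_iff, norm_div, norm_pow, Complex.norm_real, Real.norm_eq_abs, sq_abs]
    rw [div_lt_iff₀ hζn]; nlinarith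
  have h1 := two_pi_I_inv_smul_circleIntegral_sub_sq_inv_smul_of_differentiable
    (f := fun w => w * F w) Metric.isOpen_ball (Metric.closedBall_subset_ball htR)
    (differentiableOn_id.mul hF) ha
  rw [← h1, circleIntegral]
  have hper : Function.Periodic
      (fun θ : ℝ => F (circleMap 0 t θ) / (ζ - conj (circleMap 0 t θ)) ^ 2) (2 * π) := by
    intro θ
    simp only [periodic_circleMap 0 t θ]
  have h2 := hper.intervalIntegral_add_eq (-π) 0
  rw [show -π + 2 * π = π by ring, zero_add] at h2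
  rw [h2, smul_eq_mul, ← mul_assoc, ← intervalIntegral.integral_const_mul]
  refine intervalIntegral.integral_congr (fun θ _ => ?_)
  simp only [deriv_circleMap, smul_eq_mul]
  have hwn : ‖circleMap 0 t θ‖ = t := by simp [abs_of_pos ht]
  generalize circleMap 0 t θ = w at hwn ⊢
  have hw0 : w ≠ 0 := by
    rw [← norm_pos_iff, hwn]; exact ht
  have hconj : conj w = (t : ℂ) ^ 2 / w := by
    rw [eq_div_iff hw0, mul_comm, Complex.mul_conj, Complex.normSq_eq_norm_sq, hwn]
    push_cast; rfl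
  have hne : w - (t : ℂ) ^ 2 / ζ ≠ 0 := by
    intro h
    have h3 : w = (t : ℂ) ^ 2 / ζ := sub_eq_zero.mp h
    rw [← h3, mem_ball_zero_iff, hwn] at ha
    exact lt_irrefl _ ha
  have hne2 : w * ζ - (t : ℂ) ^ 2 ≠ 0 := by
    intro h
    apply hne
    rw [sub_eq_zero] at h ⊢
    rw [eq_div_iff hζ0]; exact h
  have hpi : (π : ℂ) ≠ 0 := by exact_mod_cast Real.pi_ne_zero
  rw [hconj]
  have e1 : ζ - (t : ℂ) ^ 2 / w = (w * ζ - (t : ℂ) ^ 2) / w := by field_simp
  have e2 : w - (t : ℂ) ^ 2 / ζ = (w * ζ - (t : ℂ) ^ 2) / ζ := by field_simp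
  rw [e1, e2]
  field_simp

private theorem ballint {R s : ℝ} (hs : 0 < s) (hsR : s < R) {F : ℂ → ℂ}
    (hF : DifferentiableOn ℂ F (Metric.ball 0 R)) {ζ : ℂ} (hζ : R < ‖ζ‖) :
    ∫ w in Metric.ball (0 : ℂ) s, F w / (ζ - conj w) ^ 2 =
      π * ((s : ℂ) ^ 2 / ζ ^ 2) * F ((s : ℂ) ^ 2 / ζ) := by
  have hζn : 0 < ‖ζ‖ := by linarith
  have hζ0 : ζ ≠ 0 := norm_pos_iff.mp hζn
  rw [← integral_indicator measurableSet_ball, ← Complex.integral_comp_polarCoord_symm]
  have hsym : ∀ p : ℝ × ℝ, Complex.polarCoord.symm p = circleMap 0 p.1 p.2 := by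
    intro p
    rw [Complex.polarCoord_symm_apply, circleMap, zero_add, Complex.exp_mul_I]
    push_cast; rfl
  have e1 : (∫ p in polarCoord.target, p.1 • (Metric.ball (0 : ℂ) s).indicator
        (fun w => F w / (ζ - conj w) ^ 2) (Complex.polarCoord.symm p)) =
      ∫ p in polarCoord.target, (Iio s ×ˢ (univ : Set ℝ)).indicator
        (fun p => (p.1 : ℂ) * (F (circleMap 0 p.1 p.2) / (ζ - conj (circleMap 0 p.1 p.2)) ^ 2)) p := by
    refine setIntegral_congr_fun polarCoord.open_target.measurableSet (fun p hp => ?_)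
    have hp1 : 0 < p.1 := hp.1
    have hn : ‖circleMap 0 p.1 p.2‖ = p.1 := by simp [abs_of_pos hp1]
    simp only [hsym]
    by_cases h : p.1 < s
    · rw [indicator_of_mem (by rw [mem_ball_zero_iff, hn]; exact h), indicator_of_mem (by simpa using h)]
      simp
    · rw [indicator_of_notMem (by rw [mem_ball_zero_iff, hn]; exact h), indicator_of_notMem (by simpa using h)]
      simp
  rw [e1, setIntegral_indicator (measurableSet_Iio.prod MeasurableSet.univ)]
  have e2 : polarCoord.target ∩ (Iio s ×ˢ (univ : Set ℝ)) = Ioo 0 s ×ˢ Ioo (-π) π := by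
    rw [polarCoord_target]
    ext p
    simp only [mem_inter_iff, mem_prod, mem_Ioi, mem_Ioo, mem_Iio, mem_univ, and_true]
    tauto
  rw [e2, Measure.volume_eq_prod]
  have hcK : ContinuousOn (fun p : ℝ × ℝ =>
      (p.1 : ℂ) * (F (circleMap 0 p.1 p.2) / (ζ - conj (circleMap 0 p.1 p.2)) ^ 2))
      (Icc 0 s ×ˢ Icc (-π) π) := by
    have hcm : Continuous (fun p : ℝ × ℝ => circleMap 0 p.1 p.2) := by
      unfold circleMap; fun_prop
    have hmem : ∀ p ∈ (Icc 0 s ×ˢ Icc (-π) π : Set (ℝ × ℝ)), circleMap 0 p.1 p.2 ∈ Metric.ball (0 : ℂ) R := by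
      intro p hp
      rw [mem_ball_zero_iff]
      have hn : ‖circleMap 0 p.1 p.2‖ = p.1 := by simp [abs_of_nonneg hp.1.1]
      rw [hn]; exact lt_of_le_of_lt hp.1.2 hsR
    refine ContinuousOn.mul (by fun_prop) (ContinuousOn.div ?_ ?_ ?_)
    · exact hF.continuousOn.comp hcm.continuousOn hmem
    · exact ((continuous_const.sub (Complex.continuous_conj.comp hcm)).pow 2).continuousOn
    · intro p hp
      refine pow_ne_zero 2 (sub_ne_zero.mpr ?_)
      intro h
      have h3 := hmem p hp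
      rw [mem_ball_zero_iff] at h3
      have h4 : ‖ζ‖ = ‖circleMap 0 p.1 p.2‖ := by rw [h, Complex.norm_conj]
      linarith
  have hint : IntegrableOn (fun p : ℝ × ℝ =>
      (p.1 : ℂ) * (F (circleMap 0 p.1 p.2) / (ζ - conj (circleMap 0 p.1 p.2)) ^ 2))
      (Ioo 0 s ×ˢ Ioo (-π) π) (volume.prod volume) := by
    refine IntegrableOn.mono_set ?_ (prod_mono Ioo_subset_Icc_self Ioo_subset_Icc_self)
    exact hcK.integrableOn_compact (isCompact_Icc.prod isCompact_Icc)
  rw [setIntegral_prod _ hint]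
  have e3 : ∀ t ∈ Ioo 0 s, (∫ θ in Ioo (-π) π,
      ((t : ℂ) * (F (circleMap 0 t θ) / (ζ - conj (circleMap 0 t θ)) ^ 2))) =
      (t : ℂ) * (2 * π / ζ ^ 2 * deriv (fun w => w * F w) ((t : ℂ) ^ 2 / ζ)) := by
    intro t ht
    rw [← circ ht.1 (ht.2.trans hsR) hF hζ, ← integral_Ioc_eq_integral_Ioo,
      ← intervalIntegral.integral_of_le (by linarith [Real.pi_pos]),
      intervalIntegral.integral_const_mul]
  rw [setIntegral_congr_fun measurableSet_Ioo e3, ← integral_Ioc_eq_integral_Ioo,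
    ← intervalIntegral.integral_of_le hs.le]
  have hH : DifferentiableOn ℂ (fun w => w * F w) (Metric.ball 0 R) := differentiableOn_id.mul hF
  have hmem2 : ∀ t ∈ Icc 0 s, ((t : ℂ) ^ 2 / ζ) ∈ Metric.ball (0 : ℂ) R := by
    intro t ht
    simp only [mem_ball_zero_iff, norm_div, norm_pow, Complex.norm_real, Real.norm_eq_abs, sq_abs]
    rw [div_lt_iff₀ hζn]
    have := ht.1; have := ht.2
    nlinarith
  have hder : ∀ t ∈ uIcc 0 s, HasDerivAt (fun t : ℝ => (π : ℂ) / ζ * (((t : ℂ) ^ 2 / ζ) * F ((t : ℂ) ^ 2 / ζ)))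
      ((t : ℂ) * (2 * π / ζ ^ 2 * deriv (fun w => w * F w) ((t : ℂ) ^ 2 / ζ))) t := by
    intro t ht
    rw [uIcc_of_le hs.le] at ht
    have h1 : HasDerivAt (fun w => w * F w) (deriv (fun w => w * F w) ((t : ℂ) ^ 2 / ζ)) ((t : ℂ) ^ 2 / ζ) :=
      ((hH _ (hmem2 t ht)).differentiableAt (Metric.isOpen_ball.mem_nhds (hmem2 t ht))).hasDerivAt
    have h2 : HasDerivAt (fun t : ℂ => t ^ 2 / ζ) (2 * (t : ℂ) / ζ) (t : ℂ) := by
      have := (hasDerivAt_pow 2 (t : ℂ)).div_const ζ
      simpa using this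
    have h3 := (h1.comp (t : ℂ) h2).comp_ofReal
    have h4 := h3.const_mul ((π : ℂ) / ζ)
    have e : (π : ℂ) / ζ * (deriv (fun w => w * F w) ((t : ℂ) ^ 2 / ζ) * (2 * (t : ℂ) / ζ)) =
      (t : ℂ) * (2 * π / ζ ^ 2 * deriv (fun w => w * F w) ((t : ℂ) ^ 2 / ζ)) := by
      field_simp
    rw [e] at h4
    exact h4
  have hci : IntervalIntegrable (fun t : ℝ => (t : ℂ) * (2 * π / ζ ^ 2 * deriv (fun w => w * F w) ((t : ℂ) ^ 2 / ζ)))
      volume 0 s := by
    refine ContinuousOn.intervalIntegrable ?_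
    rw [uIcc_of_le hs.le]
    refine ContinuousOn.mul (by fun_prop) (ContinuousOn.mul continuousOn_const ?_)
    exact ((hH.deriv Metric.isOpen_ball).continuousOn).comp
      (f := fun t : ℝ => (t : ℂ) ^ 2 / ζ) (by fun_prop) hmem2
  rw [intervalIntegral.integral_eq_sub_of_hasDerivAt hder hci]
  simp
  field_simp

private theorem berg0 {r : ℝ} (hr : 0 < r) {F : ℂ → ℂ} (hF : DifferentiableOn ℂ F (Metric.ball 0 r))
    (hF2 : IntegrableOn F (Metric.ball 0 r)) {ζ : ℂ} (hζ : r < ‖ζ‖) :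
    ∫ w in Metric.ball (0 : ℂ) r, F w / (ζ - conj w) ^ 2 = π * ((r : ℂ) ^ 2 / ζ ^ 2) * F ((r : ℂ) ^ 2 / ζ) := by
  have hζn : 0 < ‖ζ‖ := by linarith
  have hζ0 : ζ ≠ 0 := norm_pos_iff.mp hζn
  set s : ℕ → ℝ := fun n => r * (1 - 1 / ((n : ℝ) + 2)) with hsdef
  have hspos : ∀ n, 0 < s n := by
    intro n
    have h1 : (0 : ℝ) < (n : ℝ) + 2 := by positivity
    have h2 : 1 / ((n : ℝ) + 2) < 1 := by rw [div_lt_one h1]; linarith [Nat.cast_nonneg (α := ℝ) n]
    exact mul_pos hr (by linarith)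
  have hslt : ∀ n, s n < r := by
    intro n
    have h1 : (0 : ℝ) < 1 / ((n : ℝ) + 2) := by positivity
    simp only [hsdef]
    nlinarith
  have hsmono : Monotone s := by
    intro a b hab
    simp only [hsdef]
    have h1 : 1 / ((b : ℝ) + 2) ≤ 1 / ((a : ℝ) + 2) := by
      apply one_div_le_one_div_of_le (by positivity)
      have : (a : ℝ) ≤ b := by exact_mod_cast hab
      linarith
    nlinarith
  have hslim : Tendsto s atTop (𝓝 r) := by
    have h1 : Tendsto (fun n : ℕ => 1 / ((n : ℝ) + 2)) atTop (𝓝 0) := by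
      have h2 := tendsto_one_div_add_atTop_nhds_zero_nat (𝕜 := ℝ)
      have h3 := h2.comp (tendsto_add_atTop_nat 1)
      refine h3.congr (fun n => ?_)
      simp only [Function.comp]
      push_cast
      ring_nf
    have h4 := (tendsto_const_nhds (x := (1 : ℝ))).sub h1
    have h5 := h4.const_mul r
    simpa [hsdef] using h5
  have hU : (⋃ n, Metric.ball (0 : ℂ) (s n)) = Metric.ball 0 r := by
    ext w
    simp only [mem_iUnion, mem_ball_zero_iff]
    constructor
    · rintro ⟨n, hn⟩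
      exact hn.trans (hslt n)
    · intro hw
      exact ((tendsto_order.mp hslim).1 _ hw).exists
  have hcK : ContinuousOn (fun w : ℂ => ((ζ - conj w) ^ 2)⁻¹) (Metric.closedBall 0 r) := by
    refine ContinuousOn.inv₀ ?_ ?_
    · exact ((continuous_const.sub Complex.continuous_conj).pow 2).continuousOn
    · intro w hw
      refine pow_ne_zero 2 (sub_ne_zero.mpr ?_)
      intro h
      rw [mem_closedBall_zero_iff] at hw
      have h4 : ‖ζ‖ = ‖w‖ := by rw [h, Complex.norm_conj]
      linarith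
  obtain ⟨C, hC⟩ := (isCompact_closedBall (0 : ℂ) r).exists_bound_of_continuousOn hcK
  have hint : IntegrableOn (fun w => F w / (ζ - conj w) ^ 2) (Metric.ball 0 r) := by
    have h1 : IntegrableOn (fun w => ((ζ - conj w) ^ 2)⁻¹ * F w) (Metric.ball 0 r) := by
      refine Integrable.bdd_mul hF2 ?_ (c := C) ?_
      · exact (hcK.mono Metric.ball_subset_closedBall).aestronglyMeasurable measurableSet_ball
      · refine (ae_restrict_iff' measurableSet_ball).mpr (Eventually.of_forall (fun w hw => ?_))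
        exact hC w (Metric.ball_subset_closedBall hw)
    refine h1.congr_fun (fun w _ => ?_) measurableSet_ball
    simp only [div_eq_mul_inv, mul_comm]
  have hl := tendsto_setIntegral_of_monotone (μ := volume) (f := fun w => F w / (ζ - conj w) ^ 2)
    (s := fun n => Metric.ball (0 : ℂ) (s n)) (fun n => measurableSet_ball)
    (fun a b hab => Metric.ball_subset_ball (hsmono hab)) (by rw [hU]; exact hint)
  rw [hU] at hl
  have hl2 : Tendsto (fun n => (π : ℂ) * (((s n : ℝ) : ℂ) ^ 2 / ζ ^ 2) * F (((s n : ℝ) : ℂ) ^ 2 / ζ)) atTop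
      (𝓝 (π * ((r : ℂ) ^ 2 / ζ ^ 2) * F ((r : ℂ) ^ 2 / ζ))) := by
    have hsc : Tendsto (fun n => ((s n : ℝ) : ℂ)) atTop (𝓝 (r : ℂ)) :=
      (Complex.continuous_ofReal.tendsto r).comp hslim
    have hmem : ((r : ℂ) ^ 2 / ζ) ∈ Metric.ball (0 : ℂ) r := by
      simp only [mem_ball_zero_iff, norm_div, norm_pow, Complex.norm_real, Real.norm_eq_abs, sq_abs]
      rw [div_lt_iff₀ hζn]; nlinarith
    have hFc : ContinuousAt F ((r : ℂ) ^ 2 / ζ) :=
      (hF.continuousOn).continuousAt (Metric.isOpen_ball.mem_nhds hmem)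
    exact ((hsc.pow 2).div_const _).const_mul _ |>.mul (hFc.tendsto.comp ((hsc.pow 2).div_const ζ))
  refine tendsto_nhds_unique hl (hl2.congr (fun n => ?_))
  rw [ballint (hspos n) (hslt n) hF hζ]

theorem berg {c : ℂ} {r : ℝ} (hr : 0 < r) {F : ℂ → ℂ} (hF : DifferentiableOn ℂ F (Metric.ball c r))
    (hF2 : IntegrableOn F (Metric.ball c r)) {z : ℂ} (hz : r < ‖z - c‖) :
    ∫ w in Metric.ball c r, conj (F w) / (z - w) ^ 2 = π * ((r : ℂ) ^ 2 / (z - c) ^ 2) * conj (F (c + (r : ℂ) ^ 2 / conj (z - c))) := by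
  have hmp : MeasurePreserving (fun w : ℂ => c + w) volume volume := measurePreserving_add_left volume c
  have hme : MeasurableEmbedding (fun w : ℂ => c + w) := measurableEmbedding_addLeft c
  have hpre : (fun w : ℂ => c + w) ⁻¹' (Metric.ball c r) = Metric.ball 0 r := by
    ext w
    simp [Metric.mem_ball, dist_eq_norm]
  have h1 := hmp.setIntegral_preimage_emb hme (fun w => conj (F w) / (z - w) ^ 2) (Metric.ball c r)
  rw [hpre] at h1
  rw [← h1]
  have hG : DifferentiableOn ℂ (fun w => F (c + w)) (Metric.ball 0 r) := by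
    refine hF.comp (by fun_prop) ?_
    intro w hw
    rw [← hpre] at hw; exact hw
  have hG2 : IntegrableOn (fun w => F (c + w)) (Metric.ball 0 r) := by
    have := (hmp.integrableOn_comp_preimage hme (f := F) (s := Metric.ball c r)).mpr hF2
    rw [hpre] at this
    exact this
  have hζ : r < ‖conj (z - c)‖ := by rw [Complex.norm_conj]; exact hz
  have h2 := berg0 hr hG hG2 hζ
  have h3 := congrArg conj h2
  rw [← integral_conj] at h3
  have e : ∀ w : ℂ, conj (F (c + w) / (conj (z - c) - conj w) ^ 2) = conj (F (c + w)) / (z - (c + w)) ^ 2 := by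
    intro w
    simp only [map_div₀, map_pow, map_sub, Complex.conj_conj]
    congr 2
    ring
  simp only [e] at h3
  rw [h3]
  simp only [map_mul, map_div₀, map_pow, Complex.conj_conj, Complex.conj_ofReal]

end EX1
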