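import Pool.Agent.H1.EX.D
import Pool.Agent.H1.EW.Ga

/-!
ROW EX/Xi. Ellipses by center, half axes `0 < β ≤ α` and angle `θ`: `r = (α+β)/2`, `μ = (α-β)/(α+β) e^(2iθ)`. `zz c r μ (e^(iθ) (x + i y)) = c + e^(iθ) (α x + i β y)`; `vv` is the inverse of `zz` (`zz_vv`, `vv_zz` in `EW/Ga.lean`).
`‖μ‖ = (α-β)/(α+β)`.
-/

set_option autoImplicit false

namespace EX1

open Complex Set Filter Topology MeasureTheory EW1
open scoped ComplexConjugate ContDiff Real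

/-- the open ellipse with center `c`, half axes `α`, `β`, the axis of length `2 α` in the direction `e^(iθ)` -/
def ell (c : ℂ) (α β θ : ℝ) : Set ℂ := {z | ∃ x y : ℝ, x ^ 2 + y ^ 2 < 1 ∧ z = c + exp (θ * I) * (α * x + β * y * I)}

/-- the closed ellipse -/
def cell (c : ℂ) (α β θ : ℝ) : Set ℂ := {z | ∃ x y : ℝ, x ^ 2 + y ^ 2 ≤ 1 ∧ z = c + exp (θ * I) * (α * x + β * y * I)}

private theorem Xi_norm {α β : ℝ} (hβ : 0 < β) (hαβ : β ≤ α) (θ : ℝ) :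
    ‖(((α - β) / (α + β) : ℝ) : ℂ) * exp (2 * θ * I)‖ = (α - β) / (α + β) := by
  have h1 : ‖exp (2 * θ * I)‖ = 1 := by
    have h2 : (2 * θ * I : ℂ) = ((2 * θ : ℝ) : ℂ) * I := by push_cast; ring
    rw [h2, Complex.norm_exp_ofReal_mul_I]
  rw [norm_mul, h1, mul_one, Complex.norm_real, Real.norm_eq_abs, abs_of_nonneg]
  exact div_nonneg (by linarith) (by linarith)

private theorem Xi_lt {α β : ℝ} (hβ : 0 < β) (hαβ : β ≤ α) : (α - β) / (α + β) < 1 := by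
  rw [div_lt_one (by linarith)]
  linarith

private theorem Xi_zz (c : ℂ) {α β : ℝ} (hβ : 0 < β) (hαβ : β ≤ α) (θ x y : ℝ) :
    zz c ((α + β) / 2) (((α - β) / (α + β) : ℝ) * exp (2 * θ * I)) (exp (θ * I) * (x + y * I)) =
      c + exp (θ * I) * (α * x + β * y * I) := by
  have h0 : ((α : ℂ) + β) ≠ 0 := by
    rw [← Complex.ofReal_add, Ne, Complex.ofReal_eq_zero]
    linarith
  have h1 : conj (exp (θ * I)) = exp (-(θ * I)) := by
    rw [← Complex.exp_conj, map_mul, Complex.conj_ofReal, Complex.conj_I, mul_neg]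
  have h2 : exp (2 * θ * I) * exp (-(θ * I)) = exp (θ * I) := by
    rw [← Complex.exp_add]
    congr 1
    ring
  unfold zz
  rw [map_mul, h1, map_add, map_mul, Complex.conj_ofReal, Complex.conj_ofReal, Complex.conj_I]
  have h3 : (((α - β) / (α + β) : ℝ) : ℂ) * exp (2 * θ * I) * (exp (-(θ * I)) * (x + y * -I)) =
      (((α - β) / (α + β) : ℝ) : ℂ) * exp (θ * I) * (x + y * -I) := by
    rw [← h2]
    ring
  rw [h3]
  push_cast
  field_simp
  ring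

private theorem Xi_normsq (θ x y : ℝ) : ‖exp (θ * I) * (x + y * I)‖ ^ 2 = x ^ 2 + y ^ 2 := by
  rw [norm_mul, Complex.norm_exp_ofReal_mul_I, one_mul, ← Complex.normSq_eq_norm_sq,
    Complex.normSq_add_mul_I]

private theorem Xi_rep (θ : ℝ) (v : ℂ) : ∃ x y : ℝ, v = exp (θ * I) * (x + y * I) := by
  refine ⟨(exp (-(θ * I)) * v).re, (exp (-(θ * I)) * v).im, ?_⟩
  rw [Complex.re_add_im, ← mul_assoc, ← Complex.exp_add, add_neg_cancel, Complex.exp_zero, one_mul]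

theorem ell_Dp (c : ℂ) {α β : ℝ} (hβ : 0 < β) (hαβ : β ≤ α) (θ : ℝ) :
    ell c α β θ = Dp c ((α + β) / 2) (((α - β) / (α + β) : ℝ) * exp (2 * θ * I)) 1 ∧
    cell c α β θ = Kp c ((α + β) / 2) (((α - β) / (α + β) : ℝ) * exp (2 * θ * I)) ∧
    ‖(((α - β) / (α + β) : ℝ) : ℂ) * exp (2 * θ * I)‖ = (α - β) / (α + β) := by
  have hn := Xi_norm hβ hαβ θ
  have hr : 0 < (α + β) / 2 := by linarith
  have hμ : ‖(((α - β) / (α + β) : ℝ) : ℂ) * exp (2 * θ * I)‖ < 1 := by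
    rw [hn]
    exact Xi_lt hβ hαβ
  have key : ∀ (P : ℝ → Prop) (z : ℂ),
      (∃ x y : ℝ, P (x ^ 2 + y ^ 2) ∧ z = c + exp (θ * I) * (α * x + β * y * I)) ↔
      P (‖vv c ((α + β) / 2) (((α - β) / (α + β) : ℝ) * exp (2 * θ * I)) z‖ ^ 2) := by
    intro P z
    constructor
    · rintro ⟨x, y, hP, rfl⟩
      rw [← Xi_zz c hβ hαβ θ x y, vv_zz hr hμ, Xi_normsq]
      exact hP
    · intro hP
      obtain ⟨x, y, hxy⟩ := Xi_rep θ (vv c ((α + β) / 2) (((α - β) / (α + β) : ℝ) * exp (2 * θ * I)) z)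
      refine ⟨x, y, ?_, ?_⟩
      · rw [hxy, Xi_normsq] at hP
        exact hP
      · rw [← Xi_zz c hβ hαβ θ x y, ← hxy, zz_vv hr hμ]
  refine ⟨?_, ?_, hn⟩
  · ext z
    refine (key (fun t => t < 1) z).trans ?_
    show _ ↔ ‖vv c ((α + β) / 2) (((α - β) / (α + β) : ℝ) * exp (2 * θ * I)) z‖ < 1
    exact sq_lt_one_iff₀ (norm_nonneg _)
  · ext z
    refine (key (fun t => t ≤ 1) z).trans ?_
    show _ ↔ ‖vv c ((α + β) / 2) (((α - β) / (α + β) : ℝ) * exp (2 * θ * I)) z‖ ≤ 1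
    exact sq_le_one_iff₀ (norm_nonneg _)

end EX1
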